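import Pool.Agent.K1H19.Kom2.Stm
import Pool.Agent.K1H24.Kom_ACC1

/-! # KR2-ACCB1: cost of one row, small entries (helper52, for project KR2 of helper19) -/

set_option autoImplicit false

namespace Pool.Agent.K1H52.Kom2

open Finset K19Kom K19Kom2 Pool.Agent.K1H24.Kom

theorem lamt_nonneg {t : ℝ} (ht : 1 ≤ t) : 0 ≤ lamt t := by
  unfold lamt
  have := Real.log_nonneg ht
  positivity

theorem Sc_eq (t : ℝ) (q : ℕ) : Sc t q = Real.sqrt t * (bd q / 2 ^ q) := by
  unfold Sc bd; ring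

theorem Sc_nonneg (t : ℝ) (q : ℕ) : 0 ≤ Sc t q := by
  unfold Sc; positivity

theorem Bc_nonneg {t : ℝ} (ht : 1 ≤ t) (q : ℕ) : 0 ≤ Bc t q := by
  unfold Bc
  have := lamt_nonneg ht
  have := hp_pos q
  positivity

theorem lamt_le {t : ℝ} (ht : 1 ≤ t) : lamt t ≤ 9 * Real.sqrt t := by
  have ht0 : 0 < t := by linarith
  have h0 : 0 ≤ Real.log t := Real.log_nonneg ht
  have h1 : Real.log t = 3 * Real.log (t ^ (1 / 3 : ℝ)) := by
    rw [Real.log_rpow ht0]; ring
  have h2 : 0 < t ^ (1 / 3 : ℝ) := Real.rpow_pos_of_pos ht0 _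
  have h3 : 1 + Real.log t ≤ 3 * t ^ (1 / 3 : ℝ) := by
    rw [h1]
    have := Real.log_le_sub_one_of_pos h2
    linarith
  unfold lamt
  calc (1 + Real.log t) ^ (3 / 2 : ℝ) ≤ (3 * t ^ (1 / 3 : ℝ)) ^ (3 / 2 : ℝ) :=
        Real.rpow_le_rpow (by positivity) h3 (by norm_num)
    _ = 3 ^ (3 / 2 : ℝ) * t ^ (1 / 2 : ℝ) := by
        rw [Real.mul_rpow (by norm_num) h2.le, ← Real.rpow_mul ht0.le]
        norm_num
    _ ≤ 9 * Real.sqrt t := by
        rw [Real.sqrt_eq_rpow]
        apply mul_le_mul_of_nonneg_right _ (by positivity)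
        calc (3 : ℝ) ^ (3 / 2 : ℝ) ≤ 3 ^ (2 : ℝ) :=
              Real.rpow_le_rpow_of_exponent_le (by norm_num) (by norm_num)
          _ = 9 := by norm_num

theorem hp_le_succ (p : ℕ) : hp p ≤ 5 / 7 * hp (p + 1) := by
  rw [hp_succ]
  unfold hp
  have h2 : 0 < Real.sqrt ((2 : ℝ) ^ p) := Real.sqrt_pos.2 (by positivity)
  have h3 := sqrt_two_bounds.1
  have h4 : (7 : ℝ) / 5 * (((p : ℝ) + 2) * Real.sqrt (2 ^ p)) ≤
      Real.sqrt 2 * (((p : ℝ) + 2) * Real.sqrt (2 ^ p)) := mul_le_mul_of_nonneg_right h3 (by positivity)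
  nlinarith

theorem hp_mono {p q : ℕ} (h : p ≤ q) : hp p ≤ hp q := by
  induction q, h using Nat.le_induction with
  | base => exact le_rfl
  | succ q _ ih =>
    have h1 := hp_le_succ q
    have h2 := hp_pos (q + 1)
    linarith

theorem sum_hp (P : ℕ) : ∑ p ∈ range (P + 1), hp p ≤ 7 / 2 * hp P := by
  induction P with
  | zero =>
    rw [Finset.sum_range_one]
    have := hp_pos 0
    linarith
  | succ P ih =>
    rw [Finset.sum_range_succ]
    have h1 := hp_le_succ P
    linarith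

/-- at most four times of a given level -/
theorem card_le_four2 (h : S_WHIT2) (p0 k p : ℕ) :
    ((range (k * 2 ^ p0)).filter fun T => 2 ^ lvl2 p0 (k * 2 ^ p0) T ∣ T + 1 ∧
      lvl2 p0 (k * 2 ^ p0) T = p).card ≤ 4 := by
  obtain ⟨-, h2, -⟩ := h p0 k
  set l := k * 2 ^ p0 with hl
  have hp0 : 0 < 2 ^ p := by positivity
  have hmaps : ∀ T ∈ (range l).filter (fun T => 2 ^ lvl2 p0 l T ∣ T + 1 ∧ lvl2 p0 l T = p),
      (T + 1) / 2 ^ p ∈ Icc (l / 2 ^ p - 3) (l / 2 ^ p) := by
    intro T hT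
    rw [Finset.mem_filter, Finset.mem_range] at hT
    obtain ⟨hTl, hdvd, hlv⟩ := hT
    have a2 := h2 T hTl
    rw [hlv] at a2 hdvd
    obtain ⟨m, hk⟩ := hdvd
    have e1 : (T + 1) / 2 ^ p = m := by rw [hk, Nat.mul_div_cancel_left _ hp0]
    rw [e1, Finset.mem_Icc]
    have e2 := Nat.div_mul_le_self l (2 ^ p)
    constructor
    · have e3 : l / 2 ^ p * 2 ^ p < (m + 4) * 2 ^ p := by nlinarith
      have e4 := Nat.lt_of_mul_lt_mul_right e3
      omega
    · rw [Nat.le_div_iff_mul_le hp0]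
      nlinarith
  have hinj : Set.InjOn (fun T => (T + 1) / 2 ^ p)
      ((range l).filter (fun T => 2 ^ lvl2 p0 l T ∣ T + 1 ∧ lvl2 p0 l T = p) : Finset ℕ) := by
    intro T hT T' hT' he
    rw [Finset.mem_coe, Finset.mem_filter] at hT hT'
    obtain ⟨-, hd, hl⟩ := hT
    obtain ⟨-, hd', hl'⟩ := hT'
    rw [hl] at hd
    rw [hl'] at hd'
    have e1 := Nat.div_mul_cancel hd
    have e2 := Nat.div_mul_cancel hd'
    simp only at he
    rw [he] at e1
    omega
  have h3 := Finset.card_le_card_of_injOn _ hmaps hinj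
  refine h3.trans ?_
  rw [Nat.card_Icc]
  omega

theorem t_ACCB1 : S_ACCB1 := by
  intro hW
  refine ⟨3000000, by norm_num, ?_⟩
  intro t p0 ht hfit d Rel i P hpP hP
  classical
  obtain ⟨k, hk⟩ : ∃ k : ℕ, stt p0 i = k * 2 ^ p0 := ⟨_, rfl⟩
  obtain ⟨l, hl⟩ : ∃ l : ℕ, l = k * 2 ^ p0 := ⟨_, rfl⟩
  have hL := lamt_nonneg ht
  have hst1 : 1 ≤ Real.sqrt t := Real.one_le_sqrt.2 ht
  have hc4 : ∀ p, ((range l).filter fun T => 2 ^ lvl2 p0 l T ∣ T + 1 ∧ lvl2 p0 l T = p).card ≤ 4 := by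
    intro p
    rw [hl]
    exact card_le_four2 hW p0 k p
  rw [← hl] at hk
  -- bound of the terms
  have h1 : paid2 t p0 Rel i 0 ≤ ∑ T ∈ (range l).filter (fun T => 2 ^ lvl2 p0 l T ∣ T + 1),
      ((if lvl2 p0 l T ≤ P then Bc t (lvl2 p0 l T) else 0) + Sc t (lvl2 p0 l T)) := by
    unfold paid2
    rw [hk, ← Finset.range_eq_Ico]
    apply Finset.sum_le_sum
    intro T hT
    rw [Finset.mem_filter, Finset.mem_range] at hT
    have h2 := hP T (by rw [hk]; exact hT.1)
    rw [hk] at h2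
    have h3 := Sc_nonneg t (lvl2 p0 l T)
    have h4 := Bc_nonneg ht (lvl2 p0 l T)
    by_cases h5 : i ∈ Rel T (lvl2 p0 l T)
    · rw [if_pos h5, if_pos (h2 h5)]
      linarith
    · rw [if_neg h5]
      split_ifs <;> linarith
  -- grouping by the level
  have h2 : ∑ T ∈ (range l).filter (fun T => 2 ^ lvl2 p0 l T ∣ T + 1),
      ((if lvl2 p0 l T ≤ P then Bc t (lvl2 p0 l T) else 0) + Sc t (lvl2 p0 l T)) =
      ∑ p ∈ Ico p0 (p0 + l + 1), ∑ T ∈ ((range l).filter
        (fun T => 2 ^ lvl2 p0 l T ∣ T + 1)).filter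
        (fun T => lvl2 p0 l T = p), ((if lvl2 p0 l T ≤ P then Bc t (lvl2 p0 l T) else 0) +
          Sc t (lvl2 p0 l T)) := by
    rw [Finset.sum_fiberwise_of_maps_to]
    intro T _
    rw [Finset.mem_Ico]
    have h3 : lvl l T ≤ l := Nat.findGreatest_le l
    unfold lvl2
    omega
  have h3 : ∀ p ∈ Ico p0 (p0 + l + 1), ∑ T ∈ ((range l).filter
        (fun T => 2 ^ lvl2 p0 l T ∣ T + 1)).filter
        (fun T => lvl2 p0 l T = p), ((if lvl2 p0 l T ≤ P then Bc t (lvl2 p0 l T) else 0) +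
          Sc t (lvl2 p0 l T)) ≤ 4 * ((if p ≤ P then Bc t p else 0) + Sc t p) := by
    intro p _
    have e1 : ∀ T ∈ ((range l).filter (fun T => 2 ^ lvl2 p0 l T ∣ T + 1)).filter
        (fun T => lvl2 p0 l T = p), ((if lvl2 p0 l T ≤ P then Bc t (lvl2 p0 l T) else 0) +
          Sc t (lvl2 p0 l T)) = ((if p ≤ P then Bc t p else 0) + Sc t p) := by
      intro T hT
      rw [Finset.mem_filter] at hT
      rw [hT.2]
    rw [Finset.sum_congr rfl e1, Finset.sum_const, nsmul_eq_mul, Finset.filter_filter]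
    have e2 : (((range l).filter fun T => 2 ^ lvl2 p0 l T ∣ T + 1 ∧ lvl2 p0 l T = p).card : ℝ) ≤ 4 := by
      exact_mod_cast hc4 p
    have e3 : 0 ≤ (if p ≤ P then Bc t p else 0) + Sc t p := by
      have := Bc_nonneg ht p
      have := Sc_nonneg t p
      split_ifs <;> positivity
    exact mul_le_mul_of_nonneg_right e2 e3
  have h4 : paid2 t p0 Rel i 0 ≤ 4 * (∑ p ∈ Ico p0 (p0 + l + 1), (if p ≤ P then Bc t p else 0) +
      ∑ p ∈ Ico p0 (p0 + l + 1), Sc t p) := by
    refine h1.trans ?_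
    rw [h2, ← Finset.sum_add_distrib, Finset.mul_sum]
    exact Finset.sum_le_sum h3
  have h5 : ∑ p ∈ Ico p0 (p0 + l + 1), (if p ≤ P then Bc t p else 0) ≤ ∑ p ∈ Ico p0 (P + 1), Bc t p := by
    rw [← Finset.sum_filter]
    apply Finset.sum_le_sum_of_subset_of_nonneg
    · intro p hp
      rw [Finset.mem_filter, Finset.mem_Ico] at hp
      rw [Finset.mem_Ico]
      omega
    · intro p _ _
      exact Bc_nonneg ht p
  have h6 : ∑ p ∈ Ico p0 (p0 + l + 1), Sc t p ≤ 52000 / 3 * Real.sqrt t := by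
    calc ∑ p ∈ Ico p0 (p0 + l + 1), Sc t p ≤ ∑ p ∈ range (p0 + l + 1), Sc t p := by
          apply Finset.sum_le_sum_of_subset_of_nonneg
          · intro p hp
            rw [Finset.mem_Ico] at hp
            rw [Finset.mem_range]
            omega
          · intro p _ _
            exact Sc_nonneg t p
      _ = Real.sqrt t * ∑ p ∈ range (p0 + l + 1), bd p / 2 ^ p := by
          rw [Finset.mul_sum]
          exact Finset.sum_congr rfl fun p _ => Sc_eq t p
      _ ≤ Real.sqrt t * (20 / 3 * bd 0) :=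
          mul_le_mul_of_nonneg_left (sum_bd_div _) (Real.sqrt_nonneg t)
      _ = 52000 / 3 * Real.sqrt t := by rw [bd_zero]; ring
  have h7 : Bc t p0 ≤ 677780 * Real.sqrt t := by
    unfold Bc
    have e : hp p0 * lamt t ≤ 900 * Real.sqrt t := by
      rcases hfit.1 with h | h
      · have h8 := lamt_le ht
        have h9 : hp p0 = 100 := by
          rw [h]; unfold hp
          rw [pow_zero, Real.sqrt_one]; norm_num
        rw [h9]
        linarith
      · linarith
    nlinarith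
  have h8 : ∑ p ∈ Ico (p0 + 1) (P + 1), Bc t p ≤ if P = p0 then 0 else 2916 * (hp P * lamt t) := by
    by_cases hPp : P = p0
    · rw [if_pos hPp, hPp, Finset.Ico_self, Finset.sum_empty]
    · rw [if_neg hPp]
      calc ∑ p ∈ Ico (p0 + 1) (P + 1), Bc t p ≤ ∑ p ∈ Ico (p0 + 1) (P + 1), 833 * lamt t * hp p := by
            apply Finset.sum_le_sum
            intro p hp'
            rw [Finset.mem_Ico] at hp'
            unfold Bc
            have e1 : hp (p0 + 1) * lamt t ≤ hp p * lamt t :=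
              mul_le_mul_of_nonneg_right (hp_mono hp'.1) hL
            have e2 := hfit.2
            nlinarith
        _ ≤ ∑ p ∈ range (P + 1), 833 * lamt t * hp p := by
            apply Finset.sum_le_sum_of_subset_of_nonneg
            · intro p hp
              rw [Finset.mem_Ico] at hp
              rw [Finset.mem_range]
              omega
            · intro p _ _
              have := hp_pos p
              positivity
        _ = 833 * lamt t * ∑ p ∈ range (P + 1), hp p := by rw [Finset.mul_sum]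
        _ ≤ 833 * lamt t * (7 / 2 * hp P) :=
            mul_le_mul_of_nonneg_left (sum_hp P) (by positivity)
        _ ≤ 2916 * (hp P * lamt t) := by
            have : 0 ≤ hp P * lamt t := mul_nonneg (hp_pos P).le hL
            nlinarith
  have h9 : ∑ p ∈ Ico p0 (P + 1), Bc t p = Bc t p0 + ∑ p ∈ Ico (p0 + 1) (P + 1), Bc t p :=
    Finset.sum_eq_sum_Ico_succ_bot (by omega) _
  have h10 : 0 ≤ hp P * lamt t := mul_nonneg (hp_pos P).le hL
  by_cases hPp : P = p0
  · rw [if_pos hPp] at h8 ⊢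
    linarith
  · rw [if_neg hPp] at h8 ⊢
    linarith

end Pool.Agent.K1H52.Kom2
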