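import Pool.Agent.K1H52.Mom2

/-!
The modulus of continuity of the mean velocity along a path.
-/

set_option autoImplicit false
set_option linter.unusedVariables false

open MeasureTheory Set Metric Filter Topology
open scoped ContDiff ENNReal NNReal

namespace Pool.Agent.K1H52

open H459R3.NS W221.NS Pool.Agent.Y8

/-- The bound of the force in the moving frame. -/
noncomputable def Hf (n : ℕ) (E : ℝ) (u : ℝ → V → V) (X : ℝ → V) (τ : ℝ) : ℝ :=
  WW n (u τ) (X τ) / rr n + √(WW n (u τ) (X τ)) / rr n ^ 2 + 1 + E ^ 2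
    + ‖mo (rr n) (u τ) (X τ)‖ ^ 2

lemma Hf_nn (n : ℕ) (E : ℝ) (u : ℝ → V → V) (X : ℝ → V) (τ : ℝ) : 0 ≤ Hf n E u X τ := by
  have h1 := WW_nn n (u τ) (X τ)
  have h2 := rrp n
  unfold Hf
  positivity

lemma rr_le1 (n : ℕ) : rr n ≤ 1 := Pool.Agent.Y153.NS.rr_le n

section

variable {T E D : ℝ} {G : Set ℝ} {u : ℝ → V → V} {p : ℝ → V → ℝ}

lemma Hf_cont (h : Turb 1 T E D G u p) {X : ℝ → V} (hX : ContinuousOn X G) (n : ℕ) :
    ContinuousOn (Hf n E u X) G := by
  have h1 := WW_cont h hX n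
  have h2 := mo_cont h hX (rr n)
  unfold Hf
  exact ((((h1.div_const _).add ((Real.continuous_sqrt.comp_continuousOn h1).div_const _)).add
    continuousOn_const).add continuousOn_const).add (h2.norm.pow 2)

lemma Hf_int (h : Turb 1 T E D G u p) {n : ℕ} {B C : ℝ} {X Y : ℝ → V}
    (hP : FPath T (rr n) B C G u p X Y) : IntegrableOn (Hf n E u X) G := by
  have hX := hP.sm.continuousOn
  have hr := rrp n
  have h1 := WW_int h hX n
  have hb : IntegrableOn (fun τ => WW n (u τ) (X τ) / rr n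
      + (1 + WW n (u τ) (X τ)) / rr n ^ 2 + 1 + E ^ 2 + B ^ 2) G := by
    have hc : IntegrableOn (fun _ : ℝ => (1 : ℝ)) G := integrableOn_const h.volG
    have hc2 : IntegrableOn (fun _ : ℝ => E ^ 2) G := integrableOn_const h.volG
    have hc3 : IntegrableOn (fun _ : ℝ => B ^ 2) G := integrableOn_const h.volG
    exact ((((h1.div_const _).add ((hc.add h1).div_const _)).add hc).add hc2).add hc3
  refine Integrable.mono' hb ((Hf_cont h hX n).aestronglyMeasurable h.openG.measurableSet) ?_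
  filter_upwards [ae_restrict_mem h.openG.measurableSet] with τ hτ
  rw [Real.norm_eq_abs, abs_of_nonneg (Hf_nn _ _ _ _ _)]
  have h2 := WW_nn n (u τ) (X τ)
  have h3 : √(WW n (u τ) (X τ)) ≤ 1 + WW n (u τ) (X τ) := by
    rw [Real.sqrt_le_left (by positivity)]
    nlinarith
  have h4 : ‖mo (rr n) (u τ) (X τ)‖ ^ 2 ≤ B ^ 2 := by
    rw [← hP.ev τ hτ]
    exact pow_le_pow_left₀ (norm_nonneg _) (hP.bd τ (h.subG hτ)) 2
  unfold Hf
  gcongr

/-- The evolution of the mean velocity along a path. -/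
theorem MN_path : ∃ C₀ : ℝ, 0 < C₀ ∧ ∀ (T E D : ℝ) (G : Set ℝ) (u : ℝ → V → V)
    (p : ℝ → V → ℝ), Turb 1 T E D G u p → ∀ n : ℕ, 2 ≤ n → ∀ (X Y : ℝ → V) (B C : ℝ),
    0 ≤ B → 0 < T → FPath T (rr n) B C G u p X Y → ∃ M : ℝ → V, Continuous M ∧
      (∀ t ∈ G, M t = fun l => MN (rr n) (u t) (X t) l) ∧
      ∀ s ∈ Icc 0 T, ∀ t ∈ Icc 0 T, s ≤ t → ‖M t - M s‖ ≤ C₀ * ∫ τ in Ioo s t, Hf n E u X τ := by
  obtain ⟨C₀, hC₀, hbd⟩ := hbd
  refine ⟨C₀, hC₀, fun T E D G u p h n hn X Y B C hB hT0 hP => ?_⟩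
  have hr := rrp n
  have hr1 := rr_le1 n
  have hX := hP.sm.continuousOn
  have hHc := Hf_cont h hX n
  have hHi := Hf_int h hP
  have key : ∀ l, ∃ F : ℝ → ℝ, (∀ t ∈ G, F t = MN (rr n) (u t) (X t) l) ∧ Continuous F ∧
      ∀ s ∈ Icc 0 T, ∀ t ∈ Icc 0 T, s ≤ t → |F t - F s| ≤ C₀ * ∫ τ in Ioo s t, Hf n E u X τ := by
    intro l
    obtain ⟨K, hK, hmod⟩ := MN_modG h hr hr1 hB hP l
    obtain ⟨F, hF1, hF2, hF3⟩ := Pool.Agent.Y8.B.p_acx 0 T G
      (fun t => MN (rr n) (u t) (X t) l) (fun τ => K * K1 G u p τ) hT0.le h.subG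
      ((K1_int h).integrableOn.const_mul _) (fun t => mul_nonneg hK.le (K1_nn G u p t))
      (fun s hs t ht hst => by
        rw [integral_const_mul]
        exact hmod s hs t ht hst)
    refine ⟨F, hF1, hF2, fun s hs t ht hst => ?_⟩
    obtain ⟨f1, f2⟩ := ftc_mod (F := F) ((K1_int h).const_mul K) hst
      fun a ha b hb hab => hF3 a ⟨hs.1.trans ha.1, ha.2.trans ht.2⟩ b
        ⟨hs.1.trans hb.1, hb.2.trans ht.2⟩ hab
    have hae : ∀ᵐ τ ∂(volume.restrict (Ioo s t)), τ ∈ G := aeT h hs.1 ht.2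
    -- the derivative
    have hder : ∀ τ ∈ G, |deriv F τ| ≤ C₀ * Hf n E u X τ := by
      intro τ hτ
      obtain ⟨a, b, hab, hsub⟩ := nb h.openG hτ
      refine le_of_forall_pos_le_add fun ε hε => ?_
      have hHt : ContinuousAt (fun σ => C₀ * Hf n E u X σ) τ :=
        continuousAt_const.mul (hHc.continuousAt (h.openG.mem_nhds hτ))
      obtain ⟨δ, hδ, hH⟩ := Metric.continuousAt_iff.1 hHt ε hε
      have hst0 : 0 ≤ C₀ * Hf n E u X τ := mul_nonneg hC₀.le (Hf_nn _ _ _ _ _)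
      rw [← Real.norm_eq_abs]
      refine norm_deriv_le_of_lip' (by linarith) ?_
      have hev : ∀ᶠ x in 𝓝 τ, x ∈ Ioo a b ∩ ball τ δ :=
        (Filter.inter_mem (Ioo_mem_nhds hab.1 hab.2) (ball_mem_nhds τ hδ))
      filter_upwards [hev] with x hx
      have hloc : ∀ y ∈ Ioo a b ∩ ball τ δ, ∀ z ∈ Ioo a b ∩ ball τ δ, y ≤ z →
          |F z - F y| ≤ (C₀ * Hf n E u X τ + ε) * (z - y) := by
        intro y hy z hz hyz
        obtain ⟨g1, g2⟩ := MN_loc h hr hr1 hB hP l hsub hy.1 hz.1 hyz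
        rw [hF1 y (hsub hy.1), hF1 z (hsub hz.1), g2]
        have h3 : |∫ σ in Ioo y z, HH (rr n) (fun y => u σ y - mo (rr n) (u σ) (X σ)) (X σ) l|
            ≤ ∫ _ in Ioo y z, (C₀ * Hf n E u X τ + ε) := by
          refine abs_int_le (integrableOn_const (by simp)) ?_
          filter_upwards [ae_restrict_mem measurableSet_Ioo] with σ hσ
          have hσab : σ ∈ Ioo a b := ⟨hy.1.1.trans hσ.1, hσ.2.trans hz.1.2⟩
          have hσG := hsub hσab
          have hσδ : dist σ τ < δ := by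
            have h5 := hy.2
            have h6 := hz.2
            rw [mem_ball, Real.dist_eq, abs_lt] at h5 h6
            rw [Real.dist_eq, abs_lt]
            constructor <;> linarith [hσ.1, hσ.2, h5.1, h5.2, h6.1, h6.2]
          have h4 := hbd (u σ) (h.spv hσG) (h.divfree σ hσG) n hn (X σ) l
          have h5 := hH hσδ
          rw [Real.dist_eq, abs_lt] at h5
          have h6 := h.energy_le σ hσG
          refine h4.trans ?_
          have h7 : WW n (u σ) (X σ) / rr n + √(WW n (u σ) (X σ)) / rr n ^ 2 + 1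
              + energy (u σ) + ‖mo (rr n) (u σ) (X σ)‖ ^ 2 ≤ Hf n E u X σ := by
            unfold Hf
            linarith
          have h8 := mul_le_mul_of_nonneg_left h7 hC₀.le
          linarith [h5.2]
        refine h3.trans (le_of_eq ?_)
        rw [setIntegral_const, smul_eq_mul]
        simp [Measure.real, Real.volume_Ioo, ENNReal.toReal_ofReal (sub_nonneg.2 hyz)]
        ring
      have hτm : τ ∈ Ioo a b ∩ ball τ δ := ⟨hab, mem_ball_self hδ⟩
      rw [Real.norm_eq_abs, Real.norm_eq_abs]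
      rcases le_total τ x with hle | hle
      · rw [abs_of_nonneg (by linarith : 0 ≤ x - τ)]
        exact hloc τ hτm x hx hle
      · rw [abs_sub_comm, abs_of_nonpos (by linarith : x - τ ≤ 0), neg_sub]
        exact hloc x hx τ hτm hle
    rw [f2, ← integral_const_mul]
    have hHi2 : IntegrableOn (fun τ => C₀ * Hf n E u X τ) G := hHi.const_mul C₀
    have hHi' : IntegrableOn (fun τ => C₀ * Hf n E u X τ) (Ioo s t) :=
      hHi2.mono_set_ae (Pool.Agent.Y458.NS.sub_ae h (Ioo_subset_Ioo hs.1 ht.2))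
    refine abs_int_le hHi' ?_
    filter_upwards [hae] with τ hτ
    exact hder τ hτ
  choose F hF1 hF2 hF3 using key
  refine ⟨fun t l => F l t, continuous_pi fun l => hF2 l, fun t ht => ?_, fun s hs t ht hst => ?_⟩
  · funext l
    exact hF1 l t ht
  · have h0 : 0 ≤ ∫ τ in Ioo s t, Hf n E u X τ := integral_nonneg fun τ => Hf_nn _ _ _ _ _
    rw [pi_norm_le_iff_of_nonneg (by positivity)]
    intro l
    exact hF3 l s hs t ht hst

end

end Pool.Agent.K1H52
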