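import Pool.Agent.K1H52.Sts
import Pool.Agent.K1H52.Mom3

/-!
Parabolic dyadic cells.
-/

set_option autoImplicit false
set_option linter.unusedVariables false

open MeasureTheory Set Metric Filter Topology
open scoped ContDiff ENNReal NNReal

namespace Pool.Agent.K1H52

open H459R3.NS W221.NS Pool.Agent.Y8

/-- The label of the parabolic dyadic cell of the generation `j` which contains `z`. -/
noncomputable def cl (j : ℕ) (z : ℝ × V) : ℤ × (Fin 3 → ℤ) :=
  (⌊4 ^ j * z.1⌋, fun i => ⌊2 ^ j * z.2 i⌋)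

lemma floor_nest (k : ℕ) (hk : 0 < k) {x y : ℝ} (h : ⌊(k : ℝ) * x⌋ = ⌊(k : ℝ) * y⌋) :
    ⌊x⌋ = ⌊y⌋ := by
  have hk' : (0 : ℝ) < k := by exact_mod_cast hk
  symm
  rw [Int.floor_eq_iff]
  have h1 := Int.floor_le x
  have h2 := Int.lt_floor_add_one x
  have h3 : (k : ℤ) * ⌊x⌋ ≤ ⌊(k : ℝ) * x⌋ := by
    rw [Int.le_floor]
    push_cast
    exact mul_le_mul_of_nonneg_left h1 hk'.le
  have h4 : ⌊(k : ℝ) * x⌋ + 1 ≤ (k : ℤ) * (⌊x⌋ + 1) := by
    have : ⌊(k : ℝ) * x⌋ < (k : ℤ) * (⌊x⌋ + 1) := by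
      rw [Int.floor_lt]
      push_cast
      exact mul_lt_mul_of_pos_left h2 hk'
    omega
  rw [h] at h3 h4
  have h5 := Int.floor_le ((k : ℝ) * y)
  have h6 := Int.lt_floor_add_one ((k : ℝ) * y)
  have h7 : ((k : ℤ) * ⌊x⌋ : ℝ) ≤ (⌊(k : ℝ) * y⌋ : ℝ) := by exact_mod_cast h3
  have h8 : (⌊(k : ℝ) * y⌋ : ℝ) + 1 ≤ (k : ℤ) * (⌊x⌋ + 1) := by exact_mod_cast h4
  push_cast at h7 h8
  constructor
  · have : (k : ℝ) * (⌊x⌋ : ℝ) ≤ k * y := by linarith
    exact le_of_mul_le_mul_left this hk'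
  · have : (k : ℝ) * y < k * ((⌊x⌋ : ℝ) + 1) := by linarith
    exact lt_of_mul_lt_mul_left this hk'.le

lemma cl_nest (j : ℕ) (z z' : ℝ × V) (h : cl (j + 1) z = cl (j + 1) z') : cl j z = cl j z' := by
  unfold cl at h ⊢
  rw [Prod.mk.injEq] at h ⊢
  refine ⟨?_, ?_⟩
  · apply floor_nest 4 (by norm_num)
    have e : ∀ t : ℝ, ((4 : ℕ) : ℝ) * (4 ^ j * t) = 4 ^ (j + 1) * t := by
      intro t
      rw [pow_succ]
      push_cast
      ring
    rw [e, e]
    exact h.1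
  · funext i
    apply floor_nest 2 (by norm_num)
    have e : ∀ t : ℝ, ((2 : ℕ) : ℝ) * (2 ^ j * t) = 2 ^ (j + 1) * t := by
      intro t
      rw [pow_succ]
      push_cast
      ring
    rw [e, e]
    exact congrFun h.2 i

lemma cl_nest' {j N : ℕ} (hjN : j ≤ N) {z z' : ℝ × V} (h : cl N z = cl N z') :
    cl j z = cl j z' := by
  induction N with
  | zero =>
    have : j = 0 := by omega
    rw [this]
    exact h
  | succ N ih =>
    rcases Nat.lt_or_ge j (N + 1) with h1 | h1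
    · exact ih (by omega) (cl_nest N z z' h)
    · have : j = N + 1 := by omega
      rw [this]
      exact h

lemma two_rr (j : ℕ) : (2 : ℝ) ^ j * rr j = 1 := by
  unfold rr
  rw [← mul_pow]
  norm_num

lemma four_rr (j : ℕ) : (4 : ℝ) ^ j * rr j ^ 2 = 1 := by
  have h := two_rr j
  have e : (4 : ℝ) ^ j = (2 ^ j) ^ 2 := by
    rw [← pow_mul, mul_comm j 2, pow_mul]
    norm_num
  rw [e, ← mul_pow, h, one_pow]

lemma cl_close {j : ℕ} {z z' : ℝ × V} (h : cl j z = cl j z') :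
    |z.1 - z'.1| < rr j ^ 2 ∧ ‖z.2 - z'.2‖ < rr j := by
  have hr := rrp j
  unfold cl at h
  rw [Prod.mk.injEq] at h
  constructor
  · have h1 := Int.abs_sub_lt_one_of_floor_eq_floor h.1
    rw [← mul_sub, abs_mul, abs_of_pos (by positivity : (0 : ℝ) < 4 ^ j)] at h1
    have h2 := four_rr j
    have h3 : (4 : ℝ) ^ j * |z.1 - z'.1| < 4 ^ j * rr j ^ 2 := by rw [h2]; exact h1
    exact lt_of_mul_lt_mul_left h3 (by positivity)
  · rw [pi_norm_lt_iff hr]
    intro i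
    have h1 := Int.abs_sub_lt_one_of_floor_eq_floor (congrFun h.2 i)
    rw [← mul_sub, abs_mul, abs_of_pos (by positivity : (0 : ℝ) < 2 ^ j)] at h1
    have h2 := two_rr j
    have h3 : (2 : ℝ) ^ j * |z.2 i - z'.2 i| < 2 ^ j * rr j := by rw [h2]; exact h1
    have h4 := lt_of_mul_lt_mul_left h3 (by positivity)
    rw [Real.norm_eq_abs, Pi.sub_apply]
    exact h4

lemma floor_near {x y : ℝ} (h : |x - y| < 1) : ⌊x⌋ ∈ Finset.Icc (⌊y⌋ - 1) (⌊y⌋ + 1) := by
  rw [abs_lt] at h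
  rw [Finset.mem_Icc]
  constructor
  · rw [Int.le_floor]
    push_cast
    have := Int.floor_le y
    linarith
  · have : ⌊x⌋ < ⌊y⌋ + 2 := by
      rw [Int.floor_lt]
      push_cast
      have := Int.lt_floor_add_one y
      linarith
    omega

/-- The labels of the cells near a point. -/
noncomputable def nbr (k : ℕ) (s : ℝ) (y : V) : Finset (ℤ × (Fin 3 → ℤ)) :=
  Finset.Icc (⌊4 ^ k * s⌋ - 1) (⌊4 ^ k * s⌋ + 1) ×ˢ
    Fintype.piFinset fun i => Finset.Icc (⌊2 ^ k * y i⌋ - 1) (⌊2 ^ k * y i⌋ + 1)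

lemma nbr_card (k : ℕ) (s : ℝ) (y : V) : (nbr k s y).card = 81 := by
  unfold nbr
  rw [Finset.card_product, Fintype.card_piFinset, Int.card_Icc, Fin.prod_univ_three]
  simp only [Int.card_Icc]
  have e : ∀ m : ℤ, (m + 1 + 1 - (m - 1)).toNat = 3 := by
    intro m
    omega
  rw [e, e, e, e]
  norm_num

lemma nbr_mem {k : ℕ} {s : ℝ} {y : V} {z : ℝ × V} (h1 : |z.1 - s| < rr k ^ 2)
    (h2 : ‖z.2 - y‖ < rr k) : cl k z ∈ nbr k s y := by
  have hr := rrp k
  unfold cl nbr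
  rw [Finset.mem_product, Fintype.mem_piFinset]
  refine ⟨floor_near ?_, fun i => floor_near ?_⟩
  · rw [← mul_sub, abs_mul, abs_of_pos (by positivity : (0 : ℝ) < 4 ^ k), ← four_rr k]
    exact mul_lt_mul_of_pos_left h1 (by positivity)
  · rw [← mul_sub, abs_mul, abs_of_pos (by positivity : (0 : ℝ) < 2 ^ k), ← two_rr k]
    rw [pi_norm_lt_iff hr] at h2
    have h3 := h2 i
    rw [Real.norm_eq_abs, Pi.sub_apply] at h3
    exact mul_lt_mul_of_pos_left h3 (by positivity)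

/-- The Frostman condition for parabolic cylinders of all radii. -/
theorem frost {Z : Finset (ℝ × V)} {m : ℝ × V → ℝ} {ℓ : ℕ → ℝ} {n₀ N : ℕ}
    (hm : ∀ z ∈ Z, 0 ≤ m z) (hℓ : ∀ n, 0 < ℓ n) (hmono : Monotone ℓ)
    (hcell : ∀ j, n₀ ≤ j → j ≤ N → ∀ q, ∑ z ∈ Z with cl j z = q, m z ≤ rr j * ℓ j)
    (htot : ∑ z ∈ Z, m z ≤ rr n₀ * ℓ n₀) :
    ∀ n, n₀ ≤ n → n ≤ N → ∀ (R s : ℝ) (y : V), rr n ≤ R →
      ∑ z ∈ Z with |z.1 - s| < R ^ 2 ∧ ‖z.2 - y‖ < R, m z ≤ 162 * R * ℓ n := by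
  classical
  intro n hn0 hnN R s y hR
  have hr := rrp n
  have hR0 : 0 < R := hr.trans_le hR
  obtain ⟨B, hB⟩ : ∃ B : Finset (ℝ × V), B = Z.filter fun z => |z.1 - s| < R ^ 2 ∧
    ‖z.2 - y‖ < R := ⟨_, rfl⟩
  rw [← hB]
  have hBZ : B ⊆ Z := by rw [hB]; exact Finset.filter_subset _ _
  rcases le_or_gt (rr n₀) R with h1 | h1
  · calc ∑ z ∈ B, m z ≤ ∑ z ∈ Z, m z :=
          Finset.sum_le_sum_of_subset_of_nonneg hBZ fun z hz _ => hm z hz
      _ ≤ rr n₀ * ℓ n₀ := htot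
      _ ≤ R * ℓ n := mul_le_mul h1 (hmono hn0) (hℓ n₀).le hR0.le
      _ ≤ 162 * R * ℓ n := by nlinarith [mul_pos hR0 (hℓ n)]
  · have hR1 : R ≤ 1 := h1.le.trans (rr_le1 n₀)
    obtain ⟨k, hk1, hk2⟩ := exists_nat_pow_near_of_lt_one hR0 hR1 (y := 1 / 2) (by norm_num)
      (by norm_num)
    have hk1' : rr (k + 1) < R := hk1
    have hk2' : R ≤ rr k := hk2
    have hanti : ∀ i j : ℕ, rr i ≤ rr j → j ≤ i := by
      intro i j hij
      by_contra hc
      push Not at hc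
      have : rr j < rr i := pow_lt_pow_right_of_lt_one₀ (by norm_num) (by norm_num) hc
      linarith
    have hkn : k ≤ n := hanti n k (hR.trans hk2')
    have hk0 : n₀ ≤ k := by
      have : n₀ ≤ k + 1 := hanti (k + 1) n₀ (hk1'.trans h1).le
      rcases Nat.lt_or_ge k n₀ with h2 | h2
      · have h3 : k + 1 = n₀ := by omega
        rw [h3] at hk1'
        linarith
      · exact h2
    have hrk := rrp k
    have hmap : ∀ z ∈ B, cl k z ∈ nbr k s y := by
      intro z hz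
      rw [hB, Finset.mem_filter] at hz
      refine nbr_mem (hz.2.1.trans_le ?_) (hz.2.2.trans_le hk2')
      exact pow_le_pow_left₀ hR0.le hk2' 2
    calc ∑ z ∈ B, m z = ∑ q ∈ nbr k s y, ∑ z ∈ B with cl k z = q, m z :=
          (Finset.sum_fiberwise_of_maps_to hmap _).symm
      _ ≤ ∑ q ∈ nbr k s y, rr k * ℓ k := by
          refine Finset.sum_le_sum fun q _ => ?_
          refine le_trans ?_ (hcell k hk0 (hkn.trans hnN) q)
          refine Finset.sum_le_sum_of_subset_of_nonneg (Finset.filter_subset_filter _ hBZ)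
            fun z hz _ => hm z (Finset.mem_filter.1 hz).1
      _ = 81 * (rr k * ℓ k) := by
          rw [Finset.sum_const, nbr_card, nsmul_eq_mul]
          norm_num
      _ ≤ 81 * ((2 * R) * ℓ n) := by
          have h4 : rr k ≤ 2 * R := by
            have : rr (k + 1) = rr k * (1 / 2) := by
              unfold rr
              rw [pow_succ]
            linarith
          have h5 := mul_le_mul h4 (hmono hkn) (hℓ k).le (by positivity)
          linarith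
      _ = _ := by ring

/-- Representatives of the cells. -/
theorem reps {S : Set (ℝ × V)} {a b : ℝ} (hS : ∀ z ∈ S, z.1 ∈ Icc a b ∧ z.2 ∈ cube) (N : ℕ) :
    ∃ Z : Finset (ℝ × V), (∀ z ∈ Z, z ∈ S) ∧ ∀ z ∈ S, ∃ z' ∈ Z, cl N z = cl N z' := by
  classical
  have hfin : (cl N '' S).Finite := by
    refine (Finset.finite_toSet (Finset.Icc ⌊4 ^ N * a⌋ ⌊4 ^ N * b⌋ ×ˢ
      Fintype.piFinset fun _ : Fin 3 => Finset.Icc (0 : ℤ) (2 ^ N))).subset ?_
    rintro q ⟨z, hz, rfl⟩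
    obtain ⟨h1, h2⟩ := hS z hz
    rw [Finset.mem_coe, Finset.mem_product, Fintype.mem_piFinset]
    refine ⟨?_, fun i => ?_⟩
    · rw [Finset.mem_Icc]
      refine ⟨Int.floor_le_floor ?_, Int.floor_le_floor ?_⟩
      · exact mul_le_mul_of_nonneg_left h1.1 (by positivity)
      · exact mul_le_mul_of_nonneg_left h1.2 (by positivity)
    · have h3 : 0 ≤ z.2 i := h2.1 i
      have h4 : z.2 i ≤ 1 := h2.2 i
      rw [Finset.mem_Icc]
      constructor
      · show 0 ≤ ⌊(2 : ℝ) ^ N * z.2 i⌋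
        exact Int.floor_nonneg.2 (by positivity)
      · show ⌊(2 : ℝ) ^ N * z.2 i⌋ ≤ 2 ^ N
        have h5 : (2 : ℝ) ^ N * z.2 i ≤ ((2 ^ N : ℤ) : ℝ) := by
          push_cast
          exact mul_le_of_le_one_right (by positivity) h4
        have h6 := Int.floor_le_floor h5
        rwa [Int.floor_intCast] at h6
  have h1 : SurjOn (cl N) S (cl N '' S) := surjOn_image _ _
  obtain ⟨S', hS', hbij⟩ := h1.exists_bijOn_subset
  have hf' : S'.Finite := (hbij.finite_iff_finite).2 hfin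
  refine ⟨hf'.toFinset, fun z hz => hS' (hf'.mem_toFinset.1 hz), fun z hz => ?_⟩
  obtain ⟨z', hz', he⟩ := hbij.surjOn (mem_image_of_mem (cl N) hz)
  exact ⟨z', hf'.mem_toFinset.2 hz', he.symm⟩

end Pool.Agent.K1H52
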