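import Pool.Agent.K1H52.Pers
import Pool.Agent.Y458.NS.AL2

/-!
Paths of the mollified velocities at different scales stay close.
-/

set_option autoImplicit false
set_option linter.unusedVariables false

open MeasureTheory Set Metric Filter Topology
open scoped ContDiff ENNReal NNReal

namespace Pool.Agent.K1H52

open H459R3.NS W221.NS Pool.Agent.Y8

/-- The scaled dissipation at the scale `2 ^ k * rr n` along a path in a window at scale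
`rr n`. -/
noncomputable def QQ (n k : ℕ) (u : ℝ → V → V) (X : ℝ → V) (t₀ : ℝ) : ℝ :=
  ∫ τ in II n t₀, (2 ^ k * rr n) ^ 2 * aa (u τ) (X τ) (8 * (2 ^ k * rr n))

lemma QQ_nn (n k : ℕ) (u : ℝ → V → V) (X : ℝ → V) (t₀ : ℝ) : 0 ≤ QQ n k u X t₀ :=
  integral_nonneg fun τ => mul_nonneg (sq_nonneg _) (aa_nn _ _ _)

section

variable {T E D : ℝ} {G : Set ℝ} {u : ℝ → V → V} {p : ℝ → V → ℝ}

lemma int_G (h : Turb 1 T E D G u p) {F : ℝ → ℝ} (hF : IntegrableOn F G) {a b : ℝ} (ha : 0 ≤ a)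
    (hb : b ≤ T) : IntegrableOn F (Ioo a b) := by
  have h1 : Ioo a b ⊆ G ∪ (Ioo 0 T \ G) := by
    intro t ht
    by_cases hG : t ∈ G
    · exact Or.inl hG
    · exact Or.inr ⟨⟨ha.trans_lt ht.1, ht.2.trans_le hb⟩, hG⟩
  refine (hF.union ?_).mono_set h1
  unfold IntegrableOn
  rw [Measure.restrict_eq_zero.2 h.fullG]
  exact integrable_zero_measure

/-- Two paths with close velocities as long as the paths are close. -/
theorem close_gen (h : Turb 1 T E D G u p) {r B C r' B' C' : ℝ} {X Y X' Y' : ℝ → V}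
    (hP : FPath T r B C G u p X Y) (hP' : FPath T r' B' C' G u p X' Y') {t₀ L : ℝ}
    (h0 : X t₀ = X' t₀) (hL : 0 < L) (hl : 0 < t₀ - L) (hr : t₀ + L < T) {N : ℝ → ℝ}
    (hN : ∀ τ, 0 ≤ N τ) (hNi : IntegrableOn N (Ioo (t₀ - L) (t₀ + L))) {ρ : ℝ}
    (hv : ∀ τ ∈ G, ‖X τ - X' τ‖ ≤ ρ → ‖Y τ - Y' τ‖ ≤ N τ)
    (hlt : ∫ τ in Ioo (t₀ - L) (t₀ + L), N τ < ρ) :
    ∀ τ, |τ - t₀| ≤ L → ‖X τ - X' τ‖ ≤ ∫ τ in Ioo (t₀ - L) (t₀ + L), N τ := by
  intro t ht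
  by_contra hcon
  rw [not_le] at hcon
  obtain ⟨I, hI⟩ : ∃ I, I = ∫ τ in Ioo (t₀ - L) (t₀ + L), N τ := ⟨_, rfl⟩
  rw [← hI] at hlt hcon
  have hI0 : 0 ≤ I := by rw [hI]; exact integral_nonneg hN
  obtain ⟨R, hR1, hR2⟩ : ∃ R, I < R ∧ R < min ρ ‖X t - X' t‖ :=
    exists_between (lt_min hlt hcon)
  have hR3 := hR2.trans_le (min_le_left _ _)
  have hR4 := hR2.trans_le (min_le_right _ _)
  have hI1 : uIcc t₀ t ⊆ Icc (t₀ - L) (t₀ + L) := by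
    intro s hs
    rw [abs_le] at ht
    rw [mem_uIcc] at hs
    rcases hs with hs | hs <;> constructor <;> linarith [hs.1, hs.2, ht.1, ht.2]
  have hI2 : uIcc t₀ t ⊆ Ioo 0 T := fun s hs =>
    ⟨hl.trans_le (hI1 hs).1, (hI1 hs).2.trans_lt hr⟩
  have hI3 : uIoc t₀ t ⊆ Ioo 0 T := fun s hs => hI2 (uIoc_subset_uIcc hs)
  have hI4 : uIoc t₀ t ⊆ Ioc (t₀ - L) (t₀ + L) := by
    intro s hs
    rw [abs_le] at ht
    rw [mem_uIoc] at hs
    rcases hs with hs | hs <;> constructor <;> linarith [hs.1, hs.2, ht.1, ht.2]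
  have hNc : IntegrableOn N (Ioc (t₀ - L) (t₀ + L)) :=
    (integrableOn_Ioc_iff_integrableOn_Ioo (by finiteness)).2 hNi
  have key := Pool.Agent.Y458.NS.first_time (X := fun τ => X τ - X' τ) (Y := fun τ => Y τ - Y' τ)
    (N := N) (G := G) (t₀ := t₀) (t := t) (r := R) (a := 0) (b := 1) (L := L)
    (hI0.trans_lt hR1) le_rfl zero_le_one
    (fun τ hτ => (hP.hd τ (hI2 hτ)).sub (hP'.hd τ (hI2 hτ))) ?_ ht ?_ ?_ (hNc.mono_set hI4) hN ?_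
  · have h1 : ∫ τ in uIoc t₀ t, N τ ≤ I := by
      rw [hI, ← integral_Ioc_eq_integral_Ioo]
      exact setIntegral_mono_set hNc (Eventually.of_forall hN) hI4.eventuallyLE
    linarith
  · rw [intervalIntegrable_iff]
    exact ((Pool.Agent.Y458.NS.FPath_Y_int h hP).mono_set hI3).sub
      ((Pool.Agent.Y458.NS.FPath_Y_int h hP').mono_set hI3)
  · show R < ‖X t - X' t - (X t₀ - X' t₀)‖
    rw [h0, sub_self, sub_zero]
    exact hR4
  · exact ae_mono (Measure.restrict_mono hI3 le_rfl) (aeT h le_rfl le_rfl)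
  · intro τ hτ _ hle
    have hle' : ‖X τ - X' τ‖ ≤ R := by
      have e : X τ - X' τ - (X t₀ - X' t₀) = X τ - X' τ := by rw [h0, sub_self, sub_zero]
      rwa [e] at hle
    have := hv τ hτ (hle'.trans hR3.le)
    simpa using this

end

/-- The path at the scale `2 ^ f * rr n = rr (n - f)` stays close to the one at the scale
`rr n`. -/
theorem close_up : ∃ C : ℝ, 0 < C ∧ ∀ (T E D : ℝ) (G : Set ℝ) (u : ℝ → V → V)
    (p : ℝ → V → ℝ), Turb 1 T E D G u p → ∀ (n f : ℕ) (X Y X' Y' : ℝ → V) (B C₁ B' C₁' : ℝ),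
    FPath T (rr n) B C₁ G u p X Y → FPath T (2 ^ f * rr n) B' C₁' G u p X' Y' →
    ∀ t₀ : ℝ, X t₀ = X' t₀ → 0 < t₀ - rr n ^ 2 → t₀ + rr n ^ 2 < T →
    C * ∑ j ∈ Finset.range (f + 1), √(QQ n j u X t₀) < 2 ^ f →
    ∀ τ, |τ - t₀| ≤ rr n ^ 2 →
      ‖X τ - X' τ‖ ≤ C * rr n * ∑ j ∈ Finset.range (f + 1), √(QQ n j u X t₀) := by
  obtain ⟨C₂, hC₂, hmt⟩ := mo_tel
  obtain ⟨C₃, hC₃, hmd⟩ := modiff
  refine ⟨2 * (C₂ + C₃), by positivity, ?_⟩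
  intro T E D G u p h n f X Y X' Y' B C₁ B' C₁' hP hP' t₀ h0 ht1 ht2 hS τ hτ
  have hr := rrp n
  obtain ⟨r, hrd⟩ : ∃ r, r = rr n := ⟨_, rfl⟩
  obtain ⟨S, hSd⟩ : ∃ S, S = ∑ j ∈ Finset.range (f + 1), √(QQ n j u X t₀) := ⟨_, rfl⟩
  rw [← hSd] at hS ⊢
  have hX : ContinuousOn X G := hP.sm.continuousOn
  obtain ⟨g, hg⟩ : ∃ g : ℕ → ℝ → ℝ, g = fun j τ =>
    (2 ^ j * rr n) ^ 2 * aa (u τ) (X τ) (8 * (2 ^ j * rr n)) := ⟨_, rfl⟩
  have hg0 : ∀ j τ, 0 ≤ g j τ := fun j τ => by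
    rw [hg]; exact mul_nonneg (sq_nonneg _) (aa_nn _ _ _)
  have hgi : ∀ j, IntegrableOn (g j) (Ioo (t₀ - rr n ^ 2) (t₀ + rr n ^ 2)) := by
    intro j
    rw [hg]
    exact int_G h ((aa_int h hX (by positivity)).const_mul _) ht1.le ht2.le
  obtain ⟨N, hNd⟩ : ∃ N : ℝ → ℝ, N = fun τ => (C₂ + C₃) * ∑ j ∈ Finset.range (f + 1),
    √(g j τ) := ⟨_, rfl⟩
  have hN0 : ∀ τ, 0 ≤ N τ := fun τ => by
    rw [hNd]
    exact mul_nonneg (by positivity) (Finset.sum_nonneg fun j _ => Real.sqrt_nonneg _)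
  have hsi : ∀ j, IntegrableOn (fun τ => √(g j τ)) (Ioo (t₀ - rr n ^ 2) (t₀ + rr n ^ 2)) :=
    fun j => sqrt_meas (hgi j) (hg0 j)
  have hNi : IntegrableOn N (Ioo (t₀ - rr n ^ 2) (t₀ + rr n ^ 2)) := by
    rw [hNd]
    exact (integrable_finsetSum _ fun j _ => hsi j).const_mul _
  have hIN : ∫ τ in Ioo (t₀ - rr n ^ 2) (t₀ + rr n ^ 2), N τ ≤ 2 * (C₂ + C₃) * rr n * S := by
    rw [hNd, integral_const_mul, integral_finsetSum _ fun j _ => hsi j, hSd]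
    rw [show 2 * (C₂ + C₃) * rr n * ∑ j ∈ Finset.range (f + 1), √(QQ n j u X t₀)
      = (C₂ + C₃) * ∑ j ∈ Finset.range (f + 1), (2 * rr n) * √(QQ n j u X t₀) by
        rw [← Finset.mul_sum]; ring]
    refine mul_le_mul_of_nonneg_left (Finset.sum_le_sum fun j _ => ?_) (by positivity)
    refine (int_sqrt_le (by nlinarith) (hgi j) (hg0 j)).trans ?_
    have e1 : ∫ τ in Ioo (t₀ - rr n ^ 2) (t₀ + rr n ^ 2), g j τ = QQ n j u X t₀ := by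
      rw [hg]; rfl
    rw [e1]
    have hQ := QQ_nn n j u X t₀
    rw [← Real.sqrt_sq (show 0 ≤ 2 * rr n by positivity), ← Real.sqrt_mul (sq_nonneg _)]
    apply Real.sqrt_le_sqrt
    nlinarith [mul_nonneg (sq_nonneg (rr n)) hQ]
  have hlt : ∫ τ in Ioo (t₀ - rr n ^ 2) (t₀ + rr n ^ 2), N τ < 2 ^ f * rr n := by
    refine hIN.trans_lt ?_
    calc 2 * (C₂ + C₃) * rr n * S = (2 * (C₂ + C₃) * S) * rr n := by ring
      _ < _ := mul_lt_mul_of_pos_right hS hr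
  refine (close_gen h hP hP' h0 (by positivity) ht1 ht2 hN0 hNi (ρ := 2 ^ f * rr n) ?_ hlt
    τ hτ).trans hIN
  intro s hs hle
  rw [hP.ev s hs, hP'.ev s hs]
  have hus : ContDiff ℝ ∞ (u s) := (h.spv hs).1
  have h1 := hmt (u s) hus (X s) (rr n) hr f
  have h2 := hmd (u s) hus (X s) (X' s) (2 ^ f * rr n) 1 (by positivity) (by norm_num) le_rfl
    (by rw [norm_sub_rev]; exact hle)
  rw [mul_one] at h2
  have e2 : ∀ j : ℕ, 2 ^ j * rr n * √(aa (u s) (X s) (8 * (2 ^ j * rr n))) = √(g j s) := by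
    intro j
    rw [hg]
    simp only
    rw [Real.sqrt_mul (sq_nonneg _), Real.sqrt_sq (by positivity)]
  simp only [e2] at h1 h2
  have h3 : √(g f s) ≤ ∑ j ∈ Finset.range (f + 1), √(g j s) :=
    Finset.single_le_sum (f := fun j => √(g j s)) (fun j _ => Real.sqrt_nonneg _)
      (Finset.mem_range.2 (Nat.lt_succ_self f))
  have h4 : ‖mo (rr n) (u s) (X s) - mo (2 ^ f * rr n) (u s) (X' s)‖
      ≤ ‖mo (2 ^ f * rr n) (u s) (X s) - mo (rr n) (u s) (X s)‖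
        + ‖mo (2 ^ f * rr n) (u s) (X' s) - mo (2 ^ f * rr n) (u s) (X s)‖ := by
    rw [norm_sub_rev]
    have e : mo (2 ^ f * rr n) (u s) (X' s) - mo (rr n) (u s) (X s)
      = (mo (2 ^ f * rr n) (u s) (X s) - mo (rr n) (u s) (X s))
        + (mo (2 ^ f * rr n) (u s) (X' s) - mo (2 ^ f * rr n) (u s) (X s)) := by abel
    rw [e]
    exact norm_add_le _ _
  rw [hNd]
  simp only
  have h5 := mul_le_mul_of_nonneg_left h3 hC₃.le
  linarith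

/-- The path at the scale `rr n / 16` stays close to the one at the scale `rr n`. -/
theorem close_down : ∃ C : ℝ, 0 < C ∧ ∀ (T E D : ℝ) (G : Set ℝ) (u : ℝ → V → V)
    (p : ℝ → V → ℝ), Turb 1 T E D G u p → ∀ (n : ℕ) (X Y X' Y' : ℝ → V) (B C₁ B' C₁' : ℝ),
    FPath T (rr n) B C₁ G u p X Y → FPath T (rr n * (1 / 16)) B' C₁' G u p X' Y' →
    ∀ t₀ : ℝ, X t₀ = X' t₀ → 0 < t₀ - rr n ^ 2 → t₀ + rr n ^ 2 < T →
    C * √(QQ n 0 u X t₀) < 1 →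
    ∀ τ, |τ - t₀| ≤ rr n ^ 2 → ‖X τ - X' τ‖ ≤ C * rr n * √(QQ n 0 u X t₀) := by
  obtain ⟨C₃, hC₃, hmd⟩ := modiff
  refine ⟨2 * C₃, by positivity, ?_⟩
  intro T E D G u p h n X Y X' Y' B C₁ B' C₁' hP hP' t₀ h0 ht1 ht2 hS τ hτ
  have hr := rrp n
  obtain ⟨S, hSd⟩ : ∃ S, S = √(QQ n 0 u X t₀) := ⟨_, rfl⟩
  rw [← hSd] at hS ⊢
  have hX : ContinuousOn X G := hP.sm.continuousOn
  obtain ⟨g, hg⟩ : ∃ g : ℝ → ℝ, g = fun τ =>
    (2 ^ 0 * rr n) ^ 2 * aa (u τ) (X τ) (8 * (2 ^ 0 * rr n)) := ⟨_, rfl⟩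
  have hg0 : ∀ τ, 0 ≤ g τ := fun τ => by
    rw [hg]; exact mul_nonneg (sq_nonneg _) (aa_nn _ _ _)
  have hgi : IntegrableOn g (Ioo (t₀ - rr n ^ 2) (t₀ + rr n ^ 2)) := by
    rw [hg]
    exact int_G h ((aa_int h hX (by positivity)).const_mul _) ht1.le ht2.le
  have hsi : IntegrableOn (fun τ => √(g τ)) (Ioo (t₀ - rr n ^ 2) (t₀ + rr n ^ 2)) :=
    sqrt_meas hgi hg0
  have hIN : ∫ τ in Ioo (t₀ - rr n ^ 2) (t₀ + rr n ^ 2), C₃ * √(g τ) ≤ 2 * C₃ * rr n * S := by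
    rw [integral_const_mul, hSd,
      show 2 * C₃ * rr n * √(QQ n 0 u X t₀) = C₃ * ((2 * rr n) * √(QQ n 0 u X t₀)) by ring]
    refine mul_le_mul_of_nonneg_left ?_ (by positivity)
    refine (int_sqrt_le (by nlinarith) hgi hg0).trans ?_
    have e1 : ∫ τ in Ioo (t₀ - rr n ^ 2) (t₀ + rr n ^ 2), g τ = QQ n 0 u X t₀ := by
      rw [hg]; rfl
    rw [e1]
    have hQ := QQ_nn n 0 u X t₀
    rw [← Real.sqrt_sq (show 0 ≤ 2 * rr n by positivity), ← Real.sqrt_mul (sq_nonneg _)]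
    apply Real.sqrt_le_sqrt
    nlinarith [mul_nonneg (sq_nonneg (rr n)) hQ]
  have hlt : ∫ τ in Ioo (t₀ - rr n ^ 2) (t₀ + rr n ^ 2), C₃ * √(g τ) < rr n := by
    refine hIN.trans_lt ?_
    calc 2 * C₃ * rr n * S = (2 * C₃ * S) * rr n := by ring
      _ < 1 * rr n := mul_lt_mul_of_pos_right hS hr
      _ = _ := one_mul _
  refine (close_gen h hP hP' h0 (by positivity) ht1 ht2 (fun τ => by positivity)
    (hsi.const_mul C₃) (ρ := rr n) ?_ hlt τ hτ).trans hIN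
  intro s hs hle
  rw [hP.ev s hs, hP'.ev s hs, norm_sub_rev]
  have hus : ContDiff ℝ ∞ (u s) := (h.spv hs).1
  have h2 := hmd (u s) hus (X s) (X' s) (rr n) (1 / 16) hr le_rfl (by norm_num)
    (by rw [norm_sub_rev]; exact hle)
  have e2 : rr n * √(aa (u s) (X s) (8 * rr n)) = √(g s) := by
    rw [hg]
    simp only [pow_zero, one_mul]
    rw [Real.sqrt_mul (sq_nonneg _), Real.sqrt_sq hr.le]
  rw [e2] at h2
  exact h2

end Pool.Agent.K1H52
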