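import Pool.Agent.K1H52.Mass
import Pool.Agent.K1H72.NS.Emb
import Pool.Agent.K1H72.NS.Comb
import Pool.Agent.K1H72.NS.Fro

/-!
Coverings of the singular set.
-/

set_option autoImplicit false
set_option linter.unusedVariables false

open MeasureTheory Set Metric Filter Topology
open scoped ContDiff ENNReal NNReal

namespace Pool.Agent.K1H52

open H459R3.NS W221.NS Pool.Agent.Y8

/-- Coverings of the singular set by parabolic cylinders, viscosity one. -/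
theorem cover : ∃ C : ℝ, 0 < C ∧ ∀ (T E a b : ℝ), 0 < a → b < T →
    ∀ nmin : ℕ, ∃ n₀ n₂ : ℕ, nmin ≤ n₀ ∧ n₀ ≤ n₂ ∧
    ∀ (D : ℝ) (G : Set ℝ) (u : ℝ → V → V) (p : ℝ → V → ℝ), Turb 1 T E D G u p →
    ∀ ℓ : ℕ → ℝ, (∀ n, 0 < ℓ n) → Monotone ℓ → ∀ N : ℕ, n₀ ≤ N →
    C * D < rr n₀ * ℓ n₀ * ∑ n ∈ Finset.Icc n₂ N, (ℓ n)⁻¹ →
    ∃ P : Finset (ℕ × (ℝ × V)), (∀ q ∈ P, n₀ ≤ q.1 ∧ q.1 ≤ N ∧ q.2.1 ∈ Icc a b ∧ q.2.2 ∈ cube ∧
        SingPt G u q.2.1 q.2.2) ∧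
      (∀ t ∈ Icc a b, ∀ x ∈ cube, SingPt G u t x →
        ∃ q ∈ P, |t - q.2.1| < rr q.1 ^ 2 ∧ ‖x - q.2.2‖ < rr q.1) ∧
      (∑ q ∈ P, rr q.1 * ℓ q.1) * ∑ n ∈ Finset.Icc n₂ N, (ℓ n)⁻¹ ≤ C * D := by
  classical
  obtain ⟨C, hC, hmass⟩ := mass_bd Pool.Agent.K1H72.NS.Emb.t_EMB Pool.Agent.K1H72.NS.Comb.t_COMB
  refine ⟨C, hC, ?_⟩
  intro T E a b ha hb nmin
  obtain ⟨n₀, n₂, hn0, hn02, H⟩ := hmass T E a b ha hb nmin
  refine ⟨n₀, n₂, hn0, hn02, ?_⟩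
  intro D G u p h ℓ hℓ hmono N hN hbig
  obtain ⟨S, hS⟩ : ∃ S : Set (ℝ × V), S = {z | z.1 ∈ Icc a b ∧ z.2 ∈ cube ∧
    SingPt G u z.1 z.2} := ⟨_, rfl⟩
  obtain ⟨Z, hZS, hrep⟩ := reps (S := S) (a := a) (b := b) (fun z hz => by
    rw [hS] at hz
    exact ⟨hz.1, hz.2.1⟩) N
  have hZ : ∀ z ∈ Z, z.1 ∈ Icc a b ∧ z.2 ∈ cube ∧ SingPt G u z.1 z.2 := by
    intro z hz
    have := hZS z hz
    rw [hS] at this
    exact this
  have hh : ∀ j, 0 < rr j * ℓ j := fun j => mul_pos (rrp j) (hℓ j)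
  obtain ⟨m, P₀, hm0, hmc, hcov, hP₀, hsum⟩ := Pool.Agent.K1H72.NS.t_FRO (ℝ × V)
    (ℤ × (Fin 3 → ℤ)) inferInstance Z cl (fun j => rr j * ℓ j) n₀ N hN hh
    (fun j z _ z' _ hzz => cl_nest j z z' hzz)
  obtain ⟨s, hs⟩ : ∃ s, s = ∑ n ∈ Finset.Icc n₂ N, (ℓ n)⁻¹ := ⟨_, rfl⟩
  have hs0 : 0 ≤ s := by
    rw [hs]
    exact Finset.sum_nonneg fun n _ => (inv_pos.2 (hℓ n)).le
  obtain ⟨M, hM⟩ : ∃ M, M = ∑ z ∈ Z, m z := ⟨_, rfl⟩
  have hM0 : 0 ≤ M := by rw [hM]; exact Finset.sum_nonneg fun z _ => hm0 z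
  rw [← hs] at hbig ⊢
  rw [← hM] at hsum
  have hMs : M * s ≤ C * D := by
    by_cases hMh : M ≤ rr n₀ * ℓ n₀
    · have h1 := H D G u p h ℓ hℓ hmono N Z m hZ (fun z _ => hm0 z) (fun j h1 h2 q => by
        convert hmc j h1 h2 q) (by rw [← hM]; exact hMh)
      rw [← hs, ← hM] at h1
      exact h1
    · exfalso
      push Not at hMh
      have hMp : 0 < M := (hh n₀).trans hMh
      obtain ⟨c, hc⟩ : ∃ c, c = rr n₀ * ℓ n₀ / M := ⟨_, rfl⟩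
      have hc0 : 0 ≤ c := by rw [hc]; exact (div_pos (hh n₀) hMp).le
      have hc1 : c ≤ 1 := by
        rw [hc, div_le_one hMp]
        exact hMh.le
      have e1 : ∑ z ∈ Z, c * m z = rr n₀ * ℓ n₀ := by
        rw [← Finset.mul_sum, ← hM, hc]
        field_simp
      have h1 := H D G u p h ℓ hℓ hmono N Z (fun z => c * m z) hZ
        (fun z _ => mul_nonneg hc0 (hm0 z)) (fun j h1 h2 q => by
          rw [← Finset.mul_sum]
          have h3 : ∑ z ∈ Z with cl j z = q, m z ≤ rr j * ℓ j := by convert hmc j h1 h2 q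
          have h4 : 0 ≤ ∑ z ∈ Z with cl j z = q, m z := Finset.sum_nonneg fun z _ => hm0 z
          calc c * ∑ z ∈ Z with cl j z = q, m z ≤ 1 * ∑ z ∈ Z with cl j z = q, m z :=
                mul_le_mul_of_nonneg_right hc1 h4
            _ ≤ _ := by rw [one_mul]; exact h3) (by rw [e1])
      rw [← hs, e1] at h1
      linarith
  -- the covering
  have hch : ∀ q : ℕ × (ℤ × (Fin 3 → ℤ)), ∃ z : ℝ × V, q ∈ P₀ → z ∈ Z ∧ cl q.1 z = q.2 := by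
    intro q
    by_cases hq : q ∈ P₀
    · obtain ⟨-, -, z, hz, he⟩ := hP₀ q hq
      exact ⟨z, fun _ => ⟨hz, he⟩⟩
    · exact ⟨0, fun h => absurd h hq⟩
  choose ζ hζ using hch
  refine ⟨P₀.image fun q => (q.1, ζ q), ?_, ?_, ?_⟩
  · intro q hq
    obtain ⟨q', hq', rfl⟩ := Finset.mem_image.1 hq
    obtain ⟨h1, h2, -⟩ := hP₀ q' hq'
    obtain ⟨h3, -⟩ := hζ q' hq'
    obtain ⟨h4, h5, h6⟩ := hZ _ h3
    exact ⟨h1, h2, h4, h5, h6⟩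
  · intro t ht x hx hsing
    obtain ⟨z', hz', he⟩ := hrep (t, x) (by
      rw [hS]
      exact ⟨ht, hx, hsing⟩)
    obtain ⟨q, hq, hqe⟩ := hcov z' hz'
    obtain ⟨h1, h2, -⟩ := hP₀ q hq
    obtain ⟨h3, h4⟩ := hζ q hq
    refine ⟨(q.1, ζ q), Finset.mem_image_of_mem _ hq, ?_⟩
    have h5 : cl q.1 (t, x) = cl q.1 (ζ q) := by
      rw [h4, ← hqe]
      exact cl_nest' h2 he
    exact cl_close h5
  · refine le_trans ?_ hMs
    refine mul_le_mul_of_nonneg_right ?_ hs0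
    rw [Finset.sum_image]
    · exact hsum
    · intro q hq q' hq' he
      rw [Prod.mk.injEq] at he
      have h1 := (hζ q hq).2
      have h2 := (hζ q' hq').2
      refine Prod.ext he.1 ?_
      rw [← h1, ← h2, he.2, he.1]

end Pool.Agent.K1H52
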