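import Pool.Agent.K1H52.Close
import Pool.Agent.Y8.WEnd
import Pool.Agent.Y7.WLoc
import Pool.Agent.Y8.Asm2
import Pool.Agent.TH305.LW.Late

/-!
The criterion: near a singular point the scaled dissipation along the path is not small.
-/

set_option autoImplicit false
set_option linter.unusedVariables false

open MeasureTheory Set Metric Filter Topology
open scoped ContDiff ENNReal NNReal

namespace Pool.Agent.K1H52

open H459R3.NS W221.NS Pool.Agent.Y8 Pool.Agent.Y7 Pool.Agent.Y7.WD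

theorem crit : ∃ η : ℝ, 0 < η ∧ ∀ (T E D : ℝ) (G : Set ℝ) (u : ℝ → V → V) (p : ℝ → V → ℝ),
    Turb 1 T E D G u p → ∀ (n : ℕ) (X Y X' Y' : ℝ → V) (B C₁ B' C₁' : ℝ),
    FPath T (rr n) B C₁ G u p X Y → FPath T (rr n * (1 / 16)) B' C₁' G u p X' Y' →
    ∀ t₀ : ℝ, X t₀ = X' t₀ → 0 < t₀ - rr n ^ 2 → t₀ + rr n ^ 2 < T → SingPt G u t₀ (X t₀) →
      η ≤ QQ n 0 u X t₀ := by
  obtain ⟨C₂, hC₂, hcd⟩ := close_down
  obtain ⟨K, hK, hosc⟩ := osc1
  obtain ⟨CW, hCW, hen⟩ := t_WEN4
  obtain ⟨ε, hε, hcr⟩ := Pool.Agent.Y8.B.p_crit3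
  obtain ⟨η, hη⟩ : ∃ η : ℝ, η = min (1 / (32 * C₂ ^ 2)) (min (1 / (CW * K)) (ε / (32 * (CW * K)))) :=
    ⟨_, rfl⟩
  have hη0 : 0 < η := by
    rw [hη]
    refine lt_min (by positivity) (lt_min (by positivity) (by positivity))
  have h1 : C₂ ^ 2 * η ≤ 1 / 32 := by
    have : η ≤ 1 / (32 * C₂ ^ 2) := by rw [hη]; exact min_le_left _ _
    rw [le_div_iff₀ (by positivity)] at this
    linarith
  have h2 : CW * (K * η) ≤ 1 := by
    have : η ≤ 1 / (CW * K) := by
      rw [hη]; exact (min_le_right _ _).trans (min_le_left _ _)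
    rw [le_div_iff₀ (by positivity)] at this
    linarith
  have h3 : CW * (K * η) * 32 ≤ ε := by
    have : η ≤ ε / (32 * (CW * K)) := by
      rw [hη]; exact (min_le_right _ _).trans (min_le_right _ _)
    rw [le_div_iff₀ (by positivity)] at this
    linarith
  refine ⟨η, hη0, ?_⟩
  intro T E D G u p h n X Y X' Y' B C₁ B' C₁' hP hP' t₀ h0 ht1 ht2 hsing
  by_contra hcon
  rw [not_le] at hcon
  obtain ⟨Q, hQ⟩ : ∃ Q, Q = QQ n 0 u X t₀ := ⟨_, rfl⟩
  rw [← hQ] at hcon
  have hQ0 : 0 ≤ Q := by rw [hQ]; exact QQ_nn _ _ _ _ _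
  have hr := rrp n
  have hr1 := rr_le1 n
  have hsq : C₂ * √Q < 1 / 4 := by
    have e1 : C₂ * √Q = √(C₂ ^ 2 * Q) := by
      rw [Real.sqrt_mul (sq_nonneg _), Real.sqrt_sq hC₂.le]
    rw [e1, Real.sqrt_lt' (by norm_num)]
    have := mul_lt_mul_of_pos_left hcon (show 0 < C₂ ^ 2 by positivity)
    norm_num
    linarith
  have hcl := hcd T E D G u p h n X Y X' Y' B C₁ B' C₁' hP hP' t₀ h0 ht1 ht2 (by
    rw [← hQ]; linarith)
  rw [← hQ] at hcl
  obtain ⟨r, hrd⟩ : ∃ r, r = rr n := ⟨_, rfl⟩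
  rw [← hrd] at hr hr1 hcl ht1 ht2 hP hP'
  have hr2 : 0 < r ^ 2 := by positivity
  obtain ⟨s, hs⟩ : ∃ s, s = t₀ + r ^ 2 / 8192 := ⟨_, rfl⟩
  have hrs : r ^ 2 < s := by rw [hs]; linarith
  have hsT : s < T := by rw [hs]; linarith
  have hX : ContinuousOn X G := hP.sm.continuousOn
  have hX' : ContinuousOn X' G := hP'.sm.continuousOn
  -- little oscillation
  obtain ⟨kf, hL⟩ := Pool.Agent.Y8.B.p_wfr2 T E D G u p h r s hr hrs hsT X Y B C₁ hP
  have hpt : ∀ t ∈ HH r s G, √(L4 0 4 (frv r s X u t))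
      ≤ K * (r ^ 4 * aa (u (s + r ^ 2 * t)) (X (s + r ^ 2 * t)) (8 * r)) := by
    intro t ht
    rw [turb_frv h hP ht.2]
    exact hosc _ (h.spv ht.2).1 _ r hr
  have haG : IntegrableOn (fun τ => aa (u τ) (X τ) (8 * r)) G := aa_int h hX (by positivity)
  have haI : IntegrableOn (fun τ => aa (u τ) (X τ) (8 * r)) (Ioo (t₀ - r ^ 2) (t₀ + r ^ 2)) :=
    int_G h haG ht1.le ht2.le
  have hsub : Ioo (s + r ^ 2 * (-1)) (s + r ^ 2 * 0) ⊆ Ioo (t₀ - r ^ 2) (t₀ + r ^ 2) := by
    apply Ioo_subset_Ioo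
    · rw [hs]; linarith
    · rw [hs]; linarith
  obtain ⟨c1, c2⟩ := tcov (F := fun τ => K * (r ^ 4 * aa (u τ) (X τ) (8 * r))) (s := s) (p := -1)
    (q := 0) hr2
  have hFi : IntegrableOn (fun τ => K * (r ^ 4 * aa (u τ) (X τ) (8 * r)))
      (Ioo (s + r ^ 2 * (-1)) (s + r ^ 2 * 0)) :=
    ((haI.mono_set hsub).const_mul _).const_mul _
  have hFi2 := c1.2 hFi
  have hcont : ContinuousOn (fun t => √(L4 0 4 (frv r s X u t))) (HH r s G) := by
    apply Real.continuous_sqrt.comp_continuousOn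
    unfold L4
    have h2 := nsq_joint hL.smooth_v
    exact pint_cont (F := fun t z => nsq (frv r s X u t) z ^ 2) hL.openH
      (h2.continuousOn.pow 2) 0 4
  have hint : IntegrableOn (fun t => √(L4 0 4 (frv r s X u t))) (Ioo (-1) 0) := by
    refine Integrable.mono' hFi2 (aesm hL.openH hL.fullH subset_rfl hcont) ?_
    filter_upwards [ae_mem hL.fullH subset_rfl measurableSet_Ioo] with t ht
    rw [Real.norm_eq_abs, abs_of_nonneg (Real.sqrt_nonneg _)]
    exact hpt t ht.2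
  have hle : ∫ t in Ioo (-1 : ℝ) 0, √(L4 0 4 (frv r s X u t)) ≤ K * η := by
    calc ∫ t in Ioo (-1 : ℝ) 0, √(L4 0 4 (frv r s X u t))
        ≤ ∫ t in Ioo (-1 : ℝ) 0, K * (r ^ 4 * aa (u (s + r ^ 2 * t)) (X (s + r ^ 2 * t))
          (8 * r)) := by
          refine integral_mono_ae hint hFi2 ?_
          filter_upwards [ae_mem hL.fullH subset_rfl measurableSet_Ioo] with t ht
          exact hpt t ht.2
      _ = (r ^ 2)⁻¹ * ∫ τ in Ioo (s + r ^ 2 * (-1)) (s + r ^ 2 * 0),
          K * (r ^ 4 * aa (u τ) (X τ) (8 * r)) := c2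
      _ ≤ (r ^ 2)⁻¹ * ∫ τ in Ioo (t₀ - r ^ 2) (t₀ + r ^ 2),
          K * (r ^ 4 * aa (u τ) (X τ) (8 * r)) := by
          refine mul_le_mul_of_nonneg_left ?_ (by positivity)
          refine setIntegral_mono_set ((haI.const_mul _).const_mul _)
            (Eventually.of_forall fun τ => ?_) hsub.eventuallyLE
          have := aa_nn (u τ) (X τ) (8 * r)
          positivity
      _ = K * Q := by
          rw [hQ]
          unfold QQ II
          rw [integral_const_mul, integral_const_mul, integral_const_mul, ← hrd]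
          simp only [pow_zero, one_mul]
          field_simp
      _ ≤ K * η := by gcongr
  obtain ⟨g1, g2⟩ := hen _ _ _ _ hL (K * η) (by positivity) h2 hint hle
  obtain ⟨w1, w2⟩ := wmass h hr hrs hsT X (3 / 4) (p₁ := -9 / 16) (q₁ := 0) (by norm_num) le_rfl
  have e1 : s + r ^ 2 * (-9 / 16) = s - 9 / 16 * r ^ 2 := by ring
  have e2 : s + r ^ 2 * 0 = s := by ring
  rw [e1, e2] at w1 w2
  rw [w2, inv_mul_le_iff₀ hr] at g2
  have w3 := w1.1 g1
  -- the criterion at the smaller scale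
  obtain ⟨r', hr'⟩ : ∃ r', r' = r * (1 / 16) := ⟨_, rfl⟩
  rw [← hr'] at hP'
  have hr'0 : 0 < r' := by rw [hr']; positivity
  have hr'2 : r' ^ 2 = r ^ 2 / 256 := by rw [hr']; ring
  have key := hcr T E D G u p h r' s hr'0 (by rw [hr']; linarith) (by
    rw [hr'2]; linarith) hsT X' Y' B' C₁' hP' t₀ ⟨by rw [hr'2, hs]; linarith, by
      rw [hs]; linarith⟩ (X t₀) (by rw [h0]; exact mem_ball_self (by positivity)) hsing
  have hB : ∫ t in Ioo (s - r' ^ 2) s, B2 (X' t) (8 * r') (u t)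
      ≤ ∫ t in Ioo (s - 9 / 16 * r ^ 2) s, B2 (X t) (r * (3 / 4)) (u t) := by
    have hsub2 : Ioo (s - r' ^ 2) s ⊆ Ioo (s - 9 / 16 * r ^ 2) s := by
      apply Ioo_subset_Ioo _ le_rfl
      rw [hr'2]
      linarith
    calc ∫ t in Ioo (s - r' ^ 2) s, B2 (X' t) (8 * r') (u t)
        ≤ ∫ t in Ioo (s - r' ^ 2) s, B2 (X t) (r * (3 / 4)) (u t) := by
          refine integral_mono_ae ?_ (w3.mono_set hsub2) ?_
          · exact int_G h (Pool.Agent.Y458.NS.B2_mov_int h hX' _) (by rw [hr'2]; linarith) hsT.le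
          · filter_upwards [aeT h (s := s - r' ^ 2) (t := s) (by rw [hr'2]; linarith) hsT.le,
              ae_restrict_mem measurableSet_Ioo] with t htG htI
            apply Pool.Agent.TH305.LW.B2_mono (h.spv htG).1
            apply ball_subset_ball'
            have h5 := hcl t (by
              rw [hr'2] at htI
              rw [abs_le]
              constructor
              · have := htI.1; rw [hs] at this; linarith
              · have := htI.2; rw [hs] at this; linarith)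
            rw [dist_eq_norm, norm_sub_rev]
            have h6 : C₂ * r * √Q ≤ 1 / 4 * r := by
              calc C₂ * r * √Q = (C₂ * √Q) * r := by ring
                _ ≤ _ := mul_le_mul_of_nonneg_right hsq.le hr.le
            rw [hr']
            linarith
      _ ≤ _ := setIntegral_mono_set w3 (Eventually.of_forall fun t =>
          integral_nonneg fun x => gsq_nn _ _) hsub2.eventuallyLE
  have h6 : ε * r' ≤ r * (CW * (K * η)) := key.trans (hB.trans g2)
  rw [hr'] at h6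
  have h7 : ε ≤ 16 * (CW * (K * η)) := by
    have : r * ε ≤ r * (16 * (CW * (K * η))) := by linarith
    exact le_of_mul_le_mul_left this hr
  linarith

end Pool.Agent.K1H52
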