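import Mathlib

/-!
Statements of three auxiliary lemmas for the project on the space-time singular set (helper52):
a fixed time embedding, a finite Frostman lemma, and the final combinatorics.
-/

set_option autoImplicit false

open MeasureTheory Set Metric
open scoped ENNReal

namespace Pool.Agent.K1H52

/-- The space, with the maximum norm. -/
abbrev V3 := Fin 3 → ℝ

/-- Embedding: the weights `w` have at most the mass `K ρ` in balls of radius `2 ρ`, for each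
scale `2 ^ l ≤ ρ`; then the weighted sum of the squares of the averages of `Ψ` over the balls of
radius `2 ^ (e i)` is bounded by the integral of the square of `Ψ`. -/
def S_EMB : Prop := ∃ C : ℝ≥0∞, C ≠ ⊤ ∧ ∀ (ι : Type) (I : Finset ι) (y : ι → V3) (e : ι → ℤ)
  (w : ι → ℝ≥0∞) (K : ℝ≥0∞) (Ψ : V3 → ℝ≥0∞), K ≠ ⊤ → Measurable Ψ →
    (∀ (l : ℤ) (ρ : ℝ) (y₀ : V3), (2 : ℝ) ^ l ≤ ρ →
      (∑ i ∈ I with e i = l ∧ ‖y i - y₀‖ < 2 * ρ, w i) ≤ K * ENNReal.ofReal ρ) →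
    (∑ i ∈ I, w i * ENNReal.ofReal (((2 : ℝ) ^ (e i)) ^ 2) *
      ((∫⁻ x in ball (y i) ((2 : ℝ) ^ (e i)), Ψ x) / ENNReal.ofReal (((2 : ℝ) ^ (e i)) ^ 3)) ^ 2)
      ≤ C * K * ∫⁻ x, Ψ x ^ 2

/-- Finite Frostman lemma: `c j z` is the label of the cell of the generation `j` which contains
`z`; the cells are nested. There are masses `m z` such that each cell of a generation `j` in
`[n, N]` has at most the mass `h j`, and a covering `P` of `Z` by cells of these generations whose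
cost is at most the total mass. -/
def S_FRO : Prop := ∀ (α κ : Type) (_ : DecidableEq κ) (Z : Finset α) (c : ℕ → α → κ) (h : ℕ → ℝ)
  (n N : ℕ), n ≤ N → (∀ j, 0 < h j) →
    (∀ j, ∀ z ∈ Z, ∀ z' ∈ Z, c (j + 1) z = c (j + 1) z' → c j z = c j z') →
    ∃ (m : α → ℝ) (P : Finset (ℕ × κ)), (∀ z, 0 ≤ m z) ∧
      (∀ j, n ≤ j → j ≤ N → ∀ q, ∑ z ∈ Z with c j z = q, m z ≤ h j) ∧
      (∀ z ∈ Z, ∃ p ∈ P, c p.1 z = p.2) ∧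
      (∀ p ∈ P, n ≤ p.1 ∧ p.1 ≤ N ∧ ∃ z ∈ Z, c p.1 z = p.2) ∧
      ∑ p ∈ P, h p.1 ≤ ∑ z ∈ Z, m z

/-- The final combinatorics. -/
def S_COMB : Prop := ∀ (η c : ℝ) (f₀ : ℕ), 0 < η → 0 < c → ∃ C : ℝ, 0 < C ∧
  ∀ (B : ℝ) (n₀ n₁ : ℕ), n₀ ≤ n₁ → ∃ n₂ : ℕ, n₁ ≤ n₂ ∧
  ∀ (α : Type) (Z : Finset α) (m : α → ℝ) (ℓ : ℕ → ℝ) (N : ℕ) (F a : ℕ → α → ℝ)
    (q : ℕ → ℕ → α → ℝ) (D : ℝ),
    (∀ z ∈ Z, 0 ≤ m z) → (∀ n, 0 < ℓ n) → Monotone ℓ → 0 ≤ D →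
    (∀ n k z, 0 ≤ q n k z) →
    (∀ n z, a n z = ∑ k ∈ Finset.range (n + 1), (3 / 4 : ℝ) ^ k * q n k z) →
    (∀ n, n₀ ≤ n → n ≤ N → ∀ z ∈ Z, η ≤ q n 0 z) →
    (∀ n, n₀ ≤ n → n ≤ N → ∀ z ∈ Z, 1 ≤ F n z) →
    (∀ n, n₀ ≤ n → n ≤ N → ∀ z ∈ Z, F n z ^ 2 ≤ B * 2 ^ n) →
    (∀ n, n₁ ≤ n → n ≤ N → ∀ z ∈ Z, ∀ f : ℕ, f₀ ≤ f → 2 ^ f ≤ F n z → F n z < 2 ^ (f + 1) →
      n₀ + f ≤ n ∧
      (c * 2 ^ f ≤ ∑ j ∈ Finset.range (f + 1), √(q n j z) ∨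
        c * 4 ^ f ≤ ∑ j ∈ Finset.Ico (f + 1) (n + 1), (3 / 4 : ℝ) ^ (j - (f + 1)) * q n j z ∨
        c * 4 ^ f ≤ F (n - f) z + a (n - f) z)) →
    (∀ k f : ℕ, ∑ n ∈ Finset.Icc (max n₀ k) N, (ℓ n)⁻¹ *
      ∑ z ∈ Z with 2 ^ f ≤ F n z ∧ F n z < 2 ^ (f + 1), m z * q n k z
        ≤ D * max 1 (2 ^ f / 2 ^ k)) →
      (∑ z ∈ Z, m z) * ∑ n ∈ Finset.Icc n₂ N, (ℓ n)⁻¹ ≤ C * D

end Pool.Agent.K1H52
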