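import Pool.Agent.K1H52.Tim
import Pool.Agent.K1H52.Sts
import Pool.Agent.Y7.Fin7

/-!
The embedding at a fixed time.
-/

set_option autoImplicit false
set_option linter.unusedVariables false

open MeasureTheory Set Metric Filter Topology
open scoped ContDiff ENNReal NNReal

namespace Pool.Agent.K1H52

open H459R3.NS W221.NS Pool.Agent.Y8 Pool.Agent.Y7 Pool.Agent.Y7.Sp

/-- The local function. -/
noncomputable def gl (v : V → V) : V → ℝ≥0∞ := (ball (0 : V) 10).indicator (gw v)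

lemma gl_meas {v : V → V} (hv : ContDiff ℝ ∞ v) : Measurable (gl v) :=
  (gw_meas hv).indicator measurableSet_ball

/-- The maximal function. -/
noncomputable def Ps (v : V → V) (x : V) : ℝ≥0∞ := Hl.Mx 16 (gl v) x ^ (7 / 12 : ℝ)

lemma Ps_meas {v : V → V} (hv : ContDiff ℝ ∞ v) : Measurable (Ps v) :=
  (Hl.meas_Mx (gl_meas hv)).pow_const _

lemma AA_Ps (v : V → V) {y : V} (hy : ‖y‖ ≤ 2) (e : ℕ) :
    AA v y (8 / 2 ^ e) ≤ ((∫⁻ x in ball y (8 / 2 ^ e), Ps v x)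
      / ENNReal.ofReal ((8 / 2 ^ e) ^ 3)) ^ 2 := by
  obtain ⟨ρ, hρ⟩ : ∃ ρ : ℝ, ρ = 8 / 2 ^ e := ⟨_, rfl⟩
  rw [← hρ]
  have hρ0 : 0 < ρ := by rw [hρ]; positivity
  have hρ8 : ρ ≤ 8 := by
    rw [hρ]
    exact div_le_self (by norm_num) (one_le_pow₀ (by norm_num))
  have hR : Hl.Rr 16 e = 2 * ρ := by
    unfold Hl.Rr
    rw [hρ]
    ring
  obtain ⟨A, hA⟩ : ∃ A, A = ∫⁻ x in ball y ρ, gw v x := ⟨_, rfl⟩
  have hAg : A = ∫⁻ x in ball y ρ, gl v x := by
    rw [hA]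
    refine setLIntegral_congr_fun measurableSet_ball fun x hx => ?_
    unfold gl
    rw [indicator_of_mem]
    rw [mem_ball, dist_eq_norm] at hx
    rw [mem_ball_zero_iff]
    have : ‖x‖ ≤ ‖x - y‖ + ‖y‖ := by
      have h := norm_add_le (x - y) y
      rwa [sub_add_cancel] at h
    linarith
  have h1 : ∀ x ∈ ball y ρ, (A / ENNReal.ofReal ((2 * ρ) ^ 3)) ^ (7 / 12 : ℝ) ≤ Ps v x := by
    intro x hx
    unfold Ps
    refine ENNReal.rpow_le_rpow ?_ (by norm_num)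
    refine le_trans ?_ (le_iSup (fun m : ℕ => (∫⁻ y in ball x (Hl.Rr 16 m), gl v y)
      / ENNReal.ofReal (Hl.Rr 16 m ^ 3)) e)
    rw [hR, hAg]
    refine ENNReal.div_le_div_right (lintegral_mono_set ?_) _
    apply ball_subset_ball'
    rw [mem_ball] at hx
    rw [dist_comm]
    linarith
  have h0 : ENNReal.ofReal (ρ ^ 3) ≠ 0 := by
    rw [Ne, ENNReal.ofReal_eq_zero, not_le]
    positivity
  have h2 : (A / ENNReal.ofReal ((2 * ρ) ^ 3)) ^ (7 / 12 : ℝ) * (8 * ENNReal.ofReal (ρ ^ 3))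
      ≤ ∫⁻ x in ball y ρ, Ps v x := by
    rw [← Hl.vol_ball y hρ0, ← setLIntegral_const]
    exact setLIntegral_mono' measurableSet_ball h1
  have h3 : 8 * (A / ENNReal.ofReal ((2 * ρ) ^ 3)) ^ (7 / 12 : ℝ)
      ≤ (∫⁻ x in ball y ρ, Ps v x) / ENNReal.ofReal (ρ ^ 3) := by
    rw [ENNReal.le_div_iff_mul_le (Or.inl h0) (Or.inl ENNReal.ofReal_ne_top)]
    refine le_trans (le_of_eq ?_) h2
    ring
  have h4 : A / ENNReal.ofReal (ρ ^ 3) = 8 * (A / ENNReal.ofReal ((2 * ρ) ^ 3)) := by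
    have e1 : ENNReal.ofReal ((2 * ρ) ^ 3) = 8 * ENNReal.ofReal (ρ ^ 3) := by
      rw [mul_pow, ENNReal.ofReal_mul (by norm_num)]
      norm_num
    rw [e1, ← mul_div_assoc, ENNReal.mul_div_mul_left _ _ (by norm_num) (by norm_num)]
  have h5 : (A / ENNReal.ofReal (ρ ^ 3)) ^ (7 / 12 : ℝ)
      ≤ (∫⁻ x in ball y ρ, Ps v x) / ENNReal.ofReal (ρ ^ 3) := by
    rw [h4, ENNReal.mul_rpow_of_nonneg _ _ (by norm_num)]
    refine le_trans (mul_le_mul_left ?_ _) h3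
    calc (8 : ℝ≥0∞) ^ (7 / 12 : ℝ) ≤ 8 ^ (1 : ℝ) :=
          ENNReal.rpow_le_rpow_of_exponent_le (by norm_num) (by norm_num)
      _ = 8 := ENNReal.rpow_one _
  unfold AA
  rw [← hA]
  calc (A / ENNReal.ofReal (ρ ^ 3)) ^ (7 / 6 : ℝ)
      = ((A / ENNReal.ofReal (ρ ^ 3)) ^ (7 / 12 : ℝ)) ^ 2 := by
        rw [← ENNReal.rpow_natCast, ← ENNReal.rpow_mul]
        norm_num
    _ ≤ _ := by gcongr

lemma Ps_int : ∃ C : ℝ, 0 < C ∧ ∀ v : V → V, SPV v →
    ∫⁻ x, Ps v x ^ 2 ≤ ENNReal.ofReal (C * enstrophy v) := by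
  obtain ⟨A, hA, hHL⟩ := FxL
  obtain ⟨C, hC, hB⟩ := Pool.Agent.Y458.NS.B2_enst 10
  refine ⟨A * C, by positivity, fun v hv => ?_⟩
  have hbd : ∃ B : ℝ≥0∞, B ≠ ⊤ ∧ ∀ x, gl v x ≤ B := by
    obtain ⟨M, hM⟩ := (isCompact_closedBall (0 : V) 10).bddAbove_image
      (gsq_ct hv.1).continuousOn
    refine ⟨ENNReal.ofReal M ^ (6 / 7 : ℝ),
      ENNReal.rpow_ne_top_of_nonneg (by norm_num) ENNReal.ofReal_ne_top, fun x => ?_⟩
    unfold gl
    by_cases hx : x ∈ ball (0 : V) 10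
    · rw [indicator_of_mem hx]
      unfold gw
      refine ENNReal.rpow_le_rpow (ENNReal.ofReal_le_ofReal ?_) (by norm_num)
      exact hM (mem_image_of_mem _ (ball_subset_closedBall hx))
    · rw [indicator_of_notMem hx]
      exact zero_le
  obtain ⟨B, hBt, hBb⟩ := hbd
  have h1 := hHL 16 (by norm_num) (gl v) (gl_meas hv.1) B hBt hBb
  have h2 : ∫⁻ x, Ps v x ^ 2 = ∫⁻ x, Hl.Mx 16 (gl v) x ^ (7 / 6 : ℝ) := by
    refine lintegral_congr fun x => ?_
    unfold Ps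
    rw [← ENNReal.rpow_natCast, ← ENNReal.rpow_mul]
    norm_num
  have h3 : ∫⁻ x, gl v x ^ (7 / 6 : ℝ) = ENNReal.ofReal (B2 0 10 v) := by
    have e : (fun x => gl v x ^ (7 / 6 : ℝ))
        = (ball (0 : V) 10).indicator fun x => ENNReal.ofReal (gsq v x) := by
      funext x
      unfold gl
      by_cases hx : x ∈ ball (0 : V) 10
      · rw [indicator_of_mem hx, indicator_of_mem hx, gw_pow]
      · rw [indicator_of_notMem hx, indicator_of_notMem hx, ENNReal.zero_rpow_of_pos (by norm_num)]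
    rw [e, lintegral_indicator measurableSet_ball]
    unfold B2
    rw [ofReal_integral_eq_lintegral_ofReal (ballint (gsq_ct hv.1) 0 10)
      (ae_of_all _ fun x => gsq_nn v x)]
  rw [h2]
  refine h1.trans ?_
  rw [h3, ← ENNReal.ofReal_mul hA.le]
  apply ENNReal.ofReal_le_ofReal
  have := hB v hv 0
  calc A * B2 0 10 v ≤ A * (C * enstrophy v) := by gcongr
    _ = _ := by ring

/-- The embedding at a fixed time. -/
theorem emb_fix (hE : S_EMB) : ∃ C : ℝ, 0 < C ∧ ∀ v : V → V, SPV v → ∀ (ι : Type) (I : Finset ι)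
    (y : ι → V) (e : ι → ℕ) (w : ι → ℝ) (K : ℝ), 0 ≤ K → (∀ i ∈ I, ‖y i‖ ≤ 2) →
    (∀ i ∈ I, 0 ≤ w i) →
    (∀ (l : ℕ) (ρ : ℝ) (y₀ : V), 8 / 2 ^ l ≤ ρ →
      ∑ i ∈ I with e i = l ∧ ‖y i - y₀‖ < 2 * ρ, w i ≤ K * ρ) →
    ∑ i ∈ I, w i * ((8 / 2 ^ (e i)) ^ 2 * aa v (y i) (8 / 2 ^ (e i))) ≤ C * K * enstrophy v := by
  obtain ⟨C₁, hC₁, hemb⟩ := hE
  obtain ⟨C₂, hC₂, hps⟩ := Ps_int
  refine ⟨(C₁.toReal + 1) * C₂, by positivity, ?_⟩
  intro v hv ι I y e w K hK hy hw hcond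
  have hen : 0 ≤ enstrophy v := enst_nn v
  have hz : ∀ m : ℕ, (2 : ℝ) ^ (3 - (m : ℤ)) = 8 / 2 ^ m := by
    intro m
    rw [zpow_sub₀ (by norm_num)]
    norm_num
  have h1 := hemb ι I y (fun i => 3 - (e i : ℤ)) (fun i => ENNReal.ofReal (w i)) (ENNReal.ofReal K)
    (Ps v) ENNReal.ofReal_ne_top (Ps_meas hv.1) (by
      intro l ρ y₀ hl
      by_cases hl3 : l ≤ 3
      · obtain ⟨m, hm⟩ : ∃ m : ℕ, l = 3 - (m : ℤ) := ⟨(3 - l).toNat, by omega⟩
        rw [hm, hz] at hl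
        have hρ : 0 < ρ := lt_of_lt_of_le (by positivity) hl
        have h2 := hcond m ρ y₀ hl
        have e1 : (I.filter fun i => 3 - (e i : ℤ) = l ∧ ‖y i - y₀‖ < 2 * ρ)
            = I.filter fun i => e i = m ∧ ‖y i - y₀‖ < 2 * ρ := by
          refine Finset.filter_congr fun i _ => ?_
          rw [hm]
          constructor
          · rintro ⟨a, b⟩
            exact ⟨by omega, b⟩
          · rintro ⟨a, b⟩
            exact ⟨by omega, b⟩
        rw [e1, ← ENNReal.ofReal_sum_of_nonneg (fun i hi => hw i (Finset.mem_filter.1 hi).1),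
          ← ENNReal.ofReal_mul hK]
        exact ENNReal.ofReal_le_ofReal h2
      · have e1 : (I.filter fun i => 3 - (e i : ℤ) = l ∧ ‖y i - y₀‖ < 2 * ρ) = ∅ := by
          refine Finset.filter_eq_empty_iff.2 fun i _ hi => ?_
          have := hi.1
          omega
        rw [e1, Finset.sum_empty]
        exact zero_le)
  simp only [hz] at h1
  have h2 : ENNReal.ofReal (∑ i ∈ I, w i * ((8 / 2 ^ (e i)) ^ 2 * aa v (y i) (8 / 2 ^ (e i))))
      ≤ ∑ i ∈ I, ENNReal.ofReal (w i) * ENNReal.ofReal ((8 / 2 ^ (e i)) ^ 2)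
        * ((∫⁻ x in ball (y i) (8 / 2 ^ (e i)), Ps v x)
          / ENNReal.ofReal ((8 / 2 ^ (e i)) ^ 3)) ^ 2 := by
    rw [ENNReal.ofReal_sum_of_nonneg (fun i hi => by
      have := aa_nn v (y i) (8 / 2 ^ (e i))
      have := hw i hi
      positivity)]
    refine Finset.sum_le_sum fun i hi => ?_
    rw [ENNReal.ofReal_mul (hw i hi), ENNReal.ofReal_mul (by positivity), ← mul_assoc,
      AA_eq hv.1 (y i) (by positivity)]
    gcongr
    exact AA_Ps v (hy i hi) (e i)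
  have h3 := (h2.trans h1).trans (mul_le_mul_right (hps v hv) _)
  have h4 : C₁ * ENNReal.ofReal K * ENNReal.ofReal (C₂ * enstrophy v)
      ≤ ENNReal.ofReal ((C₁.toReal + 1) * C₂ * K * enstrophy v) := by
    have e1 : C₁ ≤ ENNReal.ofReal (C₁.toReal + 1) := by
      rw [ENNReal.le_ofReal_iff_toReal_le hC₁ (by positivity)]
      linarith
    calc C₁ * ENNReal.ofReal K * ENNReal.ofReal (C₂ * enstrophy v)
        ≤ ENNReal.ofReal (C₁.toReal + 1) * ENNReal.ofReal K * ENNReal.ofReal (C₂ * enstrophy v) := by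
          gcongr
      _ = ENNReal.ofReal ((C₁.toReal + 1) * C₂ * K * enstrophy v) := by
          rw [← ENNReal.ofReal_mul (by positivity), ← ENNReal.ofReal_mul (by positivity)]
          congr 1
          ring
  exact (ENNReal.ofReal_le_ofReal_iff (by positivity)).1 (h3.trans h4)

end Pool.Agent.K1H52
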