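import Pool.Agent.K1H52.Close

/-!
The alternatives for the displacement along the path in a window.
-/

set_option autoImplicit false
set_option linter.unusedVariables false

open MeasureTheory Set Metric Filter Topology
open scoped ContDiff ENNReal NNReal

namespace Pool.Agent.K1H52

open H459R3.NS W221.NS Pool.Agent.Y8

/-- One plus the maximal displacement in the window, relative to the scale. -/
noncomputable def FF (n : ℕ) (X : ℝ → V) (t₀ : ℝ) : ℝ :=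
  1 + (rr n)⁻¹ * sSup ((fun τ => ‖X τ - X t₀‖) '' Icc (t₀ - rr n ^ 2) (t₀ + rr n ^ 2))

lemma FF_one (n : ℕ) (X : ℝ → V) (t₀ : ℝ) : 1 ≤ FF n X t₀ := by
  unfold FF
  have h1 : 0 ≤ sSup ((fun τ => ‖X τ - X t₀‖) '' Icc (t₀ - rr n ^ 2) (t₀ + rr n ^ 2)) := by
    apply Real.sSup_nonneg
    rintro x ⟨τ, -, rfl⟩
    exact norm_nonneg _
  have := rrp n
  have h2 : 0 ≤ (rr n)⁻¹ * sSup ((fun τ => ‖X τ - X t₀‖) ''
    Icc (t₀ - rr n ^ 2) (t₀ + rr n ^ 2)) := by positivity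
  linarith

lemma FF_le {n : ℕ} {X : ℝ → V} {t₀ : ℝ}
    (hX : ContinuousOn X (Icc (t₀ - rr n ^ 2) (t₀ + rr n ^ 2))) {τ : ℝ} (hτ : |τ - t₀| ≤ rr n ^ 2) :
    ‖X τ - X t₀‖ ≤ (FF n X t₀ - 1) * rr n := by
  have hr := rrp n
  have h1 : ContinuousOn (fun τ => ‖X τ - X t₀‖) (Icc (t₀ - rr n ^ 2) (t₀ + rr n ^ 2)) :=
    (hX.sub continuousOn_const).norm
  have h2 := (isCompact_Icc.image_of_continuousOn h1).bddAbove
  rw [abs_le] at hτ
  have h3 := le_csSup h2 (mem_image_of_mem (fun τ => ‖X τ - X t₀‖)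
    (show τ ∈ Icc (t₀ - rr n ^ 2) (t₀ + rr n ^ 2) from ⟨by linarith [hτ.1], by linarith [hτ.2]⟩))
  have e : (FF n X t₀ - 1) * rr n
      = sSup ((fun τ => ‖X τ - X t₀‖) '' Icc (t₀ - rr n ^ 2) (t₀ + rr n ^ 2)) := by
    unfold FF
    field_simp
    ring
  rw [e]
  exact h3

lemma FF_att {n : ℕ} {X : ℝ → V} {t₀ : ℝ}
    (hX : ContinuousOn X (Icc (t₀ - rr n ^ 2) (t₀ + rr n ^ 2))) :
    ∃ τ, |τ - t₀| ≤ rr n ^ 2 ∧ ‖X τ - X t₀‖ = (FF n X t₀ - 1) * rr n := by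
  have hr := rrp n
  have h1 : ContinuousOn (fun τ => ‖X τ - X t₀‖) (Icc (t₀ - rr n ^ 2) (t₀ + rr n ^ 2)) :=
    (hX.sub continuousOn_const).norm
  have hne : (Icc (t₀ - rr n ^ 2) (t₀ + rr n ^ 2)).Nonempty :=
    ⟨t₀, by nlinarith, by nlinarith⟩
  have h2 := (isCompact_Icc.image_of_continuousOn h1).sSup_mem (hne.image _)
  obtain ⟨τ, hτ, he⟩ := h2
  refine ⟨τ, ?_, ?_⟩
  · rw [abs_le]
    constructor <;> linarith [hτ.1, hτ.2]
  · have e : (FF n X t₀ - 1) * rr n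
        = sSup ((fun τ => ‖X τ - X t₀‖) '' Icc (t₀ - rr n ^ 2) (t₀ + rr n ^ 2)) := by
      unfold FF
      field_simp
      ring
    rw [e]
    exact he

section

variable {T E D : ℝ} {G : Set ℝ} {u : ℝ → V → V} {p : ℝ → V → ℝ}

lemma path_ct {r B C : ℝ} {X Y : ℝ → V} (hP : FPath T r B C G u p X Y) {a b : ℝ} (ha : 0 < a)
    (hb : b < T) : ContinuousOn X (Icc a b) := fun τ hτ =>
  (hP.hd τ ⟨ha.trans_le hτ.1, hτ.2.trans_lt hb⟩).continuousAt.continuousWithinAt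

lemma FF_bd {n : ℕ} {B C : ℝ} {X Y : ℝ → V} (hB : 0 ≤ B) (hP : FPath T (rr n) B C G u p X Y)
    {t₀ : ℝ} (ht1 : 0 < t₀ - rr n ^ 2) (ht2 : t₀ + rr n ^ 2 < T) :
    FF n X t₀ ≤ 1 + B * rr n := by
  have hr := rrp n
  obtain ⟨τ, hτ, he⟩ := FF_att (n := n) (X := X) (t₀ := t₀) (path_ct hP ht1 ht2)
  have hτ' := hτ
  rw [abs_le] at hτ'
  have h1 := FPath.lip hP (s := t₀) (t := τ) ⟨by nlinarith, by nlinarith⟩
    ⟨by linarith [hτ'.1], by linarith [hτ'.2]⟩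
  rw [he] at h1
  have h2 : (FF n X t₀ - 1) * rr n ≤ (B * rr n) * rr n := by
    refine h1.trans ?_
    calc B * |τ - t₀| ≤ B * rr n ^ 2 := mul_le_mul_of_nonneg_left hτ hB
      _ = _ := by ring
  have h3 := le_of_mul_le_mul_right h2 hr
  linarith

lemma WW_QQ (h : Turb 1 T E D G u p) {n : ℕ} {X : ℝ → V} (hX : ContinuousOn X G) {t₀ : ℝ}
    (ht1 : 0 < t₀ - rr n ^ 2) (ht2 : t₀ + rr n ^ 2 < T) :
    ∫ τ in II n t₀, WW n (u τ) (X τ) = ∑ k ∈ Finset.range n, (3 / 4 : ℝ) ^ k * QQ n k u X t₀ := by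
  have hr := rrp n
  unfold WW
  rw [integral_finsetSum _ fun k _ => ?_]
  · refine Finset.sum_congr rfl fun k _ => ?_
    rw [integral_const_mul]
    rfl
  · exact (int_G h ((aa_int h hX (by positivity)).const_mul _) ht1.le ht2.le).const_mul _

end

lemma rr_add (m f : ℕ) : rr m = 2 ^ f * rr (m + f) := by
  unfold rr
  rw [pow_add, one_div, inv_pow, inv_pow]
  field_simp

/-- The alternatives. -/
theorem tri : ∃ c δ : ℝ, 0 < c ∧ 0 < δ ∧ ∀ (T E D : ℝ) (G : Set ℝ) (u : ℝ → V → V)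
    (p : ℝ → V → ℝ), Turb 1 T E D G u p → ∀ m f : ℕ, 2 ≤ m → 1 ≤ f → rr m * (1 + E ^ 2) ≤ 1 →
    ∀ (X Y X' Y' : ℝ → V) (B C₁ B' C₁' : ℝ), 0 ≤ B' → B' * rr m ^ 2 ≤ δ →
    FPath T (rr (m + f)) B C₁ G u p X Y → FPath T (rr m) B' C₁' G u p X' Y' →
    ∀ t₀ : ℝ, X t₀ = X' t₀ → 0 < t₀ - rr m ^ 2 → t₀ + rr m ^ 2 < T →
    2 ^ f ≤ FF (m + f) X t₀ →
      c * 2 ^ f ≤ ∑ j ∈ Finset.range (f + 1), √(QQ (m + f) j u X t₀) ∨
      c * 4 ^ f ≤ ∑ j ∈ Finset.Ico (f + 1) (m + f + 1),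
        (3 / 4 : ℝ) ^ (j - (f + 1)) * QQ (m + f) j u X t₀ ∨
      c * 4 ^ f ≤ FF m X' t₀ + ∑ k ∈ Finset.range (m + 1), (3 / 4 : ℝ) ^ k * QQ m k u X' t₀ := by
  obtain ⟨Cu, hCu, hcu⟩ := close_up
  obtain ⟨C, δ, hC, hδ, hpe⟩ := pers
  obtain ⟨c, hc⟩ : ∃ c : ℝ, c = min (1 / (8 * Cu)) (min 1 ((1 / (16 * C)) ^ 2)) := ⟨_, rfl⟩
  have hc0 : 0 < c := by
    rw [hc]
    refine lt_min (by positivity) (lt_min one_pos (by positivity))
  have hc1 : Cu * c ≤ 1 / 8 := by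
    have : c ≤ 1 / (8 * Cu) := by rw [hc]; exact min_le_left _ _
    rw [le_div_iff₀ (by positivity)] at this
    linarith
  have hc2 : c ≤ 1 := by rw [hc]; exact (min_le_right _ _).trans (min_le_left _ _)
  have hc3 : C * √c ≤ 1 / 16 := by
    have h1 : c ≤ (1 / (16 * C)) ^ 2 := by rw [hc]; exact (min_le_right _ _).trans (min_le_right _ _)
    have h2 : √c ≤ 1 / (16 * C) := by
      rw [Real.sqrt_le_left (by positivity)]
      exact h1
    rw [le_div_iff₀ (by positivity)] at h2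
    linarith
  have hcs : c ≤ √c := by
    apply Real.le_sqrt_of_sq_le
    nlinarith
  refine ⟨c, δ, hc0, hδ, ?_⟩
  intro T E D G u p h m f hm hf hmE X Y X' Y' B C₁ B' C₁' hB' hBδ hP hP' t₀ h0 ht1 ht2 hF
  by_contra hcon
  push Not at hcon
  obtain ⟨hc4, hc5, hc6⟩ := hcon
  obtain ⟨S, hS⟩ : ∃ S, S = ∑ j ∈ Finset.range (f + 1), √(QQ (m + f) j u X t₀) := ⟨_, rfl⟩
  obtain ⟨W2, hW2⟩ : ∃ W2, W2 = ∑ j ∈ Finset.Ico (f + 1) (m + f + 1),
        (3 / 4 : ℝ) ^ (j - (f + 1)) * QQ (m + f) j u X t₀ := ⟨_, rfl⟩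
  obtain ⟨A', hA'⟩ : ∃ A', A' = ∑ k ∈ Finset.range (m + 1), (3 / 4 : ℝ) ^ k * QQ m k u X' t₀ :=
    ⟨_, rfl⟩
  obtain ⟨F', hF'⟩ : ∃ F', F' = FF m X' t₀ := ⟨_, rfl⟩
  rw [← hS] at hc4
  rw [← hW2] at hc5
  rw [← hA', ← hF'] at hc6
  have hF1 : 1 ≤ F' := by rw [hF']; exact FF_one _ _ _
  have hA0 : 0 ≤ A' := by
    rw [hA']
    exact Finset.sum_nonneg fun k _ => mul_nonneg (by positivity) (QQ_nn _ _ _ _ _)
  have hW20 : 0 ≤ W2 := by
    rw [hW2]
    exact Finset.sum_nonneg fun k _ => mul_nonneg (by positivity) (QQ_nn _ _ _ _ _)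
  obtain ⟨P, hPd⟩ : ∃ P : ℝ, P = 2 ^ f := ⟨_, rfl⟩
  have hP4 : (4 : ℝ) ^ f = P ^ 2 := by
    rw [hPd, ← pow_mul, mul_comm f 2, pow_mul]
    norm_num
  have hP2 : 2 ≤ P := by
    rw [hPd]
    calc (2 : ℝ) = 2 ^ 1 := by norm_num
      _ ≤ 2 ^ f := pow_le_pow_right₀ (by norm_num) hf
  rw [hP4] at hc5 hc6
  rw [← hPd] at hc4 hF
  obtain ⟨n, hn⟩ : ∃ n, n = m + f := ⟨_, rfl⟩
  have hr := rrp n
  have hrm := rrp m
  have hrmn : rr m = P * rr n := by rw [hPd, hn]; exact rr_add m f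
  obtain ⟨r, hrd⟩ : ∃ r, r = rr n := ⟨_, rfl⟩
  have hr0 : 0 < r := by rw [hrd]; exact hr
  rw [← hrd] at hrmn
  have hrle : r ^ 2 ≤ rr m ^ 2 := by
    rw [hrmn]
    have : r ≤ P * r := by nlinarith
    exact pow_le_pow_left₀ hr0.le this 2
  rw [← hn] at hP hF hS hW2
  have ht1' : 0 < t₀ - rr n ^ 2 := by rw [← hrd]; linarith
  have ht2' : t₀ + rr n ^ 2 < T := by rw [← hrd]; linarith
  have hX : ContinuousOn X G := hP.sm.continuousOn
  have hX' : ContinuousOn X' G := hP'.sm.continuousOn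
  -- the paths are close
  have hclose : ∀ τ, |τ - t₀| ≤ r ^ 2 → ‖X τ - X' τ‖ ≤ 1 / 8 * (P * r) := by
    intro τ hτ
    have hP'2 : FPath T (2 ^ f * rr n) B' C₁' G u p X' Y' := by
      rw [← hPd, ← hrd, ← hrmn]
      exact hP'
    have hS1 : Cu * S < P := by
      have : Cu * S ≤ Cu * (c * P) := mul_le_mul_of_nonneg_left hc4.le hCu.le
      nlinarith
    have h1 := hcu T E D G u p h n f X Y X' Y' B C₁ B' C₁' hP hP'2 t₀ h0 ht1' ht2'
      (by rw [← hS, ← hPd]; exact hS1) τ (by rw [← hrd]; exact hτ)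
    rw [← hS, ← hrd] at h1
    refine h1.trans ?_
    calc Cu * r * S = Cu * S * r := by ring
      _ ≤ (1 / 8 * P) * r := by
        refine mul_le_mul_of_nonneg_right ?_ hr0.le
        have : Cu * S ≤ Cu * (c * P) := mul_le_mul_of_nonneg_left hc4.le hCu.le
        nlinarith
      _ = _ := by ring
  -- the displacement of the larger path
  obtain ⟨τ, hτ, he⟩ := FF_att (n := n) (X := X) (t₀ := t₀) (path_ct hP ht1' ht2')
  rw [← hrd] at hτ he
  have hbig : 3 / 8 * (P * r) ≤ ‖X' τ - X' t₀‖ := by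
    have h1 : 1 / 2 * (P * r) ≤ ‖X τ - X t₀‖ := by
      rw [he]
      nlinarith
    have h2 : ‖X τ - X t₀‖ ≤ ‖X' τ - X' t₀‖ + ‖X τ - X' τ‖ := by
      rw [h0]
      have e : X τ - X' t₀ = (X' τ - X' t₀) + (X τ - X' τ) := by abel
      rw [e]
      exact norm_add_le _ _
    have h3 := hclose τ hτ
    linarith
  -- persistence
  obtain ⟨W', hW'⟩ : ∃ W', W' = ∫ τ in Ioo (t₀ - r ^ 2) (t₀ + r ^ 2), WW m (u τ) (X' τ) :=
    ⟨_, rfl⟩
  have hpers : ∀ τ, |τ - t₀| < r ^ 2 → ‖X' τ - X' t₀‖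
      ≤ C * (r ^ 2 / rr m * ((F' - 1) * rr m / rr m + (∫ τ in II m t₀, WW m (u τ) (X' τ))
        + √(∫ τ in II m t₀, WW m (u τ) (X' τ)) + rr m * (1 + E ^ 2)) + √(r ^ 2 * W')) := by
    intro τ hτ
    rw [hW']
    exact hpe T E D G u p h m hm X' Y' B' C₁' hB' hBδ hP' t₀ ht1 ht2 ((F' - 1) * rr m)
      (fun τ hτ => by rw [hF']; exact FF_le (path_ct hP' ht1 ht2) hτ) (r ^ 2) (by positivity)
      hrle τ hτ
  have hWQ := WW_QQ h hX' ht1 ht2
  obtain ⟨a', ha'⟩ : ∃ a', a' = ∫ τ in II m t₀, WW m (u τ) (X' τ) := ⟨_, rfl⟩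
  rw [← ha'] at hpers hWQ
  have haA : a' ≤ A' := by
    rw [hWQ, hA', Finset.sum_range_succ]
    have : 0 ≤ (3 / 4 : ℝ) ^ m * QQ m m u X' t₀ := mul_nonneg (by positivity) (QQ_nn _ _ _ _ _)
    linarith
  have hW'le : W' ≤ 4 * W2 := by
    have hWi : IntegrableOn (fun τ => WW m (u τ) (X' τ)) (Ioo (t₀ - r ^ 2) (t₀ + r ^ 2)) :=
      int_G h (WW_int h hX' m) (by linarith) (by linarith)
    have hgi : ∀ k, IntegrableOn (fun τ => (2 ^ (f + 1 + k) * rr n) ^ 2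
        * aa (u τ) (X τ) (8 * (2 ^ (f + 1 + k) * rr n))) (Ioo (t₀ - r ^ 2) (t₀ + r ^ 2)) := by
      intro k
      exact int_G h ((aa_int h hX (by positivity)).const_mul _) (by linarith) (by linarith)
    have hle : W' ≤ ∫ τ in Ioo (t₀ - r ^ 2) (t₀ + r ^ 2), ∑ k ∈ Finset.range m,
        4 * ((3 / 4 : ℝ) ^ k * ((2 ^ (f + 1 + k) * rr n) ^ 2
          * aa (u τ) (X τ) (8 * (2 ^ (f + 1 + k) * rr n)))) := by
      rw [hW']
      refine integral_mono_ae hWi (integrable_finsetSum _ fun k _ =>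
        ((hgi k).const_mul _).const_mul _) ?_
      filter_upwards [aeT h (s := t₀ - r ^ 2) (t := t₀ + r ^ 2) (by linarith) (by linarith),
        ae_restrict_mem measurableSet_Ioo] with τ hτG hτI
      show WW m (u τ) (X' τ) ≤ _
      unfold WW
      refine Finset.sum_le_sum fun k _ => ?_
      have hus : ContDiff ℝ ∞ (u τ) := (h.spv hτG).1
      have hcl := hclose τ (by
        rw [abs_le]
        constructor <;> linarith [hτI.1, hτI.2])
      have hk : (1 : ℝ) ≤ 2 ^ k := one_le_pow₀ (by norm_num)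
      have h1 := aa_mono hus (x := X' τ) (y := X τ) (ρ := 8 * (2 ^ k * rr m)) (by positivity) (by
        rw [norm_sub_rev]
        refine hcl.trans ?_
        rw [hrmn]
        have : P * r ≤ 2 ^ k * (P * r) := by nlinarith [mul_pos (show 0 < P by linarith) hr0]
        linarith [mul_pos (show 0 < P by linarith) hr0])
      have e1 : 2 * (8 * (2 ^ k * rr m)) = 8 * (2 ^ (f + 1 + k) * rr n) := by
        rw [hrmn, ← hrd, hPd, pow_add, pow_add]
        ring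
      rw [e1] at h1
      have e2 : (2 ^ k * rr m) ^ 2 * 16 = 4 * (2 ^ (f + 1 + k) * rr n) ^ 2 := by
        rw [hrmn, ← hrd, hPd, pow_add, pow_add]
        ring
      calc (3 / 4 : ℝ) ^ k * ((2 ^ k * rr m) ^ 2 * aa (u τ) (X' τ) (8 * (2 ^ k * rr m)))
          ≤ (3 / 4 : ℝ) ^ k * ((2 ^ k * rr m) ^ 2
            * (16 * aa (u τ) (X τ) (8 * (2 ^ (f + 1 + k) * rr n)))) := by gcongr
        _ = (3 / 4 : ℝ) ^ k * (((2 ^ k * rr m) ^ 2 * 16)
            * aa (u τ) (X τ) (8 * (2 ^ (f + 1 + k) * rr n))) := by ring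
        _ = _ := by rw [e2]; ring
    refine hle.trans (le_of_eq ?_)
    rw [integral_finsetSum _ fun k _ => ((hgi k).const_mul _).const_mul _, hW2,
      Finset.sum_Ico_eq_sum_range, Finset.mul_sum]
    have e3 : n + 1 - (f + 1) = m := by omega
    rw [e3]
    refine Finset.sum_congr rfl fun k _ => ?_
    rw [integral_const_mul, integral_const_mul]
    have e4 : f + 1 + k - (f + 1) = k := by omega
    rw [e4]
    unfold QQ II
    rw [← hrd]
  -- the conclusion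
  have hcl2 : ‖X' τ - X' t₀‖
      ≤ C * (r ^ 2 / rr m * ((F' - 1) * rr m / rr m + a' + √a' + rr m * (1 + E ^ 2))
        + √(r ^ 2 * W')) := by
    obtain ⟨R, hR⟩ : ∃ R, R = C * (r ^ 2 / rr m * ((F' - 1) * rr m / rr m + a' + √a'
      + rr m * (1 + E ^ 2)) + √(r ^ 2 * W')) := ⟨_, rfl⟩
    rw [← hR] at hpers ⊢
    have hcc : ContinuousOn (fun τ => ‖X' τ - X' t₀‖) (closure (Ioo (t₀ - r ^ 2) (t₀ + r ^ 2))) := by
      rw [closure_Ioo (by nlinarith)]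
      exact ((path_ct hP' (by linarith) (by linarith)).sub continuousOn_const).norm
    have h1 := hcc.image_closure
    have h2 : (fun τ => ‖X' τ - X' t₀‖) '' Ioo (t₀ - r ^ 2) (t₀ + r ^ 2) ⊆ Iic R := by
      rintro x ⟨s, hs, rfl⟩
      refine hpers s ?_
      rw [abs_lt]
      constructor <;> linarith [hs.1, hs.2]
    have h3 := closure_minimal h2 isClosed_Iic
    have h4 : τ ∈ closure (Ioo (t₀ - r ^ 2) (t₀ + r ^ 2)) := by
      rw [closure_Ioo (by nlinarith)]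
      rw [abs_le] at hτ
      constructor <;> linarith [hτ.1, hτ.2]
    exact h3 (h1 (mem_image_of_mem _ h4))
  have hsa : √a' ≤ √c * P := by
    have h1 : a' ≤ c * P ^ 2 := by linarith
    calc √a' ≤ √(c * P ^ 2) := Real.sqrt_le_sqrt h1
      _ = √c * P := by rw [Real.sqrt_mul hc0.le, Real.sqrt_sq (by linarith)]
  have hsw : √(r ^ 2 * W') ≤ r * (2 * (√c * P)) := by
    have h1 : r ^ 2 * W' ≤ (r * 2) ^ 2 * (c * P ^ 2) := by
      have : r ^ 2 * W' ≤ r ^ 2 * (4 * (c * P ^ 2)) := by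
        refine mul_le_mul_of_nonneg_left ?_ (by positivity)
        linarith
      linarith
    calc √(r ^ 2 * W') ≤ √((r * 2) ^ 2 * (c * P ^ 2)) := Real.sqrt_le_sqrt h1
      _ = r * (2 * (√c * P)) := by
        rw [Real.sqrt_mul (by positivity), Real.sqrt_mul hc0.le, Real.sqrt_sq (by linarith),
          Real.sqrt_sq (by positivity)]
        ring
  have hP0 : 0 < P := by linarith
  have e5 : r ^ 2 / rr m = r / P := by
    rw [hrmn]
    field_simp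
  have e6 : (F' - 1) * rr m / rr m = F' - 1 := by field_simp
  rw [e5, e6] at hcl2
  have h10 : r / P * (F' - 1 + a' + √a' + rr m * (1 + E ^ 2)) ≤ r * (c * P + √c * P) := by
    have h11 : F' - 1 + a' + √a' + rr m * (1 + E ^ 2) ≤ c * P ^ 2 + √c * P := by linarith
    calc r / P * (F' - 1 + a' + √a' + rr m * (1 + E ^ 2)) ≤ r / P * (c * P ^ 2 + √c * P) :=
          mul_le_mul_of_nonneg_left h11 (by positivity)
      _ = r * (c * P + √c) := by field_simp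
      _ ≤ r * (c * P + √c * P) := by
          have : √c ≤ √c * P := by nlinarith [Real.sqrt_nonneg c]
          gcongr
  have h12 : 3 / 8 * (P * r) ≤ C * (r * (c * P + √c * P) + r * (2 * (√c * P))) :=
    hbig.trans (hcl2.trans (mul_le_mul_of_nonneg_left (add_le_add h10 hsw) hC.le))
  have h13 : C * (r * (c * P + √c * P) + r * (2 * (√c * P))) ≤ 1 / 4 * (P * r) := by
    calc C * (r * (c * P + √c * P) + r * (2 * (√c * P)))
        ≤ C * (r * (√c * P + √c * P) + r * (2 * (√c * P))) := by gcongr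
      _ = (C * √c) * 4 * (P * r) := by ring
      _ ≤ (1 / 16) * 4 * (P * r) := by gcongr
      _ = _ := by ring
  have h14 : 0 < P * r := by positivity
  linarith

end Pool.Agent.K1H52
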