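import Pool.Agent.K1H52.EmbF
import Pool.Agent.K1H52.Tri

/-!
The embedding, integrated in time.
-/

set_option autoImplicit false
set_option linter.unusedVariables false

open MeasureTheory Set Metric Filter Topology
open scoped ContDiff ENNReal NNReal

namespace Pool.Agent.K1H52

open H459R3.NS W221.NS Pool.Agent.Y8

section

variable {T E D : ℝ} {G : Set ℝ} {u : ℝ → V → V} {p : ℝ → V → ℝ}

lemma II_meas (n : ℕ) (t₀ : ℝ) : MeasurableSet (II n t₀) := measurableSet_Ioo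

lemma set_G (h : Turb 1 T E D G u p) (F : ℝ → ℝ) {a b : ℝ} (ha : 0 ≤ a) (hb : b ≤ T) :
    ∫ τ in Ioo a b, F τ = ∫ τ in G, (Ioo a b).indicator F τ := by
  rw [setIntegral_indicator measurableSet_Ioo]
  refine (setIntegral_congr_set ?_).symm
  rw [ae_eq_set]
  constructor
  · have : (G ∩ Ioo a b) \ Ioo a b = ∅ := by
      ext t
      simp only [Set.mem_sdiff, mem_inter_iff, mem_empty_iff_false, iff_false]
      tauto
    rw [this]
    exact measure_empty
  · refine measure_mono_null ?_ h.fullG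
    intro t ht
    exact ⟨⟨ha.trans_lt ht.1.1, ht.1.2.trans_le hb⟩, fun hG => ht.2 ⟨hG, ht.1⟩⟩

end

/-- The embedding, integrated in time. -/
theorem emb_time (hE : S_EMB) : ∃ C : ℝ, 0 < C ∧ ∀ (T E D : ℝ) (G : Set ℝ) (u : ℝ → V → V)
    (p : ℝ → V → ℝ), Turb 1 T E D G u p → ∀ (α : Type) (Z : Finset α) (m : α → ℝ) (ℓ : ℕ → ℝ)
    (N n₀ : ℕ) (X : ℕ → α → ℝ → V) (t : α → ℝ) (x : α → V) (CF : ℝ), 0 ≤ CF →
    (∀ z ∈ Z, 0 ≤ m z) → (∀ n, 0 < ℓ n) →
    (∀ n, n₀ ≤ n → n ≤ N → ∀ z ∈ Z, ContinuousOn (X n z) G) → (∀ z ∈ Z, ‖x z‖ ≤ 1) →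
    (∀ n, n₀ ≤ n → ∀ z ∈ Z, 0 < t z - rr n ^ 2 ∧ t z + rr n ^ 2 < T) →
    (∀ n, n₀ ≤ n → n ≤ N → ∀ z ∈ Z, ∀ τ, |τ - t z| ≤ rr n ^ 2 →
      ‖X n z τ - x z‖ ≤ (FF n (X n z) (t z) - 1) * rr n) →
    (∀ n, n₀ ≤ n → n ≤ N → ∀ z ∈ Z, FF n (X n z) (t z) * rr n ≤ 1) →
    (∀ n, n₀ ≤ n → n ≤ N → ∀ (R s : ℝ) (y : V), rr n ≤ R →
      ∑ z ∈ Z with |t z - s| < R ^ 2 ∧ ‖x z - y‖ < R, m z ≤ CF * R * ℓ n) →
    ∀ k f : ℕ, ∑ n ∈ Finset.Icc (max n₀ k) N, (ℓ n)⁻¹ *
      ∑ z ∈ Z with 2 ^ f ≤ FF n (X n z) (t z) ∧ FF n (X n z) (t z) < 2 ^ (f + 1),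
        m z * QQ n k u (X n z) (t z) ≤ C * CF * D * max 1 (2 ^ f / 2 ^ k) := by
  classical
  obtain ⟨C, hC, hfix⟩ := emb_fix hE
  refine ⟨C, hC, ?_⟩
  intro T E D G u p h α Z m ℓ N n₀ X t x CF hCF hm hℓ hX hx ht hXF hF1 hFr k f
  obtain ⟨M, hM⟩ : ∃ M : ℝ, M = max 1 (2 ^ f / 2 ^ k) := ⟨_, rfl⟩
  have hM1 : 1 ≤ M := by rw [hM]; exact le_max_left _ _
  have hM2 : 2 ^ f / 2 ^ k ≤ M := by rw [hM]; exact le_max_right _ _
  rw [← hM]
  obtain ⟨P, hP⟩ : ∃ P : ℕ × α → Prop, P = fun i => 2 ^ f ≤ FF i.1 (X i.1 i.2) (t i.2) ∧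
    FF i.1 (X i.1 i.2) (t i.2) < 2 ^ (f + 1) := ⟨_, rfl⟩
  obtain ⟨J, hJ⟩ : ∃ J : Finset (ℕ × α), J = ((Finset.Icc (max n₀ k) N) ×ˢ Z).filter P := ⟨_, rfl⟩
  obtain ⟨w, hw⟩ : ∃ w : ℕ × α → ℝ, w = fun i => (ℓ i.1)⁻¹ * m i.2 := ⟨_, rfl⟩
  obtain ⟨g, hg⟩ : ∃ g : ℕ × α → ℝ → ℝ, g = fun i τ => (2 ^ k * rr i.1) ^ 2
    * aa (u τ) (X i.1 i.2 τ) (8 * (2 ^ k * rr i.1)) := ⟨_, rfl⟩
  have hJm : ∀ i ∈ J, (n₀ ≤ i.1 ∧ k ≤ i.1 ∧ i.1 ≤ N ∧ i.2 ∈ Z) ∧
      2 ^ f ≤ FF i.1 (X i.1 i.2) (t i.2) ∧ FF i.1 (X i.1 i.2) (t i.2) < 2 ^ (f + 1) := by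
    intro i hi
    rw [hJ, Finset.mem_filter, Finset.mem_product, Finset.mem_Icc, hP] at hi
    exact ⟨⟨(le_max_left _ _).trans hi.1.1.1, (le_max_right _ _).trans hi.1.1.1, hi.1.1.2,
      hi.1.2⟩, hi.2⟩
  have hw0 : ∀ i ∈ J, 0 ≤ w i := by
    intro i hi
    rw [hw]
    have := hℓ i.1
    have := hm i.2 (hJm i hi).1.2.2.2
    positivity
  have hg0 : ∀ i τ, 0 ≤ g i τ := fun i τ => by
    rw [hg]; exact mul_nonneg (sq_nonneg _) (aa_nn _ _ _)
  have hgi : ∀ i ∈ J, IntegrableOn (g i) G := by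
    intro i hi
    rw [hg]
    have := rrp i.1
    exact (aa_int h (hX i.1 (hJm i hi).1.1 (hJm i hi).1.2.2.1 i.2 (hJm i hi).1.2.2.2)
      (by positivity)).const_mul _
  -- the sum as an integral
  have e1 : ∑ n ∈ Finset.Icc (max n₀ k) N, (ℓ n)⁻¹ *
      ∑ z ∈ Z with 2 ^ f ≤ FF n (X n z) (t z) ∧ FF n (X n z) (t z) < 2 ^ (f + 1),
        m z * QQ n k u (X n z) (t z) = ∑ i ∈ J, w i * QQ i.1 k u (X i.1 i.2) (t i.2) := by
    rw [hJ, Finset.sum_filter, Finset.sum_product]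
    refine Finset.sum_congr rfl fun n _ => ?_
    rw [Finset.sum_filter, Finset.mul_sum]
    refine Finset.sum_congr rfl fun z _ => ?_
    rw [hP, hw]
    simp only
    split_ifs
    · ring
    · ring
  have e2 : ∀ i ∈ J, QQ i.1 k u (X i.1 i.2) (t i.2)
      = ∫ τ in G, (II i.1 (t i.2)).indicator (g i) τ := by
    intro i hi
    obtain ⟨⟨h1, h2, h3, h4⟩, -⟩ := hJm i hi
    have h5 := ht i.1 h1 i.2 h4
    unfold QQ
    rw [hg]
    exact set_G h _ h5.1.le h5.2.le
  rw [e1]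
  have e3 : ∑ i ∈ J, w i * QQ i.1 k u (X i.1 i.2) (t i.2)
      = ∫ τ in G, ∑ i ∈ J, w i * (II i.1 (t i.2)).indicator (g i) τ := by
    rw [integral_finsetSum _ fun i hi => ((hgi i hi).indicator (II_meas _ _)).const_mul _]
    refine Finset.sum_congr rfl fun i hi => ?_
    rw [integral_const_mul, e2 i hi]
  rw [e3]
  have hpt : ∀ τ ∈ G, ∑ i ∈ J, w i * (II i.1 (t i.2)).indicator (g i) τ
      ≤ C * CF * M * enstrophy (u τ) := by
    intro τ hτ
    obtain ⟨I, hI⟩ : ∃ I : Finset (ℕ × α), I = J.filter fun i => τ ∈ II i.1 (t i.2) := ⟨_, rfl⟩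
    have e4 : ∑ i ∈ J, w i * (II i.1 (t i.2)).indicator (g i) τ = ∑ i ∈ I, w i * g i τ := by
      rw [hI, Finset.sum_filter]
      refine Finset.sum_congr rfl fun i _ => ?_
      by_cases hi : τ ∈ II i.1 (t i.2)
      · rw [if_pos hi, indicator_of_mem hi]
      · rw [if_neg hi, indicator_of_notMem hi, mul_zero]
    have hIm : ∀ i ∈ I, i ∈ J ∧ |τ - t i.2| < rr i.1 ^ 2 := by
      intro i hi
      rw [hI, Finset.mem_filter] at hi
      refine ⟨hi.1, ?_⟩
      have := hi.2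
      rw [abs_lt]
      constructor <;> linarith [this.1, this.2]
    have e5 : ∀ i ∈ I, (8 : ℝ) / 2 ^ (i.1 - k) = 8 * (2 ^ k * rr i.1) := by
      intro i hi
      have h2 := (hJm i (hIm i hi).1).1.2.1
      obtain ⟨l, hl⟩ := Nat.exists_eq_add_of_le h2
      rw [hl, Nat.add_sub_cancel_left]
      unfold rr
      rw [pow_add, one_div, inv_pow, inv_pow]
      field_simp
    have key := hfix (u τ) (h.spv hτ) (ℕ × α) I (fun i => X i.1 i.2 τ) (fun i => i.1 - k) w
      (3 * CF * M) (by positivity) (by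
        intro i hi
        obtain ⟨hiJ, hit⟩ := hIm i hi
        obtain ⟨⟨h1, h2, h3, h4⟩, -⟩ := hJm i hiJ
        have h5 := hXF i.1 h1 h3 i.2 h4 τ hit.le
        have h6 := hF1 i.1 h1 h3 i.2 h4
        have h7 := hx i.2 h4
        have h8 : ‖X i.1 i.2 τ‖ ≤ ‖X i.1 i.2 τ - x i.2‖ + ‖x i.2‖ := by
          have h := norm_add_le (X i.1 i.2 τ - x i.2) (x i.2)
          rwa [sub_add_cancel] at h
        have := rrp i.1
        show ‖X i.1 i.2 τ‖ ≤ 2
        nlinarith) (fun i hi => hw0 i (hIm i hi).1) (by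
        intro l ρ y₀ hl
        have hρ : 0 < ρ := lt_of_lt_of_le (by positivity) hl
        by_cases hn : max n₀ k ≤ k + l ∧ k + l ≤ N
        · obtain ⟨n, hnd⟩ : ∃ n, n = k + l := ⟨_, rfl⟩
          rw [← hnd] at hn
          have hn0 : n₀ ≤ n := (le_max_left _ _).trans hn.1
          have hr := rrp n
          have hρn : 8 * (2 ^ k * rr n) ≤ ρ := by
            refine le_trans (le_of_eq ?_) hl
            rw [hnd]
            unfold rr
            rw [pow_add, one_div, inv_pow, inv_pow]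
            field_simp
          have hk1 : (1 : ℝ) ≤ 2 ^ k := one_le_pow₀ (by norm_num)
          have hrρ : rr n ≤ ρ := by nlinarith
          have hR : rr n ≤ 3 * M * ρ := by nlinarith
          obtain ⟨B, hB⟩ : ∃ B : Finset α, B = Z.filter fun z => |t z - τ| < (3 * M * ρ) ^ 2 ∧
            ‖x z - y₀‖ < 3 * M * ρ := ⟨_, rfl⟩
          have hsub : (I.filter fun i => i.1 - k = l ∧ ‖X i.1 i.2 τ - y₀‖ < 2 * ρ)
              ⊆ ({n} : Finset ℕ) ×ˢ B := by
            intro i hi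
            rw [Finset.mem_filter] at hi
            obtain ⟨hiI, hil, hiy⟩ := hi
            obtain ⟨hiJ, hit⟩ := hIm i hiI
            obtain ⟨⟨h1, h2, h3, h4⟩, h5, h6⟩ := hJm i hiJ
            have hin : i.1 = n := by omega
            rw [Finset.mem_product, Finset.mem_singleton, hB, Finset.mem_filter]
            refine ⟨hin, h4, ?_, ?_⟩
            · rw [abs_sub_comm]
              refine hit.trans_le ?_
              rw [hin]
              exact pow_le_pow_left₀ hr.le hR 2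
            · have h7 := hXF i.1 h1 h3 i.2 h4 τ hit.le
              have h8 : ‖x i.2 - y₀‖ ≤ ‖X i.1 i.2 τ - x i.2‖ + ‖X i.1 i.2 τ - y₀‖ := by
                rw [norm_sub_rev (X i.1 i.2 τ) (x i.2)]
                have h := norm_add_le (x i.2 - X i.1 i.2 τ) (X i.1 i.2 τ - y₀)
                rwa [sub_add_sub_cancel] at h
              have h9 : 2 ^ (f + 1) * rr n ≤ M * ρ / 4 := by
                have e : (2 : ℝ) ^ (f + 1) * rr n = 2 * (2 ^ f / 2 ^ k) * (2 ^ k * rr n) := by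
                  rw [pow_succ]
                  field_simp
                rw [e]
                calc 2 * (2 ^ f / 2 ^ k) * (2 ^ k * rr n) ≤ 2 * M * (ρ / 8) := by
                      gcongr
                      linarith
                  _ = _ := by ring
              have h10 : (FF i.1 (X i.1 i.2) (t i.2) - 1) * rr i.1 ≤ 2 ^ (f + 1) * rr n := by
                rw [hin] at h6 ⊢
                nlinarith
              have h11 : ρ ≤ M * ρ := by nlinarith
              linarith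
          calc ∑ i ∈ I with i.1 - k = l ∧ ‖X i.1 i.2 τ - y₀‖ < 2 * ρ, w i
              ≤ ∑ i ∈ ({n} : Finset ℕ) ×ˢ B, w i := by
                refine Finset.sum_le_sum_of_subset_of_nonneg hsub fun i hi _ => ?_
                rw [Finset.mem_product, hB, Finset.mem_filter] at hi
                rw [hw]
                have := hℓ i.1
                have := hm i.2 hi.2.1
                positivity
            _ = (ℓ n)⁻¹ * ∑ z ∈ B, m z := by
                rw [Finset.sum_product, Finset.sum_singleton, hw, Finset.mul_sum]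
            _ ≤ (ℓ n)⁻¹ * (CF * (3 * M * ρ) * ℓ n) := by
                have := hℓ n
                refine mul_le_mul_of_nonneg_left ?_ (by positivity)
                rw [hB]
                exact hFr n hn0 hn.2 (3 * M * ρ) τ y₀ hR
            _ = 3 * CF * M * ρ := by
                have := (hℓ n).ne'
                field_simp
        · have e6 : (I.filter fun i => i.1 - k = l ∧ ‖X i.1 i.2 τ - y₀‖ < 2 * ρ) = ∅ := by
            refine Finset.filter_eq_empty_iff.2 fun i hi hil => ?_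
            obtain ⟨hiJ, -⟩ := hIm i hi
            obtain ⟨⟨h1, h2, h3, h4⟩, -⟩ := hJm i hiJ
            apply hn
            have h5 := hil.1
            have h6 : i.1 = k + l := by omega
            rw [← h6]
            exact ⟨max_le h1 h2, h3⟩
          rw [e6, Finset.sum_empty]
          positivity)
    rw [e4]
    have e7 : ∑ i ∈ I, w i * g i τ = 1 / 64 * ∑ i ∈ I, w i * ((8 / 2 ^ (i.1 - k)) ^ 2
        * aa (u τ) (X i.1 i.2 τ) (8 / 2 ^ (i.1 - k))) := by
      rw [Finset.mul_sum]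
      refine Finset.sum_congr rfl fun i hi => ?_
      rw [e5 i hi, hg]
      ring
    rw [e7]
    have hen : 0 ≤ enstrophy (u τ) := enst_nn _
    have h12 : 0 ≤ C * CF * M * enstrophy (u τ) := by positivity
    have h13 : C * (3 * CF * M) * enstrophy (u τ) = 3 * (C * CF * M * enstrophy (u τ)) := by ring
    rw [h13] at key
    linarith
  calc ∫ τ in G, ∑ i ∈ J, w i * (II i.1 (t i.2)).indicator (g i) τ
      ≤ ∫ τ in G, C * CF * M * enstrophy (u τ) := by
        refine integral_mono_ae (integrable_finsetSum _ fun i hi =>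
          ((hgi i hi).indicator (II_meas _ _)).const_mul _) (h.enst_int.const_mul _) ?_
        filter_upwards [ae_restrict_mem h.openG.measurableSet] with τ hτ
        exact hpt τ hτ
    _ = C * CF * M * ∫ τ in G, enstrophy (u τ) := integral_const_mul _ _
    _ ≤ C * CF * M * D := mul_le_mul_of_nonneg_left h.enst_le (by positivity)
    _ = _ := by ring

end Pool.Agent.K1H52
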