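import Pool.Agent.K1H52.Osc
import Pool.Agent.Y153.NS.HBD
import Pool.Agent.Y8.Asm2

/-!
Bounds at one time for the mean velocity and its time derivative in the moving frame, by the
weighted local dissipation.
-/

set_option autoImplicit false
set_option linter.unusedVariables false

open MeasureTheory Set Metric Filter Topology
open scoped ContDiff ENNReal NNReal

namespace Pool.Agent.K1H52

open H459R3.NS W221.NS Pool.Agent.Y8

/-- The weighted local dissipation around `x` at the scales `2 ^ k * rr n`. -/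
noncomputable def WW (n : ℕ) (u : V → V) (x : V) : ℝ :=
  ∑ k ∈ Finset.range n, (3 / 4 : ℝ) ^ k * ((2 ^ k * rr n) ^ 2 * aa u x (8 * (2 ^ k * rr n)))

lemma WW_nn (n : ℕ) (u : V → V) (x : V) : 0 ≤ WW n u x :=
  Finset.sum_nonneg fun k _ => mul_nonneg (by positivity) (mul_nonneg (by positivity) (aa_nn _ _ _))

lemma rrp (n : ℕ) : 0 < rr n := Pool.Agent.Y153.NS.rr_pos n

lemma nsq_add_le (a b : V → V) (y : V) :
    nsq (fun y => a y + b y) y ≤ 2 * nsq a y + 2 * nsq b y := by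
  unfold nsq
  rw [Finset.mul_sum, Finset.mul_sum, ← Finset.sum_add_distrib]
  refine Finset.sum_le_sum fun i _ => ?_
  show (a y i + b y i) ^ 2 ≤ _
  nlinarith [sq_nonneg (a y i - b y i)]

lemma nsq_const_le (c : V) (y : V) : nsq (fun _ => c) y ≤ 3 * ‖c‖ ^ 2 := by
  unfold nsq
  have h : ∀ i, c i ^ 2 ≤ ‖c‖ ^ 2 := fun i => by
    rw [← sq_abs]
    exact pow_le_pow_left₀ (abs_nonneg _) (norm_le_pi_norm c i) 2
  calc ∑ i, c i ^ 2 ≤ ∑ _i : Fin 3, ‖c‖ ^ 2 := Finset.sum_le_sum fun i _ => h i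
    _ = 3 * ‖c‖ ^ 2 := by simp

/-- The sum of the oscillations. -/
lemma sum_sq_le {n : ℕ} (u : V → V) (x : V) {k : ℕ} (hk : k < n) :
    (∑ j ∈ Finset.range (k + 1), 2 ^ j * rr n * √(aa u x (8 * (2 ^ j * rr n)))) ^ 2
      ≤ 4 * (4 / 3) ^ k * WW n u x := by
  have h1 := Finset.sum_sq_le_sum_mul_sum_of_sq_le_mul (Finset.range (k + 1))
    (r := fun j => 2 ^ j * rr n * √(aa u x (8 * (2 ^ j * rr n))))
    (f := fun j => (4 / 3 : ℝ) ^ j)
    (g := fun j => (3 / 4 : ℝ) ^ j * ((2 ^ j * rr n) ^ 2 * aa u x (8 * (2 ^ j * rr n))))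
    (fun j _ => by positivity)
    (fun j _ => mul_nonneg (by positivity) (mul_nonneg (by positivity) (aa_nn _ _ _)))
    (fun j _ => by
      refine le_of_eq ?_
      rw [mul_pow (2 ^ j * rr n), Real.sq_sqrt (aa_nn _ _ _), ← mul_assoc ((4 / 3 : ℝ) ^ j),
        ← mul_pow (4 / 3 : ℝ)]
      norm_num)
  refine h1.trans ?_
  have h2 : ∑ j ∈ Finset.range (k + 1), (4 / 3 : ℝ) ^ j ≤ 4 * (4 / 3) ^ k := by
    rw [geom_sum_eq (by norm_num)]
    rw [pow_succ]
    have : (0 : ℝ) < (4 / 3) ^ k := by positivity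
    rw [div_le_iff₀ (by norm_num)]
    nlinarith
  have h3 : ∑ j ∈ Finset.range (k + 1), (3 / 4 : ℝ) ^ j *
      ((2 ^ j * rr n) ^ 2 * aa u x (8 * (2 ^ j * rr n))) ≤ WW n u x := by
    refine Finset.sum_le_sum_of_subset_of_nonneg ?_ fun j _ _ =>
      mul_nonneg (by positivity) (mul_nonneg (by positivity) (aa_nn _ _ _))
    exact Finset.range_subset_range.2 hk
  exact mul_le_mul h2 h3 (Finset.sum_nonneg fun j _ =>
    mul_nonneg (by positivity) (mul_nonneg (by positivity) (aa_nn _ _ _))) (by positivity)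

/-- Comparison of the means at the scales `r` and `2 ^ k * r`. -/
theorem mo_tel : ∃ C : ℝ, 0 < C ∧ ∀ u : V → V, ContDiff ℝ ∞ u → ∀ (x : V) (r : ℝ), 0 < r →
    ∀ k : ℕ, ‖mo (2 ^ k * r) u x - mo r u x‖
      ≤ C * ∑ j ∈ Finset.range (k + 1), 2 ^ j * r * √(aa u x (8 * (2 ^ j * r))) := by
  obtain ⟨C, hC, hm⟩ := modiff
  refine ⟨C, hC, fun u hu x r hr k => ?_⟩
  induction k with
  | zero =>
    simp only [pow_zero, one_mul, sub_self, norm_zero]
    refine mul_nonneg hC.le (Finset.sum_nonneg fun j _ => by positivity)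
  | succ k ih =>
    have h1 := hm u hu x x (2 ^ (k + 1) * r) (1 / 2) (by positivity) (by norm_num) (by norm_num)
      (by simp; positivity)
    have e : 2 ^ (k + 1) * r * (1 / 2) = 2 ^ k * r := by rw [pow_succ]; ring
    rw [e, norm_sub_rev] at h1
    rw [Finset.sum_range_succ, mul_add]
    calc ‖mo (2 ^ (k + 1) * r) u x - mo r u x‖
        = ‖(mo (2 ^ k * r) u x - mo r u x) + (mo (2 ^ (k + 1) * r) u x - mo (2 ^ k * r) u x)‖ := by
          congr 1; abel
      _ ≤ _ := (norm_add_le _ _).trans (add_le_add ih h1)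

/-- The deviation from the mean at the scale `rr n` on larger balls. -/
theorem WA2 : ∃ C : ℝ, 0 < C ∧ ∀ u : V → V, ContDiff ℝ ∞ u → ∀ (n k : ℕ) (x : V), k < n →
    A2 x (2 ^ k * rr n) (fun y => u y - mo (rr n) u x)
      ≤ C * ((2 ^ k * rr n) ^ 3 * ((4 / 3) ^ k * WW n u x)) := by
  obtain ⟨C₁, hC₁, h1⟩ := A2osc
  obtain ⟨C₂, hC₂, h2⟩ := mo_tel
  refine ⟨8 * C₁ + 192 * C₂ ^ 2, by positivity, fun u hu n k x hk => ?_⟩
  have hr := rrp n
  obtain ⟨R, hR⟩ : ∃ R, R = 2 ^ k * rr n := ⟨_, rfl⟩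
  have hR0 : 0 < R := by rw [hR]; positivity
  have hW := WW_nn n u x
  have a1 := h1 u hu x R hR0
  have a2 := h2 u hu x (rr n) hr k
  have a3 := sum_sq_le u x hk
  obtain ⟨S, hS⟩ : ∃ S, S = ∑ j ∈ Finset.range (k + 1), 2 ^ j * rr n *
      √(aa u x (8 * (2 ^ j * rr n))) := ⟨_, rfl⟩
  rw [← hS] at a2 a3
  rw [← hR] at a2 ⊢
  have hS0 : 0 ≤ S := by
    rw [hS]; exact Finset.sum_nonneg fun j _ => by positivity
  have a4 : R ^ 2 * aa u x (8 * R) ≤ S ^ 2 := by
    have h3 : R * √(aa u x (8 * R)) ≤ S := by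
      rw [hS, hR]
      exact Finset.single_le_sum (f := fun j => 2 ^ j * rr n * √(aa u x (8 * (2 ^ j * rr n))))
        (fun j _ => by positivity) (Finset.mem_range.2 (Nat.lt_succ_self k))
    have h4 := pow_le_pow_left₀ (by positivity) h3 2
    rwa [mul_pow, Real.sq_sqrt (aa_nn _ _ _)] at h4
  obtain ⟨d, hd⟩ : ∃ d : V, d = mo R u x - mo (rr n) u x := ⟨_, rfl⟩
  have hnc : Continuous (nsq (fun y => u y - mo R u x)) :=
    (nsq_sm (hu.sub contDiff_const)).continuous
  have hnn : Continuous (nsq (fun y => u y - mo (rr n) u x)) :=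
    (nsq_sm (hu.sub contDiff_const)).continuous
  have a5 : A2 x R (fun y => u y - mo (rr n) u x)
      ≤ 2 * A2 x R (fun y => u y - mo R u x) + 6 * ‖d‖ ^ 2 * (8 * R ^ 3) := by
    have h3 : ∀ y, nsq (fun y => u y - mo (rr n) u x) y
        ≤ 2 * nsq (fun y => u y - mo R u x) y + 6 * ‖d‖ ^ 2 := by
      intro y
      have h4 := nsq_add_le (fun y => u y - mo R u x) (fun _ => d) y
      have h5 := nsq_const_le d y
      have e : (fun y => (fun y => u y - mo R u x) y + (fun _ => d) y)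
          = fun y => u y - mo (rr n) u x := by
        funext y
        rw [hd]
        simp
      rw [e] at h4
      linarith
    unfold A2
    calc ∫ y in ball x R, nsq (fun y => u y - mo (rr n) u x) y
        ≤ ∫ y in ball x R, (2 * nsq (fun y => u y - mo R u x) y + 6 * ‖d‖ ^ 2) := by
          refine setIntegral_mono (ballint hnn _ _)
            (ballint ((continuous_const.mul hnc).add continuous_const) _ _) h3
      _ = _ := by
          have i1 : IntegrableOn (fun y => 2 * nsq (fun y => u y - mo R u x) y) (ball x R) :=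
            ballint (continuous_const.mul hnc) _ _
          have i2 : IntegrableOn (fun _ : V => 6 * ‖d‖ ^ 2) (ball x R) :=
            ballint continuous_const _ _
          have i3 : ∫ _ in ball x R, 6 * ‖d‖ ^ 2 = 6 * ‖d‖ ^ 2 * (8 * R ^ 3) := by
            rw [← Pool.Agent.Y153.NS.vol_ball x hR0, ← integral_const_mul]
            simp
          rw [integral_add i1 i2, integral_const_mul, i3]
  have a6 : ‖d‖ ^ 2 ≤ C₂ ^ 2 * S ^ 2 := by
    rw [← mul_pow]
    refine pow_le_pow_left₀ (norm_nonneg _) ?_ 2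
    rw [hd]
    exact a2
  have hR3 : 0 < R ^ 3 := by positivity
  calc A2 x R (fun y => u y - mo (rr n) u x)
      ≤ 2 * (C₁ * (R ^ 3 * S ^ 2)) + 6 * (C₂ ^ 2 * S ^ 2) * (8 * R ^ 3) := by
        refine a5.trans (add_le_add ?_ ?_)
        · refine mul_le_mul_of_nonneg_left (a1.trans ?_) (by norm_num)
          gcongr
        · gcongr
    _ = (2 * C₁ + 48 * C₂ ^ 2) * (R ^ 3 * S ^ 2) := by ring
    _ ≤ (2 * C₁ + 48 * C₂ ^ 2) * (R ^ 3 * (4 * (4 / 3) ^ k * WW n u x)) := by gcongr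
    _ = _ := by ring

lemma geo23 (n : ℕ) : ∑ k ∈ Finset.range n, (2 / 3 : ℝ) ^ k ≤ 3 := by
  have h := Pool.Agent.Y458.NS.geo (q := 2 / 3) (by norm_num) (by norm_num) n
  refine h.trans (by norm_num)

open Pool.Agent.Y153.NS in
/-- The weighted oscillation is bounded by the weighted local dissipation. -/
theorem WWosc : ∃ C : ℝ, 0 < C ∧ ∀ u : V → V, ContDiff ℝ ∞ u → ∀ n : ℕ, 1 ≤ n → ∀ x : V,
    W2 n x (fun y => u y - mo (rr n) u x) ≤ C * (WW n u x / rr n) ∧
      ∑ k ∈ (Finset.range n).filter (fun k => k ≤ n), ((2 ^ k * rr n) ^ 4)⁻¹ *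
        A2 x (2 ^ k * rr n) (fun y => u y - mo (rr n) u x) ≤ C * (WW n u x / rr n) := by
  obtain ⟨C, hC, h⟩ := WA2
  refine ⟨192 * C, by positivity, fun u hu n hn x => ?_⟩
  have hr := rrp n
  have hW := WW_nn n u x
  have hA : ∀ k, 0 ≤ A2 x (2 ^ k * rr n) (fun y => u y - mo (rr n) u x) := fun k =>
    integral_nonneg fun y => nsq_nn _ y
  have key : ∀ k ∈ Finset.range n, ((2 ^ k * rr n) ^ 4)⁻¹ *
      A2 x (2 ^ k * rr n) (fun y => u y - mo (rr n) u x)
        ≤ C * (WW n u x / rr n) * (2 / 3) ^ k := by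
    intro k hk
    rw [Finset.mem_range] at hk
    have h1 := h u hu n k x hk
    calc ((2 ^ k * rr n) ^ 4)⁻¹ * A2 x (2 ^ k * rr n) (fun y => u y - mo (rr n) u x)
        ≤ ((2 ^ k * rr n) ^ 4)⁻¹ * (C * ((2 ^ k * rr n) ^ 3 * ((4 / 3) ^ k * WW n u x))) :=
          mul_le_mul_of_nonneg_left h1 (by positivity)
      _ = C * (WW n u x / rr n) * (2 / 3) ^ k := by
          have e : (2 / 3 : ℝ) ^ k = (4 / 3) ^ k / 2 ^ k := by
            rw [← div_pow]; norm_num
          rw [e]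
          field_simp
  have hsum : ∑ k ∈ Finset.range n, ((2 ^ k * rr n) ^ 4)⁻¹ *
      A2 x (2 ^ k * rr n) (fun y => u y - mo (rr n) u x) ≤ 3 * C * (WW n u x / rr n) := by
    refine (Finset.sum_le_sum key).trans ?_
    rw [← Finset.mul_sum]
    have h0 : 0 ≤ C * (WW n u x / rr n) := by positivity
    nlinarith [geo23 n]
  constructor
  · have h1 := dy_all hn 6 x (nsq_sm (sub_sm hu (mo (rr n) u x))).continuous
      (nsq_nn (fun y => u y - mo (rr n) u x))
    have h2 : ∑ k ∈ Finset.range n, ((2 ^ k * rr n) ^ 6)⁻¹ *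
        ∫ y in ball x (2 ^ k * rr n), nsq (fun y => u y - mo (rr n) u x) y
        ≤ (rr n ^ 2)⁻¹ * ∑ k ∈ Finset.range n, ((2 ^ k * rr n) ^ 4)⁻¹ *
          A2 x (2 ^ k * rr n) (fun y => u y - mo (rr n) u x) := by
      rw [Finset.mul_sum]
      refine Finset.sum_le_sum fun k _ => ?_
      rw [← mul_assoc]
      refine mul_le_mul_of_nonneg_right ?_ (hA k)
      rw [← mul_inv]
      refine inv_anti₀ (by positivity) ?_
      have h3 : rr n ≤ 2 ^ k * rr n := by
        have : (1 : ℝ) ≤ 2 ^ k := one_le_pow₀ (by norm_num)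
        nlinarith
      have h4 : rr n ^ 2 ≤ (2 ^ k * rr n) ^ 2 := pow_le_pow_left₀ hr.le h3 2
      calc rr n ^ 2 * (2 ^ k * rr n) ^ 4 ≤ (2 ^ k * rr n) ^ 2 * (2 ^ k * rr n) ^ 4 := by gcongr
        _ = _ := by ring
    unfold W2
    calc rr n ^ 2 * ∫ y in ball x (1 / 2), nsq (fun y => u y - mo (rr n) u x) y *
          ((rr n + ‖y - x‖) ^ 6)⁻¹
        ≤ rr n ^ 2 * (2 ^ 6 * ((rr n ^ 2)⁻¹ * (3 * C * (WW n u x / rr n)))) := by
          refine mul_le_mul_of_nonneg_left (h1.trans ?_) (by positivity)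
          refine mul_le_mul_of_nonneg_left (h2.trans ?_) (by positivity)
          exact mul_le_mul_of_nonneg_left hsum (by positivity)
      _ = 192 * C * (WW n u x / rr n) := by
          field_simp
          ring
  · have e : (Finset.range n).filter (fun k => k ≤ n) = Finset.range n := by
      ext k
      simp only [Finset.mem_filter, Finset.mem_range]
      omega
    rw [e]
    refine hsum.trans ?_
    have h0 : 0 ≤ C * (WW n u x / rr n) := by positivity
    nlinarith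

end Pool.Agent.K1H52
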