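import Pool.Agent.K1H52.Fix
import Pool.Agent.Y494.NS.KER2

/-!
The time derivative of the mean velocity in the moving frame, and the comparison of the two means.
-/

set_option autoImplicit false
set_option linter.unusedVariables false

open MeasureTheory Set Metric Filter Topology
open scoped ContDiff ENNReal NNReal

namespace Pool.Agent.K1H52

open H459R3.NS W221.NS Pool.Agent.Y8

lemma sub_spv {u : V → V} (hu : SPV u) (c : V) : SPV (fun y => u y - c) := by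
  refine ⟨hu.1.sub contDiff_const, ?_⟩
  intro k x
  show u _ - c = u x - c
  rw [hu.2 k x]

lemma sub_div {u : V → V} (hu : ContDiff ℝ ∞ u)
    (hdiv : ∀ x, ∑ i, pd i (fun y => u y i) x = 0) (c : V) :
    ∀ x, ∑ i, pd i (fun y => (u y - c) i) x = 0 := by
  intro x
  rw [← hdiv x]
  refine Finset.sum_congr rfl fun i _ => ?_
  unfold pd
  have e : (fun y => (u y - c) i) = fun y => u y i - c i := rfl
  rw [e, fderiv_sub_const]

lemma cube_vol : (volume : Measure V).real cube = 1 := by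
  have h : volume cube = 1 := by
    have : cube = Icc (0 : V) 1 := rfl
    rw [this, Real.volume_Icc_pi]
    simp
  simp [Measure.real, h]

lemma sub_energy {u : V → V} (hu : SPV u) (c : V) :
    energy (fun y => u y - c) ≤ 2 * energy u + 6 * ‖c‖ ^ 2 := by
  have hc : Continuous (nsq u) := (nsq_sm hu.1).continuous
  have hc2 : Continuous (nsq (fun y => u y - c)) := (nsq_sm (hu.1.sub contDiff_const)).continuous
  rw [energy_eq hu.1, energy_eq (hu.1.sub contDiff_const)]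
  have h3 : ∀ y, nsq (fun y => u y - c) y ≤ 2 * nsq u y + 6 * ‖c‖ ^ 2 := by
    intro y
    have h4 := nsq_add_le u (fun _ => -c) y
    have h5 := nsq_const_le (-c) y
    have e : (fun y => u y + (fun _ => -c) y) = fun y => u y - c := by
      funext y
      simp [sub_eq_add_neg]
    rw [e] at h4
    rw [norm_neg] at h5
    linarith
  have i1 : IntegrableOn (fun y => 2 * nsq u y) cube := cube_int (continuous_const.mul hc)
  have i2 : IntegrableOn (fun _ : V => 6 * ‖c‖ ^ 2) cube := cube_int continuous_const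
  calc ∫ y in cube, nsq (fun y => u y - c) y ≤ ∫ y in cube, (2 * nsq u y + 6 * ‖c‖ ^ 2) :=
        setIntegral_mono (cube_int hc2) (i1.add i2) h3
    _ = _ := by
        rw [integral_add i1 i2, integral_const_mul, setIntegral_const, cube_vol]
        simp

open Pool.Agent.Y153.NS in
/-- The time derivative of the mean velocity in the moving frame. -/
theorem hbd : ∃ C : ℝ, 0 < C ∧ ∀ u : V → V, SPV u →
    (∀ x, ∑ i, pd i (fun y => u y i) x = 0) → ∀ n : ℕ, 2 ≤ n → ∀ (x : V) (l : Fin 3),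
      |HH (rr n) (fun y => u y - mo (rr n) u x) x l| ≤ C * (WW n u x / rr n
        + √(WW n u x) / rr n ^ 2 + 1 + energy u + ‖mo (rr n) u x‖ ^ 2) := by
  obtain ⟨C, hC, hK⟩ := KB_ex Pool.Agent.Y494.NS.Ker.t_KER2
  obtain ⟨Cz, hCz, hz⟩ := CO_ex
  obtain ⟨D, hD, hP⟩ := WWosc
  refine ⟨64 * C * √D + 8 * C + 18 * C + 3 * C * D + 144 * C * D + 6 * C + 24 * C,
    by positivity, fun u hu hdiv n hn x l => ?_⟩
  have hr := rrp n
  have hn1 : 1 ≤ n := by omega
  obtain ⟨c, hc⟩ : ∃ c, c = mo (rr n) u x := ⟨_, rfl⟩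
  obtain ⟨v, hv⟩ : ∃ v : V → V, v = fun y => u y - c := ⟨_, rfl⟩
  have hvs : SPV v := by rw [hv]; exact sub_spv hu c
  have hvd : ∀ x, ∑ i, pd i (fun y => v y i) x = 0 := by rw [hv]; exact sub_div hu.1 hdiv c
  have hve : energy v ≤ 2 * energy u + 6 * ‖c‖ ^ 2 := by rw [hv]; exact sub_energy hu c
  obtain ⟨ζ, hζ⟩ := hz (2 ^ n * rr n) (by positivity) x
  have hk := hK (rr n) hr (Pool.Agent.Y153.NS.rr_le n) x
  obtain ⟨hP2, hP1⟩ := hP u hu.1 n hn1 x
  rw [← hc, ← hv] at hP2 hP1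
  rw [← hc, ← hv]
  have e00 : (fun y => v y - (0 : V)) = v := by funext y; simp
  have hid := HH_id (c := 0) hvs.1 hvd hk.sG hk.sE hζ.sm hk.zG hk.zE l
  have e0 : HH (rr n) v x l = ∑ i, ∫ y, (v y i * lap (ph (fun z => gg (rr n) (z - x)) l i) y
      + v y i * adv v (ph (fun z => gg (rr n) (z - x)) l i) y) := rfl
  rw [e0, hid]
  have a1 := b1 (c := 0) hn1 hC.le hvs.1 hk l
  have a2 := b2 hC.le hvs hk l
  have a3 := b3 hC.le hvs hk l
  have a4 := b4 (c := 0) hvs.1 hk l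
  have a5 := b5 (c := 0) hn1 hC.le hvs.1 hk l
  have a6 := b6 hn1 hC.le hvs.1 hk hζ l
  have a7 := b7 (c := 0) hn1 hC.le hvs.1 hk hζ l
  have a8 := b8 (c := 0) hC.le hCz.le hvs.1 hk hζ l
  have hNF : NF n n v x = 0 := by
    unfold NF
    have : (Finset.range n).filter (fun k => n ≤ k) = ∅ := by
      ext k
      simp
    rw [this, Finset.sum_empty]
  rw [e00] at a1 a4 a5 a7
  rw [norm_zero, zero_mul, mul_zero] at a5
  rw [hNF, mul_zero] at a6
  rw [hNF, norm_zero] at a8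
  simp only [ne_eq, OfNat.ofNat_ne_zero, not_false_eq_true, zero_pow, zero_div, mul_zero,
    add_zero] at a8
  have hW0 := W2_nn n x v
  have hWW := WW_nn n u x
  have hen := energy_nn u
  have s1 : √(W2 n x v) / √(rr n ^ 3) ≤ √D * (√(WW n u x) / rr n ^ 2) := by
    rw [← Real.sqrt_div hW0]
    have e : √D * (√(WW n u x) / rr n ^ 2) = √(D * WW n u x / (rr n ^ 2) ^ 2) := by
      rw [Real.sqrt_div (by positivity), Real.sqrt_sq (by positivity), Real.sqrt_mul hD.le]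
      ring
    rw [e]
    apply Real.sqrt_le_sqrt
    calc W2 n x v / rr n ^ 3 ≤ D * (WW n u x / rr n) / rr n ^ 3 := by gcongr
      _ = _ := by field_simp
  obtain ⟨X1, hX1⟩ : ∃ X, X = √(WW n u x) / rr n ^ 2 := ⟨_, rfl⟩
  obtain ⟨X2, hX2⟩ : ∃ X, X = WW n u x / rr n := ⟨_, rfl⟩
  have x1 : 0 ≤ X1 := by rw [hX1]; positivity
  have x2 : 0 ≤ X2 := by rw [hX2]; positivity
  have x3 : 0 ≤ ‖c‖ ^ 2 := by positivity
  rw [← hX1] at s1 ⊢
  rw [← hX2] at hP2 hP1 ⊢
  have fin : ∀ (y1 y2 y3 y4 y5 y6 y7 y8 z1 z2 z3 z4 z5 z6 z7 z8 : ℝ), |y1| ≤ z1 → |y2| ≤ z2 →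
      |y3| ≤ z3 → |y4| ≤ z4 → |y5| ≤ z5 → |y6| ≤ z6 → |y7| ≤ z7 → |y8| ≤ z8 →
      |y1 - y2 - y3 + y4 + y5 + y6 + y7 - y8| ≤ z1 + z2 + z3 + z4 + z5 + z6 + z7 + z8 := by
    intro y1 y2 y3 y4 y5 y6 y7 y8 z1 z2 z3 z4 z5 z6 z7 z8 g1 g2 g3 g4 g5 g6 g7 g8
    rw [abs_le] at *
    constructor <;> linarith [g1.1, g1.2, g2.1, g2.2, g3.1, g3.2, g4.1, g4.2, g5.1, g5.2,
      g6.1, g6.2, g7.1, g7.2, g8.1, g8.2]
  refine (fin _ _ _ _ _ _ _ _ _ _ _ _ _ _ _ _ a1 a2 a3 a4 a5 a6 a7 a8).trans ?_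
  have t1 : 64 * C * (√(W2 n x v) / √(rr n ^ 3)) ≤ 64 * C * (√D * X1) := by gcongr
  have t4 : 3 * C * W2 n x v ≤ 3 * C * (D * X2) := by gcongr
  have t7 := mul_le_mul_of_nonneg_left hP1 (show 0 ≤ 144 * C by positivity)
  have t2 : C * (1 + energy v) ≤ C * (1 + (2 * energy u + 6 * ‖c‖ ^ 2)) := by gcongr
  have t3 : 3 * C * energy v ≤ 3 * C * (2 * energy u + 6 * ‖c‖ ^ 2) := by gcongr
  have hsD := Real.sqrt_nonneg D
  have p1 : 0 ≤ C * √D * X1 := by positivity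
  have p2 : 0 ≤ C * D * X2 := by positivity
  have p3 : 0 ≤ C * X1 := by positivity
  have p4 : 0 ≤ C * X2 := by positivity
  have p5 : 0 ≤ C * √D * X2 := by positivity
  have p6 : 0 ≤ C * D * X1 := by positivity
  have p7 : 0 ≤ C * √D * energy u := by positivity
  have p8 : 0 ≤ C * D * energy u := by positivity
  have p9 : 0 ≤ C * √D * ‖c‖ ^ 2 := by positivity
  have p10 : 0 ≤ C * D * ‖c‖ ^ 2 := by positivity
  have p11 : 0 ≤ C * energy u := by positivity
  have p12 : 0 ≤ C * ‖c‖ ^ 2 := by positivity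
  have p13 : 0 ≤ C * √D := by positivity
  have p14 : 0 ≤ C * D := by positivity
  nlinarith

end Pool.Agent.K1H52
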