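import Pool.Agent.K1H52.Core

/-!
Gauges, and the theorem for all viscosities.
-/

set_option autoImplicit false
set_option linter.unusedVariables false

open MeasureTheory Set Metric Filter Topology
open scoped ContDiff ENNReal NNReal

namespace Pool.Agent.K1H52

open H459R3.NS W221.NS Pool.Agent.Y8

lemma rr_mem (n : ℕ) : rr n ∈ Ioc (0 : ℝ) 1 := ⟨rrp n, rr_le1 n⟩

lemma rr_anti {i j : ℕ} (h : i ≤ j) : rr j ≤ rr i :=
  pow_le_pow_of_le_one (by norm_num) (by norm_num) h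

lemma rr_succ (n : ℕ) : rr (n + 1) = rr n / 2 := by
  unfold rr
  rw [pow_succ]
  ring

lemma Ioc_union : Ioc (0 : ℝ) 1 ⊆ ⋃ n : ℕ, Ioc (rr (n + 1)) (rr n) := by
  intro r hr
  obtain ⟨n, h1, h2⟩ := exists_nat_pow_near_of_lt_one hr.1 hr.2 (y := 1 / 2) (by norm_num)
    (by norm_num)
  exact mem_iUnion.2 ⟨n, h1, h2⟩

lemma gauge_seq {h : ℝ → ℝ} (hpos : ∀ r ∈ Ioc (0 : ℝ) 1, 0 < h r)
    (hanti : AntitoneOn (fun r => h r / r) (Ioc 0 1))
    (hint : ∫⁻ r in Ioc (0 : ℝ) 1, ENNReal.ofReal (1 / h r) = ⊤) :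
    (∀ n, 0 < h (rr n) / rr n) ∧ Monotone (fun n => h (rr n) / rr n) ∧
      ∀ n₂ : ℕ, Tendsto (fun N => ∑ n ∈ Finset.Icc n₂ N, (h (rr n) / rr n)⁻¹) atTop atTop := by
  have h1 : ∀ n, 0 < h (rr n) / rr n := fun n => div_pos (hpos _ (rr_mem n)) (rrp n)
  refine ⟨h1, fun i j hij => hanti (rr_mem j) (rr_mem i) (rr_anti hij), ?_⟩
  obtain ⟨g, hg⟩ : ∃ g : ℕ → ℝ, g = fun n => (h (rr n) / rr n)⁻¹ := ⟨_, rfl⟩
  have hg0 : ∀ n, 0 ≤ g n := fun n => by
    rw [hg]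
    exact (inv_pos.2 (h1 n)).le
  have hns : ¬ Summable g := by
    intro hs
    have h2 : ∫⁻ r in Ioc (0 : ℝ) 1, ENNReal.ofReal (1 / h r) ≤ ∑' n, ENNReal.ofReal (g n) := by
      calc ∫⁻ r in Ioc (0 : ℝ) 1, ENNReal.ofReal (1 / h r)
          ≤ ∫⁻ r in ⋃ n : ℕ, Ioc (rr (n + 1)) (rr n), ENNReal.ofReal (1 / h r) :=
            lintegral_mono_set Ioc_union
        _ ≤ ∑' n, ∫⁻ r in Ioc (rr (n + 1)) (rr n), ENNReal.ofReal (1 / h r) :=
            lintegral_iUnion_le _ _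
        _ ≤ ∑' n, ENNReal.ofReal (g n) := by
            refine ENNReal.tsum_le_tsum fun n => ?_
            have hr := rrp n
            have hr' := rrp (n + 1)
            have h3 : ∀ r ∈ Ioc (rr (n + 1)) (rr n), ENNReal.ofReal (1 / h r)
                ≤ ENNReal.ofReal (1 / rr (n + 1) * g n) := by
              intro r hr1
              apply ENNReal.ofReal_le_ofReal
              have hr0 : 0 < r := hr'.trans hr1.1
              have hrI : r ∈ Ioc (0 : ℝ) 1 := ⟨hr0, hr1.2.trans (rr_le1 n)⟩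
              have h4 : h (rr n) / rr n ≤ h r / r := hanti hrI (rr_mem n) hr1.2
              have h5 : 1 / h r = 1 / r * (h r / r)⁻¹ := by
                have := (hpos r hrI).ne'
                field_simp
              rw [h5, hg]
              refine mul_le_mul (one_div_le_one_div_of_le hr' hr1.1.le)
                (inv_anti₀ (h1 n) h4) (inv_pos.2 ((h1 n).trans_le h4)).le (by positivity)
            refine (setLIntegral_mono' measurableSet_Ioc h3).trans ?_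
            rw [setLIntegral_const, Real.volume_Ioc, ← ENNReal.ofReal_mul (by
              have := hg0 n
              positivity)]
            apply ENNReal.ofReal_le_ofReal
            have e : rr n - rr (n + 1) = rr (n + 1) := by
              rw [rr_succ]
              ring
            rw [e]
            apply le_of_eq
            field_simp
    rw [hint, top_le_iff, ← ENNReal.ofReal_tsum_of_nonneg hg0 hs] at h2
    exact ENNReal.ofReal_ne_top h2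
  have ht := (not_summable_iff_tendsto_nat_atTop_of_nonneg hg0).1 hns
  intro n₂
  have h3 : Tendsto (fun N => ∑ n ∈ Finset.range (N + 1), g n - ∑ n ∈ Finset.range n₂, g n)
      atTop atTop := tendsto_atTop_add_const_right _ _ (ht.comp (tendsto_add_atTop_nat 1))
  refine h3.congr' ?_
  filter_upwards [eventually_ge_atTop n₂] with N hN
  rw [← Finset.sum_Ico_eq_sub _ (by omega), hg]
  rfl

lemma sing_back {ν : ℝ} (hν : 0 < ν) {G : Set ℝ} {u : ℝ → V → V} {t : ℝ} {x : V}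
    (h : SingPt {t | t / ν ∈ G} (fun t x => ν⁻¹ • u (t / ν) x) t x) : SingPt G u (t / ν) x := by
  intro δ hδ B
  obtain ⟨s, hs, hst, y, hy, hB⟩ := h (min δ (ν * δ)) (lt_min hδ (by positivity)) (B / ν)
  refine ⟨s / ν, hs, ?_, y, ball_subset_ball (min_le_left _ _) hy, ?_⟩
  · have e : s / ν - t / ν = (s - t) / ν := by ring
    rw [e, abs_div, abs_of_pos hν, div_lt_iff₀ hν]
    have := hst.trans_le (min_le_right _ _)
    linarith
  · rw [norm_smul, norm_inv, Real.norm_eq_abs, abs_of_pos hν, div_lt_iff₀ hν] at hB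
    calc B < ν⁻¹ * ‖u (s / ν) y‖ * ν := hB
      _ = ‖u (s / ν) y‖ := by field_simp

/-- The parabolic Hausdorff measure of the singular set vanishes for each gauge which satisfies
the integral test. -/
theorem gauge (ν T E D a b : ℝ) (h : ℝ → ℝ) (hν : 0 < ν) (ha : 0 < a) (hb : b < T)
    (hpos : ∀ r ∈ Ioc (0 : ℝ) 1, 0 < h r) (hanti : AntitoneOn (fun r => h r / r) (Ioc 0 1))
    (hint : ∫⁻ r in Ioc (0 : ℝ) 1, ENNReal.ofReal (1 / h r) = ⊤) (ε δ : ℝ) (hε : 0 < ε)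
    (hδ : 0 < δ) : ∃ r₀ : ℝ, 0 < r₀ ∧
    ∀ (G : Set ℝ) (u : ℝ → V → V) (p : ℝ → V → ℝ), Turb ν T E D G u p →
    ∃ S : Finset (ℝ × ℝ × V), (∀ s ∈ S, r₀ ≤ s.1 ∧ s.1 < δ ∧ s.1 ≤ 1 ∧ s.2.1 ∈ Icc a b ∧
        s.2.2 ∈ cube ∧ SingPt G u s.2.1 s.2.2) ∧
      (∀ t ∈ Icc a b, ∀ x ∈ cube, SingPt G u t x →
        ∃ s ∈ S, |t - s.2.1| < s.1 ^ 2 ∧ ‖x - s.2.2‖ < s.1) ∧
      ∑ s ∈ S, h s.1 < ε := by
  classical
  obtain ⟨hℓ, hmono, hdiv⟩ := gauge_seq hpos hanti hint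
  obtain ⟨ℓ, hℓd⟩ : ∃ ℓ : ℕ → ℝ, ℓ = fun n => h (rr n) / rr n := ⟨_, rfl⟩
  simp only [← hℓd] at hmono
  have hℓ' : ∀ n, 0 < ℓ n := fun n => by rw [hℓd]; exact hℓ n
  have hdiv' : ∀ n₂ : ℕ, Tendsto (fun N => ∑ n ∈ Finset.Icc n₂ N, (ℓ n)⁻¹) atTop atTop := by
    intro n₂
    rw [hℓd]
    exact hdiv n₂
  obtain ⟨C, hC, hcov⟩ := cover
  obtain ⟨κ, hκ⟩ : ∃ κ : ℝ, κ = max 1 (1 / √ν) := ⟨_, rfl⟩
  have hκ1 : 1 ≤ κ := by rw [hκ]; exact le_max_left _ _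
  have hκ0 : 0 < κ := one_pos.trans_le hκ1
  have hκ2 : 1 / ν ≤ κ ^ 2 := by
    have h1 : 1 / √ν ≤ κ := by rw [hκ]; exact le_max_right _ _
    have h2 : (1 / √ν) ^ 2 = 1 / ν := by
      rw [div_pow, one_pow, Real.sq_sqrt hν.le]
    rw [← h2]
    exact pow_le_pow_left₀ (by positivity) h1 2
  have hrt : Tendsto (fun n => κ * rr n) atTop (𝓝 0) := by
    have h1 : Tendsto rr atTop (𝓝 0) := by
      unfold rr
      exact tendsto_pow_atTop_nhds_zero_of_lt_one (by norm_num) (by norm_num)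
    have := h1.const_mul κ
    simpa using this
  obtain ⟨nmin, hnmin⟩ := eventually_atTop.1
    ((hrt.eventually (gt_mem_nhds hδ)).and (hrt.eventually (gt_mem_nhds one_pos)))
  have hb' : ν * b < ν * T := mul_lt_mul_of_pos_left hb hν
  obtain ⟨n₀, n₂, hn0, hn02, H⟩ := hcov (ν * T) (E / ν) (ν * a) (ν * b) (by positivity) hb' nmin
  -- the number of scales
  obtain ⟨A, hA⟩ : ∃ A : ℝ, A = max (C * (D / ν) / (rr n₀ * ℓ n₀)) (κ * (C * (D / ν)) / ε) :=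
    ⟨_, rfl⟩
  obtain ⟨N, hN1, hN2, hN3⟩ : ∃ N, n₀ ≤ N ∧ A < ∑ n ∈ Finset.Icc n₂ N, (ℓ n)⁻¹ ∧
      0 < ∑ n ∈ Finset.Icc n₂ N, (ℓ n)⁻¹ := by
    have h1 := (eventually_ge_atTop n₀).and (((hdiv' n₂).eventually_gt_atTop A).and
      ((hdiv' n₂).eventually_gt_atTop 0))
    obtain ⟨N, h2, h3, h4⟩ := h1.exists
    exact ⟨N, h2, h3, h4⟩
  obtain ⟨σ, hσ⟩ : ∃ σ, σ = ∑ n ∈ Finset.Icc n₂ N, (ℓ n)⁻¹ := ⟨_, rfl⟩
  rw [← hσ] at hN2 hN3
  refine ⟨κ * rr N, mul_pos hκ0 (rrp N), ?_⟩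
  intro G u p hT
  obtain ⟨hT1, hsg⟩ := Pool.Agent.Y8.B.p_wscal ν T E D G u p hν hT
  have hbig : C * (D / ν) < rr n₀ * ℓ n₀ * σ := by
    have h1 : C * (D / ν) / (rr n₀ * ℓ n₀) < σ :=
      lt_of_le_of_lt (by rw [hA]; exact le_max_left _ _) hN2
    rw [div_lt_iff₀ (mul_pos (rrp _) (hℓ' _))] at h1
    linarith
  obtain ⟨P, hP1, hP2, hP3⟩ := H (D / ν) _ _ _ hT1 ℓ hℓ' hmono N hN1 (by rw [← hσ]; exact hbig)
  rw [← hσ] at hP3
  have hinj : Set.InjOn (fun q : ℕ × (ℝ × V) => ((κ * rr q.1, q.2.1 / ν, q.2.2) : ℝ × ℝ × V))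
      (P : Set (ℕ × (ℝ × V))) := by
    intro q _ q' _ he
    simp only [Prod.mk.injEq] at he
    obtain ⟨h1, h2, h3⟩ := he
    have h4 : rr q.1 = rr q'.1 := mul_left_cancel₀ hκ0.ne' h1
    have h5 : q.1 = q'.1 := pow_right_injective₀ (by norm_num : (0 : ℝ) < 1 / 2) (by norm_num) h4
    have h6 : q.2.1 = q'.2.1 := by
      field_simp at h2
      exact h2
    exact Prod.ext h5 (Prod.ext h6 h3)
  refine ⟨P.image fun q => (κ * rr q.1, q.2.1 / ν, q.2.2), ?_, ?_, ?_⟩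
  · intro s hs
    obtain ⟨q, hq, rfl⟩ := Finset.mem_image.1 hs
    obtain ⟨h1, h2, h3, h4, h5⟩ := hP1 q hq
    obtain ⟨h6, h7⟩ := hnmin q.1 (hn0.trans h1)
    refine ⟨mul_le_mul_of_nonneg_left (rr_anti h2) hκ0.le, h6, h7.le, ⟨?_, ?_⟩, h4, sing_back hν h5⟩
    · rw [le_div_iff₀ hν]
      linarith [h3.1]
    · rw [div_le_iff₀ hν]
      linarith [h3.2]
  · intro t ht x hx hsing
    obtain ⟨q, hq, h1, h2⟩ := hP2 (ν * t) ⟨mul_le_mul_of_nonneg_left ht.1 hν.le,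
      mul_le_mul_of_nonneg_left ht.2 hν.le⟩ x hx (hsg t x hsing)
    refine ⟨(κ * rr q.1, q.2.1 / ν, q.2.2), Finset.mem_image_of_mem _ hq, ?_, ?_⟩
    · show |t - q.2.1 / ν| < (κ * rr q.1) ^ 2
      have e : t - q.2.1 / ν = (ν * t - q.2.1) / ν := by field_simp
      rw [e, abs_div, abs_of_pos hν, div_lt_iff₀ hν]
      refine h1.trans_le ?_
      rw [div_le_iff₀ hν] at hκ2
      rw [mul_pow]
      nlinarith [sq_nonneg (rr q.1)]
    · show ‖x - q.2.2‖ < κ * rr q.1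
      have := rrp q.1
      nlinarith
  · rw [Finset.sum_image (fun q hq q' hq' he => hinj hq hq' he)]
    have h1 : ∑ q ∈ P, h (κ * rr q.1) ≤ κ * ∑ q ∈ P, rr q.1 * ℓ q.1 := by
      rw [Finset.mul_sum]
      refine Finset.sum_le_sum fun q hq => ?_
      obtain ⟨h6, h7⟩ := hnmin q.1 (hn0.trans (hP1 q hq).1)
      have hr := rrp q.1
      have h8 : rr q.1 ≤ κ * rr q.1 := by nlinarith
      have h9 : h (κ * rr q.1) / (κ * rr q.1) ≤ h (rr q.1) / rr q.1 :=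
        hanti (rr_mem q.1) ⟨by positivity, h7.le⟩ h8
      rw [div_le_iff₀ (by positivity)] at h9
      rw [hℓd]
      refine h9.trans (le_of_eq ?_)
      ring
    refine lt_of_le_of_lt h1 ?_
    have h2 : ∑ q ∈ P, rr q.1 * ℓ q.1 ≤ C * (D / ν) / σ := by
      rw [le_div_iff₀ hN3]
      exact hP3
    have h3 : κ * (C * (D / ν)) / ε < σ :=
      lt_of_le_of_lt (by rw [hA]; exact le_max_right _ _) hN2
    rw [div_lt_iff₀ hε] at h3
    calc κ * ∑ q ∈ P, rr q.1 * ℓ q.1 ≤ κ * (C * (D / ν) / σ) :=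
          mul_le_mul_of_nonneg_left h2 hκ0.le
      _ < ε := by
          rw [← mul_div_assoc, div_lt_iff₀ hN3]
          linarith

end Pool.Agent.K1H52
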