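import Pool.Agent.K1H52.Cell
import Pool.Agent.K1H52.EmbT
import Pool.Agent.K1H52.Crit
import Pool.Agent.Y8.Asm3

/-!
The total mass of a Frostman measure on the singular set.
-/

set_option autoImplicit false
set_option linter.unusedVariables false

open MeasureTheory Set Metric Filter Topology
open scoped ContDiff ENNReal NNReal

namespace Pool.Agent.K1H52

open H459R3.NS W221.NS Pool.Agent.Y8

/-- Bounds of the path at the scale `rr n`. -/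
lemma scale_bd {K E : ℝ} (hK : 0 < K) (n : ℕ) :
    1 + (K * |E| / √(rr n ^ 3) + 1) * rr n ≤ (2 + K * |E|) / √(rr n) ∧
    (K * |E| / √(rr n ^ 3) + 1) * rr n ^ 2 ≤ (2 + K * |E|) * √(rr n) := by
  have hr := rrp n
  have hr1 := rr_le1 n
  obtain ⟨s, hs⟩ : ∃ s, s = √(rr n) := ⟨_, rfl⟩
  have hs0 : 0 < s := by rw [hs]; exact Real.sqrt_pos.2 hr
  have hs2 : s ^ 2 = rr n := by rw [hs]; exact Real.sq_sqrt hr.le
  have hs1 : s ≤ 1 := by
    rw [hs, Real.sqrt_le_left zero_le_one]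
    linarith
  have hs3 : √(rr n ^ 3) = s ^ 3 := by
    rw [← hs2, ← pow_mul, show s ^ (2 * 3) = (s ^ 3) ^ 2 by ring, Real.sqrt_sq (by positivity)]
  have hKE : 0 ≤ K * |E| := by positivity
  rw [← hs, hs3, ← hs2]
  constructor
  · rw [le_div_iff₀ hs0]
    have e : (1 + (K * |E| / s ^ 3 + 1) * s ^ 2) * s = s + s ^ 3 + K * |E| := by
      field_simp
      ring
    rw [e]
    have : s ^ 3 ≤ 1 := pow_le_one₀ hs0.le hs1
    linarith
  · have e : (K * |E| / s ^ 3 + 1) * (s ^ 2) ^ 2 = K * |E| * s + s ^ 4 := by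
      field_simp
    rw [e]
    have : s ^ 4 ≤ s ^ 1 := pow_le_pow_of_le_one hs0.le hs1 (by norm_num)
    nlinarith

/-- The bound for the total mass. -/
theorem mass_bd (hE : S_EMB) (hCo : S_COMB) : ∃ C : ℝ, 0 < C ∧ ∀ (T E a b : ℝ), 0 < a → b < T →
    ∀ nmin : ℕ, ∃ n₀ n₂ : ℕ, nmin ≤ n₀ ∧ n₀ ≤ n₂ ∧
    ∀ (D : ℝ) (G : Set ℝ) (u : ℝ → V → V) (p : ℝ → V → ℝ), Turb 1 T E D G u p →
    ∀ ℓ : ℕ → ℝ, (∀ n, 0 < ℓ n) → Monotone ℓ → ∀ (N : ℕ) (Z : Finset (ℝ × V)) (m : ℝ × V → ℝ),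
    (∀ z ∈ Z, z.1 ∈ Icc a b ∧ z.2 ∈ cube ∧ SingPt G u z.1 z.2) → (∀ z ∈ Z, 0 ≤ m z) →
    (∀ j, n₀ ≤ j → j ≤ N → ∀ q, ∑ z ∈ Z with cl j z = q, m z ≤ rr j * ℓ j) →
    ∑ z ∈ Z, m z ≤ rr n₀ * ℓ n₀ →
      (∑ z ∈ Z, m z) * ∑ n ∈ Finset.Icc n₂ N, (ℓ n)⁻¹ ≤ C * D := by
  obtain ⟨η, hη, hcrit⟩ := crit
  obtain ⟨c, δ, hc, hδ, htri⟩ := tri
  obtain ⟨K, hK, hpa⟩ := Pool.Agent.Y8.B.p_wpath
  obtain ⟨CE, hCE, hemb⟩ := emb_time hE
  obtain ⟨CC, hCC, hcomb⟩ := hCo η c 1 hη hc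
  refine ⟨CC * (CE * 162), by positivity, ?_⟩
  intro T E a b ha hb nmin
  obtain ⟨Q, hQ⟩ : ∃ Q : ℝ, Q = 2 + K * |E| := ⟨_, rfl⟩
  have hQ0 : 0 < Q := by rw [hQ]; positivity
  -- thresholds
  have hrt : Tendsto rr atTop (𝓝 0) := by
    unfold rr
    exact tendsto_pow_atTop_nhds_zero_of_lt_one (by norm_num) (by norm_num)
  have hev : ∀ᶠ n : ℕ in atTop, rr n ^ 2 < a ∧ b + rr n ^ 2 < T ∧ 2 ≤ n ∧
      rr n * (1 + E ^ 2) ≤ 1 ∧ Q * √(rr n) ≤ δ ∧ Q * √(rr n) ≤ 1 ∧ nmin ≤ n := by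
    have h1 : Tendsto (fun n => rr n ^ 2) atTop (𝓝 0) := by
      have := hrt.pow 2
      simpa using this
    have h2 : Tendsto (fun n => Q * √(rr n)) atTop (𝓝 0) := by
      have := (hrt.sqrt).const_mul Q
      simpa using this
    have h3 : Tendsto (fun n => rr n * (1 + E ^ 2)) atTop (𝓝 0) := by
      have := hrt.mul_const (1 + E ^ 2)
      simpa using this
    have h4 : Tendsto (fun n => b + rr n ^ 2) atTop (𝓝 b) := by
      have := h1.const_add b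
      simpa using this
    filter_upwards [h1.eventually (gt_mem_nhds ha), h4.eventually (gt_mem_nhds hb),
      eventually_ge_atTop 2, h3.eventually (ge_mem_nhds one_pos),
      h2.eventually (ge_mem_nhds hδ), h2.eventually (ge_mem_nhds one_pos),
      eventually_ge_atTop nmin] with n a1 a2 a3 a4 a5 a6 a7
    exact ⟨a1, a2, a3, a4, a5, a6, a7⟩
  obtain ⟨n₀, hn₀⟩ := eventually_atTop.1 hev
  obtain ⟨M, hM⟩ : ∃ M : ℕ, Q ^ 2 * 4 ^ n₀ < 2 ^ M := pow_unbounded_of_one_lt _ (by norm_num)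
  obtain ⟨n₁, hn₁⟩ : ∃ n₁, n₁ = max n₀ M := ⟨_, rfl⟩
  have hn01 : n₀ ≤ n₁ := by rw [hn₁]; exact le_max_left _ _
  have hM1 : M ≤ n₁ := by rw [hn₁]; exact le_max_right _ _
  obtain ⟨n₂, hn12, hcmb⟩ := hcomb (Q ^ 2) n₀ n₁ hn01
  refine ⟨n₀, n₂, (hn₀ n₀ le_rfl).2.2.2.2.2.2, hn01.trans hn12, ?_⟩
  intro D G u p h ℓ hℓ hmono N Z m hZ hm hcell htot
  -- the paths
  have hpath : ∀ (n : ℕ) (z : ℝ × V), ∃ X Y : ℝ → V, z.1 ∈ Ioo 0 T → X z.1 = z.2 ∧
      ∃ C', FPath T (rr n) (K * |E| / √(rr n ^ 3) + 1) C' G u p X Y := by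
    intro n z
    by_cases hz : z.1 ∈ Ioo 0 T
    · obtain ⟨C', hC', hex⟩ := hpa E (rr n) (rrp n) (rr_le1 n)
      obtain ⟨X, Y, h1, h2⟩ := hex T D G u p h z.1 hz z.2
      exact ⟨X, Y, fun _ => ⟨h1, C', h2⟩⟩
    · exact ⟨fun _ => 0, fun _ => 0, fun h => absurd h hz⟩
  choose X Y hXY using hpath
  have hZT : ∀ n, n₀ ≤ n → ∀ z ∈ Z, 0 < z.1 - rr n ^ 2 ∧ z.1 + rr n ^ 2 < T := by
    intro n hn z hz
    have h1 := (hZ z hz).1
    obtain ⟨a1, a2, -⟩ := hn₀ n hn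
    exact ⟨by linarith [h1.1], by linarith [h1.2]⟩
  have hZI : ∀ z ∈ Z, z.1 ∈ Ioo 0 T := by
    intro z hz
    have h1 := hZT n₀ le_rfl z hz
    have h2 := sq_nonneg (rr n₀)
    exact ⟨by linarith [h1.1], by linarith [h1.2]⟩
  have hX0 : ∀ n, ∀ z ∈ Z, X n z z.1 = z.2 := fun n z hz => (hXY n z (hZI z hz)).1
  have hBn : ∀ n, 0 ≤ K * |E| / √(rr n ^ 3) + 1 := fun n => by positivity
  -- the bounds of the relative displacement
  have hFb : ∀ n, n₀ ≤ n → ∀ z ∈ Z, FF n (X n z) z.1 ≤ Q / √(rr n) := by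
    intro n hn z hz
    obtain ⟨C', hP⟩ := (hXY n z (hZI z hz)).2
    have h1 := FF_bd (hBn n) hP (hZT n hn z hz).1 (hZT n hn z hz).2
    rw [hQ]
    exact h1.trans (scale_bd hK n).1
  have hD0 : 0 ≤ D := (integral_nonneg fun t => enst_nn _).trans h.enst_le
  have hFp : ∀ n z, 0 < FF n (X n z) z.1 := fun n z => lt_of_lt_of_le one_pos (FF_one _ _ _)
  have key := hcmb (ℝ × V) Z m ℓ N (fun n z => FF n (X n z) z.1)
    (fun n z => ∑ k ∈ Finset.range (n + 1), (3 / 4 : ℝ) ^ k * QQ n k u (X n z) z.1)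
    (fun n k z => QQ n k u (X n z) z.1) (CE * 162 * D) hm hℓ hmono (by positivity)
    (fun n k z => QQ_nn _ _ _ _ _) (fun n z => rfl) ?_ (fun n _ _ z _ => FF_one _ _ _) ?_ ?_ ?_
  · refine key.trans (le_of_eq ?_)
    ring
  · -- the criterion
    intro n hn hnN z hz
    obtain ⟨h1, C', hP⟩ := hXY n z (hZI z hz)
    have hr := rrp n
    have hr1 := rr_le1 n
    obtain ⟨C'', hC'', hex⟩ := hpa E (rr n * (1 / 16)) (by positivity) (by linarith)
    obtain ⟨X', Y', h2, hP'⟩ := hex T D G u p h z.1 (hZI z hz) z.2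
    have h3 := (hZ z hz).2.2
    exact hcrit T E D G u p h n (X n z) (Y n z) X' Y' _ _ _ _ hP hP' z.1 (by rw [h1, h2])
      (hZT n hn z hz).1 (hZT n hn z hz).2 (by rw [h1]; exact h3)
  · -- the crude bound
    intro n hn hnN z hz
    have h1 := hFb n hn z hz
    have hr := rrp n
    have h2 : (Q / √(rr n)) ^ 2 = Q ^ 2 * 2 ^ n := by
      rw [div_pow, Real.sq_sqrt hr.le, div_eq_iff hr.ne', mul_assoc, two_rr, mul_one]
    rw [← h2]
    exact pow_le_pow_left₀ (hFp n z).le h1 2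
  · -- the alternatives
    intro n hn hnN z hz f hf hF1 hF2
    have hn0 : n₀ ≤ n := hn01.trans hn
    have hnf : n₀ + f ≤ n := by
      by_contra hcon
      push Not at hcon
      have h1 := hFb n hn0 z hz
      have hr := rrp n
      have h2 : (Q / √(rr n)) ^ 2 = Q ^ 2 * 2 ^ n := by
        rw [div_pow, Real.sq_sqrt hr.le, div_eq_iff hr.ne', mul_assoc, two_rr, mul_one]
      have h3 : ((2 : ℝ) ^ f) ^ 2 ≤ Q ^ 2 * 2 ^ n := by
        rw [← h2]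
        exact pow_le_pow_left₀ (by positivity) (hF1.trans h1) 2
      have h4 : ((2 : ℝ) ^ f) ^ 2 = 4 ^ f := by
        rw [← pow_mul, mul_comm f 2, pow_mul]
        norm_num
      rw [h4] at h3
      have h5 : (4 : ℝ) ^ (n - n₀) ≤ 4 ^ f := pow_le_pow_right₀ (by norm_num) (by omega)
      have h6 : (4 : ℝ) ^ n = 4 ^ (n - n₀) * 4 ^ n₀ := by
        rw [← pow_add]
        congr 1
        omega
      have h7 : (4 : ℝ) ^ n = 2 ^ n * 2 ^ n := by
        rw [← mul_pow]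
        norm_num
      have h8 : (2 : ℝ) ^ M ≤ 2 ^ n := pow_le_pow_right₀ (by norm_num) (hM1.trans hn)
      have h9 : (2 : ℝ) ^ n * 2 ^ n ≤ (Q ^ 2 * 2 ^ n) * 4 ^ n₀ := by
        rw [← h7, h6]
        exact mul_le_mul_of_nonneg_right (h5.trans h3) (by positivity)
      have h10 : (2 : ℝ) ^ n * 2 ^ n ≤ (Q ^ 2 * 4 ^ n₀) * 2 ^ n := by linarith
      have h11 := le_of_mul_le_mul_right h10 (by positivity : (0 : ℝ) < 2 ^ n)
      linarith
    refine ⟨hnf, ?_⟩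
    obtain ⟨m', hm'⟩ : ∃ m', n = m' + f := ⟨n - f, by omega⟩
    have hm0 : n₀ ≤ m' := by omega
    have hnm : n - f = m' := by omega
    rw [hnm]
    obtain ⟨h1, C', hP⟩ := hXY n z (hZI z hz)
    obtain ⟨h2, C'', hP'⟩ := hXY m' z (hZI z hz)
    obtain ⟨a1, a2, a3, a4, a5, a6, a7⟩ := hn₀ m' hm0
    have h3 := htri T E D G u p h m' f a3 hf a4 (X n z) (Y n z) (X m' z) (Y m' z)
      (K * |E| / √(rr n ^ 3) + 1) C' (K * |E| / √(rr m' ^ 3) + 1) C'' (hBn m')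
      ((scale_bd hK m').2.trans (by rw [← hQ]; exact a5)) (by rw [← hm']; exact hP) hP' z.1
      (by rw [h1, h2]) (hZT m' hm0 z hz).1 (hZT m' hm0 z hz).2 (by rw [← hm']; exact hF1)
    rw [← hm'] at h3
    exact h3
  · -- the embedding
    intro k f
    have h1 := hemb T E D G u p h (ℝ × V) Z m ℓ N n₀ X (fun z => z.1) (fun z => z.2) 162
      (by norm_num) hm hℓ (fun n hn hnN z hz => ?_) (fun z hz => ?_)
      (fun n hn z hz => hZT n hn z hz) ?_ ?_ ?_ k f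
    · exact h1
    · obtain ⟨C', hP⟩ := (hXY n z (hZI z hz)).2
      exact hP.sm.continuousOn
    · have h2 := (hZ z hz).2.1
      rw [pi_norm_le_iff_of_nonneg zero_le_one]
      intro i
      rw [Real.norm_eq_abs, abs_of_nonneg (h2.1 i)]
      exact h2.2 i
    · intro n hn hnN z hz τ hτ
      obtain ⟨h2, C', hP⟩ := hXY n z (hZI z hz)
      have h3 := FF_le (path_ct hP (hZT n hn z hz).1 (hZT n hn z hz).2) hτ
      rw [h2] at h3
      exact h3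
    · intro n hn hnN z hz
      have h2 := hFb n hn z hz
      have hr := rrp n
      have hs : 0 < √(rr n) := Real.sqrt_pos.2 hr
      calc FF n (X n z) z.1 * rr n ≤ Q / √(rr n) * rr n := mul_le_mul_of_nonneg_right h2 hr.le
        _ = Q * √(rr n) := by
            rw [div_mul_eq_mul_div, div_eq_iff hs.ne', mul_assoc, Real.mul_self_sqrt hr.le]
        _ ≤ 1 := (hn₀ n hn).2.2.2.2.2.1
    · exact frost hm hℓ hmono hcell htot

end Pool.Agent.K1H52
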