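import Pool.Agent.K1H52.Fix2

/-!
The two local means are comparable (after the file MC of the earlier project, with the weighted
local dissipation).
-/

set_option autoImplicit false
set_option linter.unusedVariables false

open MeasureTheory Set Metric
open scoped ContDiff

namespace Pool.Agent.K1H52

open H459R3.NS W221.NS Pool.Agent.Y8
open Pool.Agent.Y458.NS (vol_ball geo sh_sm sh_z lap_ct MN_eq dy_int)

/-- the integral of the square root of the oscillation over a dyadic ball -/
lemma T_le {C : ℝ} (hC : 0 < C) (h : ∀ u : V → V, ContDiff ℝ ∞ u → ∀ (n k : ℕ) (x : V), k < n →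
    A2 x (2 ^ k * rr n) (fun y => u y - mo (rr n) u x)
      ≤ C * ((2 ^ k * rr n) ^ 3 * ((4 / 3) ^ k * WW n u x)))
    {u : V → V} (hu : ContDiff ℝ ∞ u) (x : V) {n k : ℕ} (hk : k < n) :
    ∫ y in ball x (2 ^ k * rr n), √(nsq (fun y => u y - mo (rr n) u x) y) ≤
      √(8 * C) * √(WW n u x) * ((2 ^ k * rr n) ^ 3 * 3 ^ k) := by
  have hr := rrp n
  obtain ⟨ρ, hρ⟩ : ∃ ρ, ρ = 2 ^ k * rr n := ⟨_, rfl⟩
  have hρ0 : 0 < ρ := by rw [hρ]; positivity
  have h1 : A2 x (2 ^ k * rr n) (fun y => u y - mo (rr n) u x)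
      ≤ C * (2 ^ k * rr n) ^ 3 * 8 ^ k * (WW n u x) := by
    refine (h u hu n k x hk).trans ?_
    have h9 := WW_nn n u x
    have h10 : (4 / 3 : ℝ) ^ k ≤ 8 ^ k := pow_le_pow_left₀ (by norm_num) (by norm_num) k
    calc C * ((2 ^ k * rr n) ^ 3 * ((4 / 3) ^ k * WW n u x))
        ≤ C * ((2 ^ k * rr n) ^ 3 * (8 ^ k * WW n u x)) := by gcongr
      _ = _ := by ring
  rw [← hρ] at h1
  rw [← hρ]
  obtain ⟨w, hw⟩ : ∃ w : V → V, w = fun y => u y - mo (rr n) u x := ⟨_, rfl⟩
  rw [← hw] at h1
  rw [← hw]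
  have hws : ContDiff ℝ ∞ w := by rw [hw]; exact hu.sub contDiff_const
  have hc : Continuous (fun y => √(nsq w y)) := (nsq_sm hws).continuous.sqrt
  have h2 := Pool.Agent.W386.MD.cs (μ := volume.restrict (ball x ρ)) (fun y => √(nsq w y))
    (fun _ => 1) (ballint (hc.pow 2) x ρ) (ballint (continuous_const.pow 2) x ρ)
    (ballint (hc.mul continuous_const) x ρ)
  have e1 : ∫ y in ball x ρ, √(nsq w y) ^ 2 = A2 x ρ w := by
    unfold A2
    refine integral_congr_ae (Filter.Eventually.of_forall fun y => ?_)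
    exact Real.sq_sqrt (nsq_nn w y)
  have e2 : ∫ _ in ball x ρ, (1 : ℝ) ^ 2 = (2 * ρ) ^ 3 := by
    rw [one_pow, setIntegral_const, smul_eq_mul, mul_one, vol_ball x hρ0]
  rw [e1, e2] at h2
  simp only [mul_one] at h2
  have hN : 0 ≤ WW n u x := WW_nn n u x
  refine (le_abs_self _).trans (h2.trans ?_)
  have h3 : √(A2 x ρ w) * √((2 * ρ) ^ 3) ≤
      √(C * ρ ^ 3 * 8 ^ k * (WW n u x)) * √((2 * ρ) ^ 3) :=
    mul_le_mul_of_nonneg_right (Real.sqrt_le_sqrt h1) (Real.sqrt_nonneg _)
  refine h3.trans ?_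
  rw [← Real.sqrt_mul (by positivity)]
  have e3 : C * ρ ^ 3 * 8 ^ k * (WW n u x) * (2 * ρ) ^ 3 =
      (8 * C) * (WW n u x) * (ρ ^ 3) ^ 2 * 8 ^ k := by ring
  rw [e3, Real.sqrt_mul (by positivity), Real.sqrt_mul (by positivity),
    Real.sqrt_mul (by positivity), Real.sqrt_sq (by positivity), ← mul_assoc]
  apply mul_le_mul_of_nonneg_left _ (by positivity)
  rw [← Real.sqrt_sq (by positivity : (0 : ℝ) ≤ 3 ^ k)]
  apply Real.sqrt_le_sqrt
  rw [← pow_mul, mul_comm k 2, pow_mul]
  exact pow_le_pow_left₀ (by norm_num) (by norm_num) k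

/-- The mean velocity `MN` is close to a multiple of the mean `mo`. -/
theorem mcW : ∃ C c₀ : ℝ, 0 < c₀ ∧ c₀ ≤ C ∧ ∀ n : ℕ, 2 ≤ n → ∃ κ : ℝ, c₀ ≤ κ ∧ κ ≤ C ∧
    ∀ u : V → V, SPV u → (∀ x, ∑ i, pd i (fun y => u y i) x = 0) → ∀ (x : V) (l : Fin 3),
      |MN (rr n) u x l - κ * mo (rr n) u x l| ≤ C * (√(WW n u x) + 1 + energy u) := by
  obtain ⟨Ck, hCk, hker⟩ := Pool.Agent.Y494.NS.Ker.t_KER2
  obtain ⟨Cd, hCd, hdy⟩ := WA2
  obtain ⟨Cb, hCb, hb⟩ := ball_le (1 / 2)
  obtain ⟨C, hC⟩ : ∃ C, C = 128 * Ck * √(8 * Cd) + Ck * (1 + Cb) + 512 * Ck + 1 := ⟨_, rfl⟩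
  have hs8 : 0 ≤ √(8 * Cd) := Real.sqrt_nonneg _
  refine ⟨C, 3 / 4, by norm_num, ?_, ?_⟩
  · rw [hC]
    have : 0 ≤ 128 * Ck * √(8 * Cd) + Ck * (1 + Cb) + 512 * Ck := by positivity
    linarith
  intro n hn
  have hr := rrp n
  obtain ⟨r, hrd⟩ : ∃ r, r = rr n := ⟨_, rfl⟩
  have hr4 : rr n ≤ 1 / 4 := by
    unfold rr
    calc ((1 : ℝ) / 2) ^ n ≤ (1 / 2) ^ 2 :=
          pow_le_pow_of_le_one (by norm_num) (by norm_num) hn
      _ = 1 / 4 := by norm_num
  obtain ⟨hgs, hes, hen, hall⟩ := hker (rr n) hr (by linarith)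
  have he0 : ∀ z, 1 / 2 ≤ ‖z‖ → eta (rr n) z = 0 := fun z hz => ((hall z).1 hz).2
  have hg0 : ∀ z, 1 / 2 ≤ ‖z‖ → gg (rr n) z = 0 := fun z hz => ((hall z).1 hz).1
  have hez : ∀ z ∉ ball (0 : V) (1 / 2), eta (rr n) z = 0 := by
    intro z hz
    apply he0
    rw [mem_ball, dist_zero_right, not_lt] at hz
    exact hz
  have hei : Integrable (eta (rr n)) := int_csR hes.continuous hez
  refine ⟨∫ y, eta (rr n) y, ?_, ?_, ?_⟩
  · -- the lower bound
    have h1 : ∫ y in ball (0 : V) (rr n), (3 / (32 * rr n ^ 3) : ℝ) ≤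
        ∫ y in ball (0 : V) (rr n), eta (rr n) y := by
      apply setIntegral_mono_on (ballint continuous_const _ _) hei.integrableOn
        measurableSet_ball
      intro y hy
      rw [mem_ball, dist_zero_right] at hy
      have hcut : cut y = 1 := by
        apply cut.one_of_mem_closedBall
        rw [mem_closedBall, dist_zero_right]
        exact hy.le.trans hr4
      have hQ0 : 0 < QQ (rr n) y := by
        unfold QQ
        have : 0 ≤ ∑ i, y i ^ 2 := Finset.sum_nonneg fun _ _ => sq_nonneg _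
        positivity
      have hQ : QQ (rr n) y ≤ (2 * rr n) ^ 2 := by
        unfold QQ
        have h2 : ∀ i, y i ^ 2 ≤ rr n ^ 2 := by
          intro i
          rw [← sq_abs (y i)]
          exact pow_le_pow_left₀ (abs_nonneg _) ((norm_le_pi_norm y i).trans hy.le) 2
        have h3 : ∑ i, y i ^ 2 ≤ ∑ _i : Fin 3, rr n ^ 2 := Finset.sum_le_sum fun i _ => h2 i
        simp at h3
        linarith
      have hQs : √(QQ (rr n) y) ≤ 2 * rr n := by
        rw [← Real.sqrt_sq (by positivity : 0 ≤ 2 * rr n)]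
        exact Real.sqrt_le_sqrt hQ
      have hQs0 : 0 < √(QQ (rr n) y) := Real.sqrt_pos.2 hQ0
      unfold eta
      rw [hcut, one_mul]
      have h4 : ((2 * rr n) ^ 5)⁻¹ ≤ (√(QQ (rr n) y) ^ 5)⁻¹ :=
        inv_anti₀ (by positivity) (pow_le_pow_left₀ hQs0.le hQs 5)
      calc 3 / (32 * rr n ^ 3) = 3 * rr n ^ 2 * ((2 * rr n) ^ 5)⁻¹ := by
            field_simp
            ring
        _ ≤ _ := mul_le_mul_of_nonneg_left h4 (by positivity)
    have h2 : ∫ y in ball (0 : V) (rr n), eta (rr n) y ≤ ∫ y, eta (rr n) y :=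
      setIntegral_le_integral hei (Filter.Eventually.of_forall hen)
    rw [setIntegral_const, smul_eq_mul, vol_ball 0 hr] at h1
    have h3 : (2 * rr n) ^ 3 * (3 / (32 * rr n ^ 3)) = 3 / 4 := by
      field_simp
      ring
    linarith
  · -- the upper bound
    rw [← ball_int_eq hez]
    have h1 : ∫ y in ball (0 : V) (1 / 2), eta (rr n) y ≤
        ∫ y in ball (0 : V) (1 / 2), (Ck * rr n ^ 2) * ((rr n + ‖y - 0‖) ^ 5)⁻¹ := by
      apply setIntegral_mono_on hei.integrableOn _ measurableSet_ball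
      · intro y _
        have h2 := (hall y).2.1
        rw [sub_zero, ← div_eq_mul_inv]
        exact h2
      · apply ballint
        apply continuous_const.mul
        apply Continuous.inv₀ (by fun_prop)
        intro y
        have := norm_nonneg (y - 0)
        positivity
    have h2 := dy_int (by omega : 1 ≤ n) 5 (0 : V) (f := fun _ => Ck * rr n ^ 2)
      continuous_const (fun _ => by positivity)
    have h3 : ∀ k, ((2 ^ k * rr n) ^ 5)⁻¹ * ∫ _ in ball (0 : V) (2 ^ k * rr n), Ck * rr n ^ 2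
        = 8 * Ck * (1 / 4) ^ k := by
      intro k
      rw [setIntegral_const, smul_eq_mul, vol_ball 0 (by positivity)]
      have e4 : (4 : ℝ) ^ k = (2 ^ k) ^ 2 := by
        rw [← pow_mul, mul_comm, pow_mul]
        norm_num
      rw [one_div, inv_pow, e4]
      field_simp
      ring
    simp only [h3] at h2
    rw [← Finset.mul_sum] at h2
    have h4 := geo (by norm_num : (0 : ℝ) ≤ 1 / 4) (by norm_num) n
    have h5 : 8 * Ck * ∑ k ∈ Finset.range n, (1 / 4 : ℝ) ^ k ≤ 8 * Ck * 2 := by
      apply mul_le_mul_of_nonneg_left _ (by positivity)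
      refine h4.trans (by norm_num)
    have h6 : (2 : ℝ) ^ 5 * (8 * Ck * ∑ k ∈ Finset.range n, (1 / 4 : ℝ) ^ k) ≤
        2 ^ 5 * (8 * Ck * 2) := mul_le_mul_of_nonneg_left h5 (by norm_num)
    rw [hC]
    have h7 : 0 ≤ 128 * Ck * √(8 * Cd) + Ck * (1 + Cb) := by positivity
    linarith
  · -- the comparison
    intro u hup hdiv x l
    obtain ⟨hu, hper⟩ := hup
    rw [MN_eq hgs hg0 hu hdiv x l]
    obtain ⟨e, hedef⟩ : ∃ e : V → ℝ, e = fun y => lap (gg (rr n)) y + eta (rr n) y := ⟨_, rfl⟩
    have hec : Continuous e := by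
      rw [hedef]
      exact (lap_ct hgs).add hes.continuous
    have hgz : ∀ z ∉ ball (0 : V) (1 / 2), gg (rr n) z = 0 := by
      intro z hz
      apply hg0
      rw [mem_ball, dist_zero_right, not_lt] at hz
      exact hz
    have heb : ∀ z, |e z| ≤ Ck := by
      intro z
      rw [hedef]
      exact (hall z).2.2.2.2.1
    have hesz : ∀ z, 1 / 2 ≤ ‖z‖ → e z = 0 := by
      intro z hz
      rw [hedef]
      show lap (gg (rr n)) z + eta (rr n) z = 0
      rw [he0 z hz, lap_zero' hgs (by norm_num) hgz (by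
        rw [mem_ball, dist_zero_right, not_lt]
        exact hz), add_zero]
    have hui : Continuous fun y => u y l := (contDiff_pi.1 hu l).continuous
    have hshc : Continuous fun y : V => y - x := by fun_prop
    have hsh1 : ∀ y ∉ ball x (1 / 2), eta (rr n) (y - x) = 0 := sh_z he0 x
    have hsh2 : ∀ y ∉ ball x (1 / 2), e (y - x) = 0 := sh_z hesz x
    have i1 : Integrable fun y => u y l * eta (rr n) (y - x) :=
      int_csR (hui.mul (hes.continuous.comp hshc)) (a := x) (R := 1 / 2) fun y hy => by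
        show u y l * eta (rr n) (y - x) = 0
        rw [hsh1 y hy, mul_zero]
    have i2 : Integrable fun y => u y l * e (y - x) :=
      int_csR (hui.mul (hec.comp hshc)) (a := x) (R := 1 / 2) fun y hy => by
        show u y l * e (y - x) = 0
        rw [hsh2 y hy, mul_zero]
    obtain ⟨m, hm⟩ : ∃ m, m = mo (rr n) u x l := ⟨_, rfl⟩
    have i3 : Integrable fun y => m * eta (rr n) (y - x) :=
      int_csR (continuous_const.mul (hes.continuous.comp hshc)) (a := x) (R := 1 / 2)
        fun y hy => by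
          show m * eta (rr n) (y - x) = 0
          rw [hsh1 y hy, mul_zero]
    have e1 : -∫ y, u y l * lap (gg (rr n)) (y - x) =
        (∫ y, u y l * eta (rr n) (y - x)) - ∫ y, u y l * e (y - x) := by
      rw [← integral_sub i1 i2, ← integral_neg]
      refine integral_congr_ae (Filter.Eventually.of_forall fun y => ?_)
      show -(u y l * lap (gg (rr n)) (y - x)) = u y l * eta (rr n) (y - x) - u y l * e (y - x)
      rw [hedef]
      ring
    have e2 : (∫ y, eta (rr n) y) * m = ∫ y, m * eta (rr n) (y - x) := by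
      rw [integral_const_mul, integral_sub_right_eq_self (eta (rr n)) x, mul_comm]
    have e3 : (∫ y, u y l * eta (rr n) (y - x)) - ∫ y, m * eta (rr n) (y - x) =
        ∫ y, (u y l - m) * eta (rr n) (y - x) := by
      rw [← integral_sub i1 i3]
      refine integral_congr_ae (Filter.Eventually.of_forall fun y => ?_)
      show u y l * eta (rr n) (y - x) - m * eta (rr n) (y - x) = _
      ring
    rw [e1, ← hm, e2]
    have hN0 : 0 ≤ √(WW n u x) := Real.sqrt_nonneg _
    have hE0 := energy_nn u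
    obtain ⟨w, hw⟩ : ∃ w : V → V, w = fun y => u y - mo (rr n) u x := ⟨_, rfl⟩
    have hws : ContDiff ℝ ∞ w := by rw [hw]; exact hu.sub contDiff_const
    have hfc : Continuous (fun y => √(nsq w y)) := (nsq_sm hws).continuous.sqrt
    have hwl : ∀ y, |u y l - m| ≤ √(nsq w y) := by
      intro y
      have h := Pool.Agent.W386.MD.abs_comp_le w y l
      have h' : w y l = u y l - m := by rw [hw, hm]; rfl
      rw [← h']
      exact h
    -- the main term
    have b1 : |∫ y, (u y l - m) * eta (rr n) (y - x)| ≤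
        128 * Ck * √(8 * Cd) * √(WW n u x) := by
      have hz : ∀ y ∉ ball x (1 / 2), (u y l - m) * eta (rr n) (y - x) = 0 := fun y hy => by
        rw [hsh1 y hy, mul_zero]
      rw [← ball_int_eq hz]
      refine abs_integral_le_integral_abs.trans ?_
      have hwc : Continuous (fun y : V => ((rr n + ‖y - x‖) ^ 5)⁻¹) := by
        apply Continuous.inv₀ (by fun_prop)
        intro y
        have := norm_nonneg (y - x)
        positivity
      have c1 : ∫ y in ball x (1 / 2), |(u y l - m) * eta (rr n) (y - x)| ≤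
          ∫ y in ball x (1 / 2), (Ck * rr n ^ 2) * (√(nsq w y) * ((rr n + ‖y - x‖) ^ 5)⁻¹) := by
        apply setIntegral_mono_on
        · exact ballint (((hui.sub continuous_const).mul (hes.continuous.comp hshc)).abs) _ _
        · exact ballint (continuous_const.mul (hfc.mul hwc)) _ _
        · exact measurableSet_ball
        · intro y _
          rw [abs_mul, abs_of_nonneg (hen _)]
          have h2 := (hall (y - x)).2.1
          calc |u y l - m| * eta (rr n) (y - x)
              ≤ √(nsq w y) * (Ck * rr n ^ 2 / (rr n + ‖y - x‖) ^ 5) :=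
                mul_le_mul (hwl y) h2 (hen _) (Real.sqrt_nonneg _)
            _ = _ := by rw [div_eq_mul_inv]; ring
      refine c1.trans ?_
      rw [integral_const_mul]
      have c2 := dy_int (by omega : 1 ≤ n) 5 x (f := fun y => √(nsq w y)) hfc
        (fun y => Real.sqrt_nonneg _)
      have c3 : ∀ k ∈ Finset.range n, rr n ^ 2 * (((2 ^ k * rr n) ^ 5)⁻¹ *
          ∫ y in ball x (2 ^ k * rr n), √(nsq w y)) ≤
          √(8 * Cd) * √(WW n u x) * (3 / 4) ^ k := by
        intro k hk
        rw [Finset.mem_range] at hk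
        have c4 := T_le hCd hdy hu x hk
        rw [← hw] at c4
        have c5 : rr n ^ 2 * (((2 ^ k * rr n) ^ 5)⁻¹ *
            ∫ y in ball x (2 ^ k * rr n), √(nsq w y)) ≤ rr n ^ 2 * (((2 ^ k * rr n) ^ 5)⁻¹ *
            (√(8 * Cd) * √(WW n u x) * ((2 ^ k * rr n) ^ 3 * 3 ^ k))) :=
          mul_le_mul_of_nonneg_left (mul_le_mul_of_nonneg_left c4 (by positivity))
            (by positivity)
        refine c5.trans (le_of_eq ?_)
        have e4 : (4 : ℝ) ^ k = (2 ^ k) ^ 2 := by
          rw [← pow_mul, mul_comm, pow_mul]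
          norm_num
        rw [div_pow, e4]
        field_simp
      have c6 := Finset.sum_le_sum c3
      rw [← Finset.mul_sum, ← Finset.mul_sum] at c6
      have c7 := geo (by norm_num : (0 : ℝ) ≤ 3 / 4) (by norm_num) n
      have c8 : √(8 * Cd) * √(WW n u x) * ∑ k ∈ Finset.range n, (3 / 4 : ℝ) ^ k ≤
          √(8 * Cd) * √(WW n u x) * 4 := by
        apply mul_le_mul_of_nonneg_left _ (by positivity)
        refine c7.trans (by norm_num)
      calc Ck * rr n ^ 2 * ∫ y in ball x (1 / 2), √(nsq w y) * ((rr n + ‖y - x‖) ^ 5)⁻¹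
          ≤ Ck * rr n ^ 2 * (2 ^ 5 * ∑ k ∈ Finset.range n, ((2 ^ k * rr n) ^ 5)⁻¹ *
            ∫ y in ball x (2 ^ k * rr n), √(nsq w y)) :=
            mul_le_mul_of_nonneg_left c2 (by positivity)
        _ = Ck * 2 ^ 5 * (rr n ^ 2 * ∑ k ∈ Finset.range n, ((2 ^ k * rr n) ^ 5)⁻¹ *
            ∫ y in ball x (2 ^ k * rr n), √(nsq w y)) := by ring
        _ ≤ Ck * 2 ^ 5 * (√(8 * Cd) * √(WW n u x) * 4) :=
            mul_le_mul_of_nonneg_left (c6.trans c8) (by positivity)
        _ = _ := by ring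
    -- the error term
    have b2 : |∫ y, u y l * e (y - x)| ≤ Ck * (1 + Cb) * (1 + energy u) := by
      have hz : ∀ y ∉ ball x (1 / 2), u y l * e (y - x) = 0 := fun y hy => by
        rw [hsh2 y hy, mul_zero]
      rw [← ball_int_eq hz]
      refine abs_integral_le_integral_abs.trans ?_
      have c1 : ∫ y in ball x (1 / 2), |u y l * e (y - x)| ≤
          ∫ y in ball x (1 / 2), Ck * (1 + nsq u y) := by
        apply setIntegral_mono_on
        · exact ballint ((hui.mul (hec.comp hshc)).abs) _ _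
        · exact ballint (continuous_const.mul (continuous_const.add (nsq_sm hu).continuous)) _ _
        · exact measurableSet_ball
        · intro y _
          rw [abs_mul, mul_comm]
          have h1 : |u y l| ≤ 1 + nsq u y := by
            have h2 : u y l ^ 2 ≤ nsq u y :=
              Finset.single_le_sum (f := fun i => u y i ^ 2) (fun _ _ => sq_nonneg _)
                (Finset.mem_univ l)
            have h3 : |u y l| ^ 2 = u y l ^ 2 := sq_abs _
            nlinarith [sq_nonneg (|u y l| - 1), abs_nonneg (u y l)]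
          exact mul_le_mul (heb _) h1 (abs_nonneg _) hCk.le
      refine c1.trans ?_
      rw [integral_const_mul, integral_add (ballint continuous_const _ _)
        (ballint (nsq_sm hu).continuous _ _), setIntegral_const, smul_eq_mul, mul_one,
        vol_ball x (by norm_num)]
      have c2 := hb _ (nsq_sm hu).continuous (nsq_per hper) (nsq_nn u) x
      rw [← energy_eq hu] at c2
      have c3 : (2 * (1 / 2) : ℝ) ^ 3 + ∫ y in ball x (1 / 2), nsq u y ≤
          (1 + Cb) * (1 + energy u) := by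
        norm_num
        nlinarith
      calc _ ≤ Ck * ((1 + Cb) * (1 + energy u)) := mul_le_mul_of_nonneg_left c3 hCk.le
        _ = _ := by ring
    have e5 : (∫ y, u y l * eta (rr n) (y - x)) - (∫ y, u y l * e (y - x)) -
        ∫ y, m * eta (rr n) (y - x) =
        (∫ y, (u y l - m) * eta (rr n) (y - x)) - ∫ y, u y l * e (y - x) := by
      rw [← e3]
      ring
    rw [e5]
    refine (abs_sub _ _).trans ?_
    refine (add_le_add b1 b2).trans ?_
    rw [hC]
    have a1 : 0 ≤ 128 * Ck * √(8 * Cd) := by positivity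
    have a2 : 0 ≤ Ck * (1 + Cb) := by positivity
    have a3 : 0 ≤ (512 * Ck + 1) * (√(WW n u x) + 1 + energy u) := by positivity
    have a4 : 0 ≤ 128 * Ck * √(8 * Cd) * (1 + energy u) := by positivity
    have a5 : 0 ≤ Ck * (1 + Cb) * √(WW n u x) := by positivity
    calc _ ≤ 128 * Ck * √(8 * Cd) * √(WW n u x) + Ck * (1 + Cb) * (1 + energy u)
          + (128 * Ck * √(8 * Cd) * (1 + energy u) + Ck * (1 + Cb) * √(WW n u x)
          + (512 * Ck + 1) * (√(WW n u x) + 1 + energy u)) := by linarith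
      _ = _ := by ring


end Pool.Agent.K1H52
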