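import Pool.Agent.K1H52.Tim
import Pool.Agent.Y8.Mov

/-!
The evolution of the mean velocity along a path.
-/

set_option autoImplicit false
set_option linter.unusedVariables false

open MeasureTheory Set Metric Filter Topology
open scoped ContDiff ENNReal NNReal

namespace Pool.Agent.K1H52

open H459R3.NS W221.NS Pool.Agent.Y8
open Pool.Agent.Y458.NS (phi_sm phi_z phi_div lap_ct)

/-! ### The test fields -/

lemma ggs {r : ℝ} (hr : 0 < r) (hr1 : r ≤ 1) : ContDiff ℝ ∞ (gg r) ∧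
    ∀ z, 1 / 2 ≤ ‖z‖ → gg r z = 0 := by
  obtain ⟨C, hC, h⟩ := Pool.Agent.Y494.NS.Ker.t_KER2
  obtain ⟨h1, _, _, h2⟩ := h r hr hr1
  exact ⟨h1, fun z hz => ((h2 z).1 hz).1⟩

lemma phi_shift (r : ℝ) (x : V) (l i : Fin 3) : phi r x l i = fun y => phi r 0 l i (y - x) := by
  funext y
  have e0 : (fun z : V => gg r (z - 0)) = gg r := by
    funext z
    rw [sub_zero]
  unfold phi
  rw [e0, lap_shift, pd_shift x l, pd_shift x i]

lemma phi_pd (r : ℝ) (x : V) (l i j : Fin 3) :
    pd j (phi r x l i) = fun y => pd j (phi r 0 l i) (y - x) := by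
  rw [phi_shift r x l i, pd_shift x j]

lemma phi_lap (r : ℝ) (x : V) (l i : Fin 3) :
    lap (phi r x l i) = fun y => lap (phi r 0 l i) (y - x) := by
  rw [phi_shift r x l i, lap_shift]

lemma bdd_of_z {f : V → ℝ} (hf : Continuous f) {a : V} {R : ℝ} (h : ∀ z ∉ ball a R, f z = 0) :
    ∃ M : ℝ, 0 < M ∧ ∀ z, |f z| ≤ M := by
  obtain ⟨M, hM⟩ := (isCompact_closedBall a R).exists_bound_of_continuousOn hf.continuousOn
  refine ⟨|M| + 1, by positivity, fun z => ?_⟩
  by_cases hz : z ∈ ball a R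
  · have := hM z (ball_subset_closedBall hz)
    rw [Real.norm_eq_abs] at this
    have := le_abs_self M
    linarith
  · rw [h z hz, abs_zero]
    positivity

lemma phi_bd {r : ℝ} (hr : 0 < r) (hr1 : r ≤ 1) : ∃ M : ℝ, 0 < M ∧ ∀ (x : V) (l i : Fin 3)
    (z : V), |phi r x l i z| ≤ M ∧ |lap (phi r x l i) z| ≤ M ∧ ∀ j, |pd j (phi r x l i) z| ≤ M := by
  obtain ⟨hg, hg0⟩ := ggs hr hr1
  have hR : (0 : ℝ) < 1 / 2 := by norm_num
  have h1 : ∀ l i, ∃ M : ℝ, 0 < M ∧ ∀ z, |phi r 0 l i z| ≤ M := fun l i =>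
    bdd_of_z (phi_sm hg 0 l i).continuous (phi_z hg hg0 0 l i)
  have h2 : ∀ l i, ∃ M : ℝ, 0 < M ∧ ∀ z, |lap (phi r 0 l i) z| ≤ M := fun l i =>
    bdd_of_z (lap_ct (phi_sm hg 0 l i)) fun z hz =>
      lap_zero' (phi_sm hg 0 l i) hR (phi_z hg hg0 0 l i) hz
  have h3 : ∀ l i j, ∃ M : ℝ, 0 < M ∧ ∀ z, |pd j (phi r 0 l i) z| ≤ M := fun l i j =>
    bdd_of_z (Pool.Agent.W583.MD.sm_pd (phi_sm hg 0 l i) j).continuous fun z hz =>
      pd_zero' (phi_sm hg 0 l i) hR (phi_z hg hg0 0 l i) hz j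
  choose M1 hM1 hb1 using h1
  choose M2 hM2 hb2 using h2
  choose M3 hM3 hb3 using h3
  obtain ⟨S, hS⟩ : ∃ S : ℝ, S = (∑ l, ∑ i, M1 l i) + (∑ l, ∑ i, M2 l i)
    + ∑ l, ∑ i, ∑ j, M3 l i j := ⟨_, rfl⟩
  have p1 : ∀ l i, M1 l i ≤ ∑ l, ∑ i, M1 l i := fun l i =>
    (Finset.single_le_sum (f := fun i => M1 l i) (fun i _ => (hM1 l i).le) (Finset.mem_univ i)).trans
      (Finset.single_le_sum (f := fun l => ∑ i, M1 l i)
        (fun l _ => Finset.sum_nonneg fun i _ => (hM1 l i).le) (Finset.mem_univ l))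
  have p2 : ∀ l i, M2 l i ≤ ∑ l, ∑ i, M2 l i := fun l i =>
    (Finset.single_le_sum (f := fun i => M2 l i) (fun i _ => (hM2 l i).le) (Finset.mem_univ i)).trans
      (Finset.single_le_sum (f := fun l => ∑ i, M2 l i)
        (fun l _ => Finset.sum_nonneg fun i _ => (hM2 l i).le) (Finset.mem_univ l))
  have p3 : ∀ l i j, M3 l i j ≤ ∑ l, ∑ i, ∑ j, M3 l i j := fun l i j =>
    ((Finset.single_le_sum (f := fun j => M3 l i j) (fun j _ => (hM3 l i j).le)
      (Finset.mem_univ j)).trans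
      (Finset.single_le_sum (f := fun i => ∑ j, M3 l i j)
        (fun i _ => Finset.sum_nonneg fun j _ => (hM3 l i j).le) (Finset.mem_univ i))).trans
      (Finset.single_le_sum (f := fun l => ∑ i, ∑ j, M3 l i j)
        (fun l _ => Finset.sum_nonneg fun i _ => Finset.sum_nonneg fun j _ => (hM3 l i j).le)
        (Finset.mem_univ l))
  have s1 : 0 ≤ ∑ l, ∑ i, M1 l i :=
    Finset.sum_nonneg fun l _ => Finset.sum_nonneg fun i _ => (hM1 l i).le
  have s2 : 0 ≤ ∑ l, ∑ i, M2 l i :=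
    Finset.sum_nonneg fun l _ => Finset.sum_nonneg fun i _ => (hM2 l i).le
  have s3 : 0 ≤ ∑ l, ∑ i, ∑ j, M3 l i j :=
    Finset.sum_nonneg fun l _ => Finset.sum_nonneg fun i _ => Finset.sum_nonneg fun j _ =>
      (hM3 l i j).le
  refine ⟨S + 1, by rw [hS]; positivity, fun x l i z => ⟨?_, ?_, fun j => ?_⟩⟩
  · rw [phi_shift]
    have := hb1 l i (z - x)
    have := p1 l i
    show |phi r 0 l i (z - x)| ≤ _
    linarith
  · rw [phi_lap]
    have := hb2 l i (z - x)
    have := p2 l i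
    show |lap (phi r 0 l i) (z - x)| ≤ _
    linarith
  · rw [phi_pd]
    have := hb3 l i j (z - x)
    have := p3 l i j
    show |pd j (phi r 0 l i) (z - x)| ≤ _
    linarith

/-- The norm of the derivative, by the partial derivatives. -/
lemma lip_of_pd {f : V → ℝ} (hf : ContDiff ℝ ∞ f) {M : ℝ} (hM : 0 ≤ M)
    (h : ∀ z j, |pd j f z| ≤ M) (x y : V) : |f x - f y| ≤ 3 * M * ‖x - y‖ := by
  have h1 : ∀ z ∈ (univ : Set V), ‖fderiv ℝ f z‖ ≤ 3 * M := by
    intro z _
    refine ContinuousLinearMap.opNorm_le_bound _ (by positivity) fun v => ?_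
    have e : v = ∑ j, v j • (Pi.single j (1 : ℝ) : V) := by
      funext k
      simp [Finset.sum_apply, Pi.single_apply]
    conv_lhs => rw [e]
    rw [map_sum]
    refine (norm_sum_le _ _).trans ?_
    have h2 : ∀ j ∈ (Finset.univ : Finset (Fin 3)),
        ‖(fderiv ℝ f z) (v j • (Pi.single j (1 : ℝ) : V))‖ ≤ M * ‖v‖ := by
      intro j _
      rw [map_smul, norm_smul, mul_comm]
      exact mul_le_mul (h z j) (norm_le_pi_norm v j) (norm_nonneg _) hM
    refine (Finset.sum_le_sum h2).trans (le_of_eq ?_)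
    simp
    ring
  have h2 := Convex.norm_image_sub_le_of_norm_fderiv_le (𝕜 := ℝ) (f := f) (s := univ)
    (fun z _ => hf.differentiable (by simp) z) h1 convex_univ (mem_univ y) (mem_univ x)
  rwa [Real.norm_eq_abs] at h2

/-- Integrals of one component against a bounded function with small support. -/
lemma int_comp_le (E : ℝ) : ∃ C : ℝ, 0 < C ∧ ∀ w : V → V, SPV w → energy w ≤ E ^ 2 →
    ∀ (f : V → ℝ) (x : V) (M : ℝ) (i : Fin 3), Continuous f → 0 ≤ M → (∀ z, |f z| ≤ M) →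
      (∀ z ∉ ball x 2, f z = 0) → |∫ z, w z i * f z| ≤ C * M := by
  obtain ⟨C, hC, hb⟩ := ball_le 2
  refine ⟨64 + C * E ^ 2, by positivity, fun w hw hE f x M i hf hM hfM hz => ?_⟩
  have hn : Continuous (nsq w) := (nsq_sm hw.1).continuous
  have hz' : ∀ z ∉ ball x 2, w z i * f z = 0 := fun z h => by rw [hz z h, mul_zero]
  rw [← ball_int_eq hz']
  have h1 : |∫ z in ball x 2, w z i * f z| ≤ ∫ z in ball x 2, M * (1 + nsq w z) := by
    refine abs_int_le (ballint (continuous_const.mul (continuous_const.add hn)) _ _)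
      (ae_of_all _ fun z => ?_)
    rw [abs_mul, mul_comm]
    have h2 : |w z i| ≤ 1 + nsq w z := by
      have h3 := comp_sq_le w z i
      have h4 : |w z i| ^ 2 = w z i ^ 2 := sq_abs _
      nlinarith [sq_nonneg (|w z i| - 1), abs_nonneg (w z i)]
    exact mul_le_mul (hfM z) h2 (abs_nonneg _) hM
  refine h1.trans ?_
  have i1 : IntegrableOn (fun _ : V => (1 : ℝ)) (ball x 2) := ballint continuous_const _ _
  rw [integral_const_mul, integral_add i1 (ballint hn _ _),
    Pool.Agent.Y153.NS.vol_ball x (by norm_num)]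
  have h2 := hb _ hn (nsq_per hw.2) (nsq_nn w) x
  rw [← energy_eq hw.1] at h2
  have h3 : C * energy w ≤ C * E ^ 2 := by gcongr
  nlinarith

/-- The mean velocity is Lipschitz in the point. -/
lemma MN_lip {r : ℝ} (hr : 0 < r) (hr1 : r ≤ 1) (E : ℝ) : ∃ L : ℝ, 0 < L ∧ ∀ w : V → V,
    SPV w → energy w ≤ E ^ 2 → ∀ (x y : V) (l : Fin 3),
      |MN r w x l - MN r w y l| ≤ L * ‖x - y‖ := by
  obtain ⟨M, hM, hb⟩ := phi_bd hr hr1
  obtain ⟨C, hC, hI⟩ := int_comp_le E
  obtain ⟨hg, hg0⟩ := ggs hr hr1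
  refine ⟨9 * C * M, by positivity, fun w hw hE x y l => ?_⟩
  have hwi : ∀ i, Continuous fun z => w z i := fun i => (contDiff_pi.1 hw.1 i).continuous
  have hz : ∀ x i, ∀ z ∉ ball x (2 : ℝ), phi r x l i z = 0 := fun x i z h =>
    phi_z hg hg0 x l i z fun h' => h (ball_subset_ball (by norm_num) h')
  have hpc : ∀ x i, Continuous (phi r x l i) := fun x i => (phi_sm hg x l i).continuous
  have hint : ∀ x i, Integrable fun z => w z i * phi r x l i z := fun x i =>
    int_csR ((hwi i).mul (hpc x i)) (a := x) (R := 2) fun z h => by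
      show w z i * phi r x l i z = 0
      rw [hz x i z h, mul_zero]
  by_cases hxy : ‖x - y‖ ≤ 1
  · have key : ∀ i, |(∫ z, w z i * phi r x l i z) - ∫ z, w z i * phi r y l i z|
        ≤ C * (3 * M * ‖x - y‖) := by
      intro i
      rw [← integral_sub (hint x i) (hint y i)]
      have e : ∀ z, w z i * phi r x l i z - w z i * phi r y l i z
          = w z i * (phi r x l i z - phi r y l i z) := fun z => by ring
      simp_rw [e]
      refine hI w hw hE (fun z => phi r x l i z - phi r y l i z) x (3 * M * ‖x - y‖) i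
        ((hpc x i).sub (hpc y i)) (by positivity) (fun z => ?_) fun z hzx => ?_
      · rw [phi_shift r x, phi_shift r y]
        have h1 := lip_of_pd (phi_sm hg 0 l i) hM.le (fun z j => (hb 0 l i z).2.2 j) (z - x) (z - y)
        have e2 : z - x - (z - y) = -(x - y) := by abel
        rwa [e2, norm_neg] at h1
      · have h1 : z ∉ ball x (1 / 2) := fun h => hzx (ball_subset_ball (by norm_num) h)
        have h2 : z ∉ ball y (1 / 2) := by
          intro h
          apply hzx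
          rw [mem_ball, dist_eq_norm] at h ⊢
          have e3 : z - x = (z - y) - (x - y) := by abel
          rw [e3]
          exact (norm_sub_le _ _).trans_lt (by linarith)
        show phi r x l i z - phi r y l i z = 0
        rw [phi_z hg hg0 x l i z h1, phi_z hg hg0 y l i z h2, sub_zero]
    unfold MN
    rw [← Finset.sum_sub_distrib]
    refine (Finset.abs_sum_le_sum_abs _ _).trans ?_
    refine (Finset.sum_le_sum fun i _ => key i).trans (le_of_eq ?_)
    simp
    ring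
  · push Not at hxy
    have h1 : ∀ x, |MN r w x l| ≤ 3 * (C * M) := by
      intro x
      unfold MN
      refine (Finset.abs_sum_le_sum_abs _ _).trans ?_
      refine (Finset.sum_le_sum fun i _ => hI w hw hE (phi r x l i) x M i (hpc x i) hM.le
        (fun z => (hb x l i z).1) (hz x i)).trans (le_of_eq ?_)
      simp
    have h2 := (abs_sub _ _).trans (add_le_add (h1 x) (h1 y))
    have h3 : 0 < C * M := by positivity
    nlinarith

section

variable {T E D : ℝ} {G : Set ℝ} {u : ℝ → V → V} {p : ℝ → V → ℝ}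

lemma FPath.lip {r B C : ℝ} {X Y : ℝ → V} (hP : FPath T r B C G u p X Y) {s t : ℝ}
    (hs : s ∈ Ioo 0 T) (ht : t ∈ Ioo 0 T) : ‖X t - X s‖ ≤ B * |t - s| := by
  have h := Convex.norm_image_sub_le_of_norm_hasDerivWithin_le (f := X) (f' := Y) (s := Ioo 0 T)
    (C := B) (fun x hx => (hP.hd x hx).hasDerivWithinAt) (fun x hx => hP.bd x hx)
    (convex_Ioo 0 T) hs ht
  rwa [Real.norm_eq_abs] at h

/-- The modulus of continuity of the mean velocity along a path. -/
lemma MN_modG (h : Turb 1 T E D G u p) {r : ℝ} (hr : 0 < r) (hr1 : r ≤ 1) {B C : ℝ}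
    {X Y : ℝ → V} (hB : 0 ≤ B) (hP : FPath T r B C G u p X Y) (l : Fin 3) :
    ∃ K : ℝ, 0 < K ∧ ∀ s ∈ G, ∀ t ∈ G, s ≤ t →
      |MN r (u t) (X t) l - MN r (u s) (X s) l| ≤ K * ∫ τ in Ioo s t, K1 G u p τ := by
  obtain ⟨M, hM, hb⟩ := phi_bd hr hr1
  obtain ⟨L, hL, hlip⟩ := MN_lip hr hr1 E
  obtain ⟨C', hC', hw⟩ := wmod Pool.Agent.Y8.B.p_tcut E (1 / 2) (by norm_num)
  obtain ⟨hg, hg0⟩ := ggs hr hr1
  refine ⟨3 * (C' * M) + L * B, by positivity, fun s hs t ht hst => ?_⟩
  have h0 : 0 ≤ ∫ τ in Ioo s t, K1 G u p τ := integral_nonneg fun τ => K1_nn G u p τ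
  have h1 : |MN r (u t) (X t) l - MN r (u s) (X t) l|
      ≤ 3 * (C' * M * ∫ τ in Ioo s t, K1 G u p τ) := by
    unfold MN
    rw [← Finset.sum_sub_distrib]
    refine (Finset.abs_sum_le_sum_abs _ _).trans ?_
    refine (Finset.sum_le_sum fun i _ => hw T D G u p h (X t) M (phi r (X t) l i) hM.le
      (phi_sm hg _ l i) (phi_z hg hg0 _ l i) (fun z => (hb _ l i z).2.1)
      (fun z j => (hb _ l i z).2.2 j) i s hs t ht hst).trans (le_of_eq ?_)
    simp
  have h2 := hlip (u s) (h.spv hs) (h.energy_le s hs) (X t) (X s) l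
  have h3 := FPath.lip hP (h.subG hs) (h.subG ht)
  rw [abs_of_nonneg (by linarith : 0 ≤ t - s)] at h3
  have h4 := K1_low h (h.subG hs).1.le hst (h.subG ht).2.le
  have h5 : L * ‖X t - X s‖ ≤ L * B * ∫ τ in Ioo s t, K1 G u p τ := by
    calc L * ‖X t - X s‖ ≤ L * (B * (t - s)) := by gcongr
      _ ≤ L * (B * ∫ τ in Ioo s t, K1 G u p τ) := by gcongr
      _ = _ := by ring
  have e : MN r (u t) (X t) l - MN r (u s) (X s) l
      = (MN r (u t) (X t) l - MN r (u s) (X t) l) + (MN r (u s) (X t) l - MN r (u s) (X s) l) := by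
    ring
  rw [e]
  refine (abs_add_le _ _).trans ?_
  linarith

end

end Pool.Agent.K1H52
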