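import Pool.Agent.K1H52.Mom

/-!
The evolution of the mean velocity along a path: the balance of momentum in the moving frame.
-/

set_option autoImplicit false
set_option linter.unusedVariables false

open MeasureTheory Set Metric Filter Topology
open scoped ContDiff ENNReal NNReal

namespace Pool.Agent.K1H52

open H459R3.NS W221.NS Pool.Agent.Y8 Pool.Agent.W583.MD
open Pool.Agent.Y458.NS (phi_sm phi_z phi_div lap_ct)

lemma phi_cs {r : ℝ} (hr : 0 < r) (hr1 : r ≤ 1) (x : V) (l i : Fin 3) :
    HasCompactSupport (phi r x l i) := by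
  obtain ⟨hg, hg0⟩ := ggs hr hr1
  exact hcsR (phi_z hg hg0 x l i)

lemma Z_lap {F : V → ℝ} (hF : ContDiff ℝ ∞ F) (hs : HasCompactSupport F) : Z (lap F) := by
  have e : lap F = fun x => ∑ j, pd j (pd j F) x := rfl
  rw [e]
  exact Z.sum fun j => Z_pd (sm_pd hF j) (cs_pd hs j) j

/-- The time derivative of the mean velocity in the moving frame. -/
lemma HM_id {r : ℝ} (hr : 0 < r) (hr1 : r ≤ 1) {w : V → V} (hw : ContDiff ℝ ∞ w)
    (hdiv : ∀ x, ∑ i, pd i (fun y => w y i) x = 0) (c x : V) (l : Fin 3) :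
    HH r w x l - ∑ i, ∫ z, w z i * adv (fun _ => c) (phi r x l i) z
      = HH r (fun y => w y - c) x l := by
  obtain ⟨hg, hg0⟩ := ggs hr hr1
  have hps : ∀ i, ContDiff ℝ ∞ (phi r x l i) := fun i => phi_sm hg x l i
  have hpc : ∀ i, HasCompactSupport (phi r x l i) := fun i => phi_cs hr hr1 x l i
  have hwi : ∀ i, Continuous fun z => w z i := fun i => (contDiff_pi.1 hw i).continuous
  have hdc : ∀ x, ∑ i, pd i (fun y => (fun _ : V => c) y i) x = 0 := by
    intro x
    refine Finset.sum_eq_zero fun i _ => ?_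
    unfold pd
    simp
  have z1 : ∀ i, Z (lap (phi r x l i)) := fun i => Z_lap (hps i) (hpc i)
  have z2 : ∀ i, Z (adv w (phi r x l i)) := fun i =>
    Pool.Agent.Y153.NS.Z_adv hw hdiv (hps i) (hpc i)
  have z3 : ∀ i, Z (adv (fun _ => c) (phi r x l i)) := fun i =>
    Pool.Agent.Y153.NS.Z_adv contDiff_const hdc (hps i) (hpc i)
  have a1 : ∀ i, Continuous (adv w (phi r x l i)) := fun i => by
    unfold adv
    exact continuous_finsetSum _ fun j _ => (hwi j).mul (sm_pd (hps i) j).continuous
  have a2 : ∀ i, Continuous (adv (fun _ => c) (phi r x l i)) := fun i => by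
    unfold adv
    exact continuous_finsetSum _ fun j _ => continuous_const.mul (sm_pd (hps i) j).continuous
  have b0 : (0 : ℝ) < 1 / 2 := by norm_num
  have b1 : ∀ i, ∀ z ∉ ball x (1 / 2), lap (phi r x l i) z = 0 := fun i z hz =>
    lap_zero' (hps i) b0 (phi_z hg hg0 x l i) hz
  have b2 : ∀ (v : V → V) i, ∀ z ∉ ball x (1 / 2), adv v (phi r x l i) z = 0 := fun v i z hz => by
    unfold adv
    exact Finset.sum_eq_zero fun j _ => by
      rw [pd_zero' (hps i) b0 (phi_z hg hg0 x l i) hz j, mul_zero]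
  have i1 : ∀ i, Integrable fun z => w z i * lap (phi r x l i) z
      + w z i * adv w (phi r x l i) z := fun i =>
    int_csR (((hwi i).mul (lap_ct (hps i))).add ((hwi i).mul (a1 i))) (a := x) (R := 1 / 2)
      fun z hz => by
        show w z i * lap (phi r x l i) z + w z i * adv w (phi r x l i) z = 0
        rw [b1 i z hz, b2 w i z hz]
        ring
  have i2 : ∀ i, Integrable fun z => w z i * adv (fun _ => c) (phi r x l i) z := fun i =>
    int_csR ((hwi i).mul (a2 i)) (a := x) (R := 1 / 2) fun z hz => by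
      show w z i * adv (fun _ => c) (phi r x l i) z = 0
      rw [b2 _ i z hz, mul_zero]
  unfold HH
  rw [← Finset.sum_sub_distrib]
  refine Finset.sum_congr rfl fun i _ => ?_
  have e : ∀ z, (w z - c) i * lap (phi r x l i) z
      + (w z - c) i * adv (fun y => w y - c) (phi r x l i) z
      = ((w z i * lap (phi r x l i) z + w z i * adv w (phi r x l i) z)
        - w z i * adv (fun _ => c) (phi r x l i) z)
        + (-(c i) * lap (phi r x l i) z + (-(c i) * adv w (phi r x l i) z
          + c i * adv (fun _ => c) (phi r x l i) z)) := by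
    intro z
    have e1 : adv (fun y => w y - c) (phi r x l i) z
        = adv w (phi r x l i) z - adv (fun _ => c) (phi r x l i) z := by
      unfold adv
      rw [← Finset.sum_sub_distrib]
      refine Finset.sum_congr rfl fun j _ => ?_
      show (w z j - c j) * _ = _
      ring
    rw [e1]
    show (w z i - c i) * _ + (w z i - c i) * _ = _
    ring
  simp_rw [e]
  have j1 : Integrable fun z => -(c i) * lap (phi r x l i) z := (z1 i).1.const_mul _
  have j2 : Integrable fun z => -(c i) * adv w (phi r x l i) z := (z2 i).1.const_mul _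
  have j3 : Integrable fun z => c i * adv (fun _ => c) (phi r x l i) z := (z3 i).1.const_mul _
  have j4 : Integrable fun z => -(c i) * adv w (phi r x l i) z
      + c i * adv (fun _ => c) (phi r x l i) z := j2.add j3
  have j5 : Integrable fun z => -(c i) * lap (phi r x l i) z + (-(c i) * adv w (phi r x l i) z
      + c i * adv (fun _ => c) (phi r x l i) z) := j1.add j4
  have j6 : Integrable fun z => (w z i * lap (phi r x l i) z + w z i * adv w (phi r x l i) z)
      - w z i * adv (fun _ => c) (phi r x l i) z := (i1 i).sub (i2 i)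
  rw [integral_add j6 j5, integral_add j1 j4, integral_add j2 j3, integral_const_mul,
    integral_const_mul, integral_const_mul, (z1 i).2, (z2 i).2, (z3 i).2,
    integral_sub (i1 i) (i2 i)]
  ring

section

variable {T E D : ℝ} {G : Set ℝ} {u : ℝ → V → V} {p : ℝ → V → ℝ}

/-- The right hand side of the momentum equation for the moving test field. -/
lemma DM_mov (h : Turb 1 T E D G u p) {r : ℝ} (hr : 0 < r) (hr1 : r ≤ 1) {B C : ℝ}
    {X Y : ℝ → V} (hP : FPath T r B C G u p X Y) (l : Fin 3) {τ : ℝ} (hτ : τ ∈ G) :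
    ∑ i, DM 1 u p (fun s => phi r (X s) l i) i τ
      = HH r (fun y => u τ y - mo r (u τ) (X τ)) (X τ) l := by
  obtain ⟨hg, hg0⟩ := ggs hr hr1
  obtain ⟨c, hc⟩ : ∃ c, c = mo r (u τ) (X τ) := ⟨_, rfl⟩
  rw [← hc, ← HM_id hr hr1 (h.spv hτ).1 (h.divfree τ hτ) c (X τ) l,
    ← Pool.Agent.Y458.NS.DM_sum h hg hg0 (X τ) l hτ, ← Finset.sum_sub_distrib]
  refine Finset.sum_congr rfl fun i _ => ?_
  have hps : ContDiff ℝ ∞ (phi r (X τ) l i) := phi_sm hg _ l i
  have hd : HasDerivAt X c τ := by rw [hc]; exact FPath.evD h hP hτ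
  have h1 : ∀ x, deriv (fun s => phi r (X s) l i x) τ = -adv (fun _ => c) (phi r (X τ) l i) x := by
    intro x
    have e1 : (fun s => phi r (X s) l i x) = fun s => phi r 0 l i (x - X s) := by
      funext s
      rw [phi_shift]
    have hps0 : ContDiff ℝ ∞ (phi r 0 l i) := phi_sm hg _ l i
    have h2 : HasDerivAt (fun s => x - X s) (-c) τ := hd.const_sub x
    have h3 : HasDerivAt (fun s => phi r 0 l i (x - X s))
        ((fderiv ℝ (phi r 0 l i) (x - X τ)) (-c)) τ := by
      have h4 := (hps0.differentiable (by simp) (x - X τ)).hasFDerivAt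
      exact h4.comp_hasDerivAt τ h2
    rw [e1, h3.deriv]
    unfold adv
    have e2 : -c = ∑ j, (-c) j • (Pi.single j (1 : ℝ) : V) := by
      funext k
      simp [Finset.sum_apply, Pi.single_apply]
    rw [e2, map_sum, ← Finset.sum_neg_distrib]
    refine Finset.sum_congr rfl fun j _ => ?_
    rw [map_smul, phi_pd]
    show (-c) j * _ = -(c j * fderiv ℝ (phi r 0 l i) (x - X τ) (Pi.single j 1))
    simp
  have hwi : ∀ i, Continuous fun z => u τ z i := fun i => (contDiff_pi.1 (h.spv hτ).1 i).continuous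
  have hpcont := (h.sp hτ).smooth.continuous
  have b0 : (0 : ℝ) < 1 / 2 := by norm_num
  have b1 : ∀ z ∉ ball (X τ) (1 / 2), lap (phi r (X τ) l i) z = 0 := fun z hz =>
    lap_zero' hps b0 (phi_z hg hg0 _ l i) hz
  have b3 : ∀ j, ∀ z ∉ ball (X τ) (1 / 2), pd j (phi r (X τ) l i) z = 0 := fun j z hz =>
    pd_zero' hps b0 (phi_z hg hg0 _ l i) hz j
  have b2 : ∀ (v : V → V), ∀ z ∉ ball (X τ) (1 / 2), adv v (phi r (X τ) l i) z = 0 :=
    fun v z hz => by
      unfold adv
      exact Finset.sum_eq_zero fun j _ => by rw [b3 j z hz, mul_zero]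
  have a1 : ∀ v : V → V, (∀ j, Continuous fun z => v z j) → Continuous (adv v (phi r (X τ) l i)) :=
    fun v hv => by
      unfold adv
      exact continuous_finsetSum _ fun j _ => (hv j).mul (sm_pd hps j).continuous
  have hadc := a1 (fun _ => c) fun _ => continuous_const
  have hadw := a1 (u τ) hwi
  have i1 : Integrable fun z => u τ z i * adv (fun _ => c) (phi r (X τ) l i) z :=
    int_csR ((hwi i).mul hadc) (a := X τ) (R := 1 / 2) fun z hz => by
      show u τ z i * adv (fun _ => c) (phi r (X τ) l i) z = 0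
      rw [b2 _ z hz, mul_zero]
  have i2 : Integrable fun x => u τ x i * (deriv (fun _ : ℝ => phi r (X τ) l i x) τ
      + 1 * lap (phi r (X τ) l i) x) + u τ x i * adv (u τ) (phi r (X τ) l i) x
      + p τ x * pd i (phi r (X τ) l i) x := by
    have e : (fun x => u τ x i * (deriv (fun _ : ℝ => phi r (X τ) l i x) τ
      + 1 * lap (phi r (X τ) l i) x) + u τ x i * adv (u τ) (phi r (X τ) l i) x
      + p τ x * pd i (phi r (X τ) l i) x) = fun x => u τ x i * lap (phi r (X τ) l i) x
        + u τ x i * adv (u τ) (phi r (X τ) l i) x + p τ x * pd i (phi r (X τ) l i) x := by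
      funext x
      simp only [deriv_const, zero_add, one_mul]
    rw [e]
    refine int_csR ((((hwi i).mul (lap_ct hps)).add ((hwi i).mul hadw)).add
      (hpcont.mul (sm_pd hps i).continuous)) (a := X τ) (R := 1 / 2) fun z hz => ?_
    show u τ z i * lap (phi r (X τ) l i) z
        + u τ z i * adv (u τ) (phi r (X τ) l i) z + p τ z * pd i (phi r (X τ) l i) z = 0
    rw [b1 z hz, b2 _ z hz, b3 i z hz]
    ring
  unfold DM
  rw [← integral_sub i2 i1]
  refine integral_congr_ae (ae_of_all _ fun x => ?_)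
  simp only []
  rw [h1 x, deriv_const]
  ring

/-- The balance of momentum near a regular time. -/
lemma MN_loc (h : Turb 1 T E D G u p) {r : ℝ} (hr : 0 < r) (hr1 : r ≤ 1) {B C : ℝ}
    {X Y : ℝ → V} (hB : 0 ≤ B) (hP : FPath T r B C G u p X Y) (l : Fin 3) {a b : ℝ}
    (hab : Ioo a b ⊆ G) {s t : ℝ} (hs : s ∈ Ioo a b) (ht : t ∈ Ioo a b) (hst : s ≤ t) :
    IntegrableOn (fun τ => HH r (fun y => u τ y - mo r (u τ) (X τ)) (X τ) l) (Ioo s t) ∧
    MN r (u t) (X t) l - MN r (u s) (X s) l
      = ∫ τ in Ioo s t, HH r (fun y => u τ y - mo r (u τ) (X τ)) (X τ) l := by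
  obtain ⟨hg, hg0⟩ := ggs hr hr1
  have hsub : Ioo a b ⊆ Ioo 0 T := hab.trans h.subG
  obtain ⟨R, hR⟩ : ∃ R : ℝ, R = 1 / 2 + B * (b - a) := ⟨_, rfl⟩
  have hba : 0 < b - a := by linarith [hs.1, hs.2]
  have hR0 : 0 < R := by rw [hR]; positivity
  have hz : ∀ i, ∀ t ∈ Ioo a b, ∀ z ∉ ball (X s) R, phi r (X t) l i z = 0 := by
    intro i τ hτ z hz
    refine phi_z hg hg0 _ l i z fun hz' => hz ?_
    rw [mem_ball, dist_eq_norm] at hz' ⊢
    have h1 := FPath.lip hP (hsub hs) (hsub hτ)
    have h2 : |τ - s| ≤ b - a := by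
      rw [abs_le]
      constructor <;> linarith [hs.1, hs.2, hτ.1, hτ.2]
    have e : z - X s = (z - X τ) + (X τ - X s) := by abel
    rw [e]
    refine (norm_add_le _ _).trans_lt ?_
    have h3 : B * |τ - s| ≤ B * (b - a) := by gcongr
    rw [hR]
    linarith
  have hΦ : ∀ i, ContDiffOn ℝ ∞ (fun z : ℝ × V => (fun s => phi r (X s) l i) z.1 z.2)
      (Ioo a b ×ˢ univ) := by
    intro i
    have e : (fun z : ℝ × V => (fun s => phi r (X s) l i) z.1 z.2)
        = fun z : ℝ × V => phi r 0 l i (z.2 - X z.1) := by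
      funext z
      show phi r (X z.1) l i z.2 = _
      rw [phi_shift]
    rw [e]
    have h1 : ContDiffOn ℝ ∞ (fun z : ℝ × V => z.2 - X z.1) (Ioo a b ×ˢ univ) :=
      contDiffOn_snd.sub ((hP.sm.mono hab).comp contDiffOn_fst fun z hz => hz.1)
    exact (phi_sm hg 0 l i).comp_contDiffOn h1
  have hw := fun i => wmom Pool.Agent.Y8.B.p_tcut h i (α := a) (β := b)
    (Φ := fun s => phi r (X s) l i) (hΦ i) (a := X s) hR0 (hz i) (hab hs) (hab ht) hs.1 hst ht.2
  have hae : ∀ᵐ τ ∂(volume.restrict (Ioo s t)), τ ∈ G :=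
    aeT h (h.subG (hab hs)).1.le (h.subG (hab ht)).2.le
  have hi : IntegrableOn (fun τ => ∑ i, DM 1 u p (fun s => phi r (X s) l i) i τ) (Ioo s t) :=
    integrable_finsetSum _ fun i _ => (hw i).1
  have hcongr : (fun τ => ∑ i, DM 1 u p (fun s => phi r (X s) l i) i τ)
      =ᵐ[volume.restrict (Ioo s t)]
        fun τ => HH r (fun y => u τ y - mo r (u τ) (X τ)) (X τ) l := by
    filter_upwards [hae] with τ hτ
    exact DM_mov h hr hr1 hP l hτ
  refine ⟨hi.congr hcongr, ?_⟩
  rw [← integral_congr_ae hcongr, integral_finsetSum _ fun i _ => (hw i).1]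
  unfold MN
  rw [← Finset.sum_sub_distrib]
  exact Finset.sum_congr rfl fun i _ => (hw i).2

end

end Pool.Agent.K1H52
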