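import Pool.Agent.Y7.P12
import Pool.Agent.Y8.WFrame
import Pool.Agent.Y458.NS.MC

/-!
The oscillation of a smooth field at one time, by local averages of the gradient.
-/

set_option autoImplicit false
set_option linter.unusedVariables false

open MeasureTheory Set Metric Filter Topology
open scoped ContDiff ENNReal NNReal

namespace Pool.Agent.K1H52

open H459R3.NS W221.NS Pool.Agent.W12.MD Pool.Agent.Y7 Pool.Agent.Y7.Poi Pool.Agent.Y7.Sp
  Pool.Agent.Y8

/-- The local average of `|∇v| ^ (12 / 7)` over the ball of radius `ρ`, to the power `7 / 6`. -/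
noncomputable def AA (v : V → V) (y : V) (ρ : ℝ) : ℝ≥0∞ :=
  ((∫⁻ x in ball y ρ, gw v x) / ENNReal.ofReal (ρ ^ 3)) ^ (7 / 6 : ℝ)

/-- The same as a real number. -/
noncomputable def aa (v : V → V) (y : V) (ρ : ℝ) : ℝ := (AA v y ρ).toReal

lemma aa_nn (v : V → V) (y : V) (ρ : ℝ) : 0 ≤ aa v y ρ := ENNReal.toReal_nonneg

lemma gsq_ct {v : V → V} (hv : ContDiff ℝ ∞ v) : Continuous (gsq v) := (gsq_sm hv).continuous

lemma lgw_lt {v : V → V} (hv : ContDiff ℝ ∞ v) (y : V) (ρ : ℝ) :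
    ∫⁻ x in ball y ρ, gw v x < ⊤ := by
  obtain ⟨M, hM⟩ := (isCompact_closedBall y ρ).exists_bound_of_continuousOn
    (gsq_ct hv).continuousOn
  have h1 : ∫⁻ x in ball y ρ, gw v x ≤ ∫⁻ _ in ball y ρ, ENNReal.ofReal M ^ (6 / 7 : ℝ) := by
    refine setLIntegral_mono' measurableSet_ball fun x hx => ?_
    unfold gw
    refine ENNReal.rpow_le_rpow (ENNReal.ofReal_le_ofReal ?_) (by norm_num)
    exact (le_abs_self _).trans (hM x (ball_subset_closedBall hx))
  refine h1.trans_lt ?_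
  rw [setLIntegral_const]
  exact ENNReal.mul_lt_top (ENNReal.rpow_lt_top_of_nonneg (by norm_num) ENNReal.ofReal_ne_top)
    measure_ball_lt_top

lemma AA_ne {v : V → V} (hv : ContDiff ℝ ∞ v) (y : V) {ρ : ℝ} (hρ : 0 < ρ) : AA v y ρ ≠ ⊤ := by
  unfold AA
  refine ENNReal.rpow_ne_top_of_nonneg (by norm_num) ?_
  refine (ENNReal.div_lt_top (lgw_lt hv y ρ).ne ?_).ne
  rw [Ne, ENNReal.ofReal_eq_zero, not_le]
  positivity

lemma AA_eq {v : V → V} (hv : ContDiff ℝ ∞ v) (y : V) {ρ : ℝ} (hρ : 0 < ρ) :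
    ENNReal.ofReal (aa v y ρ) = AA v y ρ := ENNReal.ofReal_toReal (AA_ne hv y hρ)

/-- Averages over nested balls with comparable radii. -/
lemma AA_mono (v : V → V) {x y : V} {ρ : ℝ} (hρ : 0 < ρ) (h : ‖x - y‖ ≤ ρ) :
    AA v x ρ ≤ 8 ^ (7 / 6 : ℝ) * AA v y (2 * ρ) := by
  unfold AA
  rw [← ENNReal.mul_rpow_of_nonneg _ _ (by norm_num)]
  refine ENNReal.rpow_le_rpow ?_ (by norm_num)
  have hsub : ball x ρ ⊆ ball y (2 * ρ) := by
    intro z hz
    rw [mem_ball, dist_eq_norm] at hz ⊢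
    have e : z - y = (z - x) + (x - y) := by abel
    rw [e]
    exact (norm_add_le _ _).trans_lt (by linarith)
  calc (∫⁻ z in ball x ρ, gw v z) / ENNReal.ofReal (ρ ^ 3)
      ≤ (∫⁻ z in ball y (2 * ρ), gw v z) / ENNReal.ofReal (ρ ^ 3) := by
        gcongr
    _ = 8 * ((∫⁻ z in ball y (2 * ρ), gw v z) / ENNReal.ofReal ((2 * ρ) ^ 3)) := by
        rw [ENNReal.div_eq_inv_mul, ENNReal.div_eq_inv_mul, ← mul_assoc]
        congr 1
        rw [← ENNReal.ofReal_inv_of_pos (by positivity), ← ENNReal.ofReal_inv_of_pos (by positivity)]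
        have : (8 : ℝ≥0∞) = ENNReal.ofReal 8 := by simp
        rw [this, ← ENNReal.ofReal_mul (by norm_num)]
        congr 1
        field_simp
        norm_num

lemma aa_mono {v : V → V} (hv : ContDiff ℝ ∞ v) {x y : V} {ρ : ℝ} (hρ : 0 < ρ)
    (h : ‖x - y‖ ≤ ρ) : aa v x ρ ≤ 16 * aa v y (2 * ρ) := by
  have h1 := AA_mono v hρ h
  rw [← AA_eq hv x hρ, ← AA_eq hv y (by positivity : 0 < 2 * ρ)] at h1
  have h8 : (8 : ℝ≥0∞) ^ (7 / 6 : ℝ) ≤ 16 := by
    have e : (8 : ℝ≥0∞) ^ (7 / 6 : ℝ) = 2 ^ (7 / 2 : ℝ) := by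
      have : (8 : ℝ≥0∞) = 2 ^ (3 : ℝ) := by norm_num
      rw [this, ← ENNReal.rpow_mul]
      norm_num
    rw [e]
    calc (2 : ℝ≥0∞) ^ (7 / 2 : ℝ) ≤ 2 ^ (4 : ℝ) :=
          ENNReal.rpow_le_rpow_of_exponent_le (by norm_num) (by norm_num)
      _ = 16 := by norm_num
  have h2 : ENNReal.ofReal (aa v x ρ) ≤ ENNReal.ofReal (16 * aa v y (2 * ρ)) := by
    rw [ENNReal.ofReal_mul (by norm_num)]
    refine h1.trans ?_
    have : ENNReal.ofReal 16 = 16 := by simp
    rw [this]
    gcongr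
  exact (ENNReal.ofReal_le_ofReal_iff (mul_nonneg (by norm_num) (aa_nn _ _ _))).1 h2

/-- The oscillation at the scale `r` around `y`. -/
theorem osc1 : ∃ K : ℝ, 0 < K ∧ ∀ w : V → V, ContDiff ℝ ∞ w → ∀ (y : V) (r : ℝ), 0 < r →
    √(L4 0 4 (fr r w y)) ≤ K * (r ^ 4 * aa w y (8 * r)) := by
  obtain ⟨K, hK, hsp⟩ := sp
  have h512 : (512 : ℝ≥0∞) ^ (7 / 6 : ℝ) ≠ ⊤ :=
    ENNReal.rpow_ne_top_of_nonneg (by norm_num) (by norm_num)
  refine ⟨(K * 512 ^ (7 / 6 : ℝ)).toReal + 1, by positivity, ?_⟩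
  intro w hw y r hr
  have hg := gw_meas hw
  have h1 : ∫⁻ z in ball (0 : V) 8, gw (fr r w y) z
      = ENNReal.ofReal r ^ (24 / 7 : ℝ) * (512 * ((∫⁻ a in ball y (8 * r), gw w a)
        / ENNReal.ofReal ((8 * r) ^ 3))) := by
    simp_rw [fr_gw hw hr]
    rw [lintegral_const_mul' _ _ (ENNReal.rpow_ne_top_of_nonneg (by norm_num) ENNReal.ofReal_ne_top)]
    congr 1
    have h2 : ∫⁻ z in ball (0 : V) 8, gw w (y + r • z)
        = ∫⁻ z, (ball y (8 * r)).indicator (gw w) (y + r • z) := by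
      rw [← lintegral_indicator measurableSet_ball]
      refine lintegral_congr fun z => ?_
      have hiff : z ∈ ball (0 : V) 8 ↔ y + r • z ∈ ball y (8 * r) := by
        rw [mem_ball_zero_iff, mem_ball, dist_eq_norm, add_sub_cancel_left, norm_smul,
          Real.norm_eq_abs, abs_of_pos hr, mul_comm]
        exact (mul_lt_mul_iff_left₀ hr).symm
      by_cases hz : z ∈ ball (0 : V) 8
      · rw [indicator_of_mem hz, indicator_of_mem (hiff.1 hz)]
      · rw [indicator_of_notMem hz, indicator_of_notMem (fun h => hz (hiff.2 h))]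
    rw [h2, lint_smul _ (hg.indicator measurableSet_ball) hr.ne', lintegral_indicator
      measurableSet_ball, abs_of_pos (by positivity)]
    rw [ENNReal.div_eq_inv_mul, ← ENNReal.ofReal_inv_of_pos (by positivity), ← mul_assoc]
    congr 1
    have : (512 : ℝ≥0∞) = ENNReal.ofReal 512 := by simp
    rw [this, ← ENNReal.ofReal_mul (by norm_num)]
    congr 1
    field_simp
    norm_num
  have h3 := hsp _ (fr_smooth hw r y) (fr_mean hw r y)
  rw [h1, ENNReal.mul_rpow_of_nonneg _ _ (by norm_num), ENNReal.mul_rpow_of_nonneg _ _ (by norm_num),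
    ← ENNReal.rpow_mul] at h3
  have e1 : (24 / 7 : ℝ) * (7 / 6) = ((4 : ℕ) : ℝ) := by norm_num
  rw [e1, ENNReal.rpow_natCast, ← ENNReal.ofReal_pow hr.le] at h3
  have e2 : ((∫⁻ a in ball y (8 * r), gw w a) / ENNReal.ofReal ((8 * r) ^ 3)) ^ (7 / 6 : ℝ)
      = ENNReal.ofReal (aa w y (8 * r)) := by
    rw [AA_eq hw y (by positivity)]
    rfl
  rw [e2] at h3
  obtain ⟨k, hk⟩ : ∃ k : ℝ, k = (K * 512 ^ (7 / 6 : ℝ)).toReal := ⟨_, rfl⟩
  have hk0 : 0 ≤ k := by rw [hk]; exact ENNReal.toReal_nonneg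
  have hkk : K * 512 ^ (7 / 6 : ℝ) = ENNReal.ofReal k := by
    rw [hk, ENNReal.ofReal_toReal (ENNReal.mul_ne_top hK h512)]
  have ha := aa_nn w y (8 * r)
  have h4 : ENNReal.ofReal (√(L4 0 4 (fr r w y)))
      ≤ ENNReal.ofReal (k * (r ^ 4 * aa w y (8 * r))) := by
    refine h3.trans (le_of_eq ?_)
    rw [ENNReal.ofReal_mul hk0, ENNReal.ofReal_mul (by positivity), ← hkk]
    ring
  rw [ENNReal.ofReal_le_ofReal_iff (by positivity)] at h4
  rw [← hk]
  refine h4.trans ?_
  have : 0 ≤ r ^ 4 * aa w y (8 * r) := by positivity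
  nlinarith

/-- A mean of a field over a small ball, by the `L⁴` norm. -/
theorem th5 : ∃ C : ℝ, 0 < C ∧ ∀ v : V → V, ContDiff ℝ ∞ v → ∀ a : V, ‖a‖ ≤ 1 → ∀ b : ℝ,
    1 / 16 ≤ b → b ≤ 1 → ∀ i, |∫ z, th z * v (a + b • z) i| ≤ C * √(√(L4 0 4 v)) := by
  obtain ⟨C, hC0, hC⟩ := th_bdd
  refine ⟨√(√(4096 * C)), by positivity, fun v hv a ha b hb hb1 i => ?_⟩
  have hb0 : 0 < b := by linarith
  have hvi := smooth_comp hv i
  have hc : Continuous fun z => v (a + b • z) i := (comp_affine hvi b a).continuous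
  have h1 : (∫ z, th z * v (a + b • z) i) ^ 4 ≤ 4096 * C * L4 0 4 v := by
    have h2 := jen2 hc
    have h3 := jen2 (hc.pow 2)
    have h4 : (∫ z, th z * v (a + b • z) i) ^ 4 ≤ ∫ z, th z * (v (a + b • z) i ^ 2) ^ 2 := by
      calc (∫ z, th z * v (a + b • z) i) ^ 4 = ((∫ z, th z * v (a + b • z) i) ^ 2) ^ 2 := by ring
        _ ≤ (∫ z, th z * v (a + b • z) i ^ 2) ^ 2 := pow_le_pow_left₀ (sq_nonneg _) h2 2
        _ ≤ _ := h3
    have h5 : ∫ z, th z * (v (a + b • z) i ^ 2) ^ 2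
        ≤ C * ∫ z in ball (0 : V) 1, (v (a + b • z) i ^ 2) ^ 2 :=
      th_int_le hC ((hc.pow 2).pow 2) (fun z => sq_nonneg _) le_rfl
    have hF : Continuous fun z => (v z i ^ 2) ^ 2 := (hvi.continuous.pow 2).pow 2
    have h6 : ∫ z in ball (0 : V) 1, (v (a + b • z) i ^ 2) ^ 2
        = (b ^ 3)⁻¹ * ∫ z in ball a (b * 1), (v z i ^ 2) ^ 2 := by
      have e1 : ∫ z in ball (0 : V) 1, (v (a + b • z) i ^ 2) ^ 2
          = ∫ z, (ball a (b * 1)).indicator (fun z => (v z i ^ 2) ^ 2) (a + b • z) := by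
        rw [← integral_indicator measurableSet_ball]
        congr 1
        funext z
        have hiff : z ∈ ball (0 : V) 1 ↔ a + b • z ∈ ball a (b * 1) := by
          rw [mem_ball_zero_iff, mem_ball, dist_eq_norm, add_sub_cancel_left, norm_smul,
            Real.norm_eq_abs, abs_of_pos hb0]
          exact (mul_lt_mul_iff_right₀ hb0).symm
        by_cases hz : z ∈ ball (0 : V) 1
        · rw [indicator_of_mem hz, indicator_of_mem (hiff.1 hz)]
        · rw [indicator_of_notMem hz, indicator_of_notMem (fun h => hz (hiff.2 h))]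
      rw [e1, int_aff hb0, integral_indicator measurableSet_ball]
    have h7 : ∫ z in ball a (b * 1), (v z i ^ 2) ^ 2 ≤ L4 0 4 v := by
      unfold L4
      have hn : Continuous (fun z => nsq v z ^ 2) := by
        unfold nsq
        exact (continuous_finsetSum _ fun i _ => (smooth_comp hv i).continuous.pow 2).pow 2
      calc ∫ z in ball a (b * 1), (v z i ^ 2) ^ 2 ≤ ∫ z in ball a (b * 1), nsq v z ^ 2 := by
            refine setIntegral_mono (intB hF _ _) (intB hn _ _) fun z => ?_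
            refine pow_le_pow_left₀ (sq_nonneg _) ?_ 2
            exact Finset.single_le_sum (f := fun i => v z i ^ 2) (fun _ _ => sq_nonneg _)
              (Finset.mem_univ i)
        _ ≤ ∫ z in ball (0 : V) 4, nsq v z ^ 2 := by
            apply setIntegral_mono_set (intB hn _ _)
              (Eventually.of_forall fun z => sq_nonneg _)
            refine LE.le.eventuallyLE ?_
            intro z hz
            rw [mem_ball, dist_eq_norm] at hz
            rw [mem_ball_zero_iff]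
            have : ‖z‖ ≤ ‖z - a‖ + ‖a‖ := by
              have e : z = (z - a) + a := by abel
              conv_lhs => rw [e]
              exact norm_add_le _ _
            linarith
    have h8 : (b ^ 3)⁻¹ ≤ 4096 := by
      have h9 : (1 / 4096 : ℝ) ≤ b ^ 3 := by
        have := pow_le_pow_left₀ (by norm_num) hb 3
        norm_num at this ⊢
        exact this
      calc (b ^ 3)⁻¹ ≤ (1 / 4096 : ℝ)⁻¹ := inv_anti₀ (by norm_num) h9
        _ = 4096 := by norm_num
    have hL : 0 ≤ L4 0 4 v := integral_nonneg fun z => sq_nonneg _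
    have h10 : 0 ≤ ∫ z in ball a (b * 1), (v z i ^ 2) ^ 2 := integral_nonneg fun z => sq_nonneg _
    calc (∫ z, th z * v (a + b • z) i) ^ 4
        ≤ C * ((b ^ 3)⁻¹ * ∫ z in ball a (b * 1), (v z i ^ 2) ^ 2) := by
          rw [← h6]; exact h4.trans h5
      _ ≤ C * (4096 * L4 0 4 v) := by gcongr
      _ = _ := by ring
  have hL : 0 ≤ L4 0 4 v := integral_nonneg fun z => sq_nonneg _
  rw [← Real.sqrt_mul (Real.sqrt_nonneg _), ← Real.sqrt_mul (by positivity)]
  apply Real.abs_le_sqrt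
  apply Real.le_sqrt_of_sq_le
  calc ((∫ z, th z * v (a + b • z) i) ^ 2) ^ 2 = (∫ z, th z * v (a + b • z) i) ^ 4 := by ring
    _ ≤ _ := h1

/-- Means at comparable scales and nearby points. -/
theorem modiff : ∃ C : ℝ, 0 < C ∧ ∀ w : V → V, ContDiff ℝ ∞ w → ∀ (x y : V) (r b : ℝ), 0 < r →
    1 / 16 ≤ b → b ≤ 1 → ‖y - x‖ ≤ r →
      ‖mo (r * b) w y - mo r w x‖ ≤ C * (r * √(aa w x (8 * r))) := by
  obtain ⟨K, hK, hosc⟩ := osc1
  obtain ⟨C, hC, h5⟩ := th5
  refine ⟨C * √K, by positivity, fun w hw x y r b hr hb hb1 hxy => ?_⟩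
  have ha := aa_nn w x (8 * r)
  rw [pi_norm_le_iff_of_nonneg (by positivity)]
  intro i
  rw [Real.norm_eq_abs, Pi.sub_apply]
  obtain ⟨a, had⟩ : ∃ a : V, a = r⁻¹ • (y - x) := ⟨_, rfl⟩
  have ha1 : ‖a‖ ≤ 1 := by
    rw [had, norm_smul, Real.norm_eq_abs, abs_of_pos (inv_pos.2 hr), inv_mul_le_iff₀ hr]
    linarith
  have hya : x + r • a = y := by
    rw [had, smul_smul, mul_inv_cancel₀ hr.ne', one_smul, add_sub_cancel]
  have h1 := h5 _ (fr_smooth hw r x) a ha1 b hb hb1 i
  rw [ml_diff hw hr, abs_mul, abs_of_pos hr, hya] at h1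
  have e1 : ml (r * b) w y i = mo (r * b) w y i := rfl
  have e2 : ml r w x i = mo r w x i := rfl
  rw [e1, e2] at h1
  have h2 : √(√(L4 0 4 (fr r w x))) ≤ √K * (r ^ 2 * √(aa w x (8 * r))) := by
    refine (Real.sqrt_le_sqrt (hosc w hw x r hr)).trans (le_of_eq ?_)
    rw [Real.sqrt_mul hK.le, Real.sqrt_mul (by positivity)]
    congr 2
    rw [show r ^ 4 = (r ^ 2) ^ 2 by ring, Real.sqrt_sq (by positivity)]
  have h3 : r * |mo (r * b) w y i - mo r w x i| ≤ r * (C * √K * (r * √(aa w x (8 * r)))) := by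
    refine h1.trans ?_
    calc C * √(√(L4 0 4 (fr r w x))) ≤ C * (√K * (r ^ 2 * √(aa w x (8 * r)))) :=
          mul_le_mul_of_nonneg_left h2 hC.le
      _ = _ := by ring
  exact le_of_mul_le_mul_left h3 hr

/-- The deviation from the mean at the same scale. -/
theorem A2osc : ∃ C : ℝ, 0 < C ∧ ∀ w : V → V, ContDiff ℝ ∞ w → ∀ (y : V) (r : ℝ), 0 < r →
    A2 y r (fun x => w x - mo r w y) ≤ C * (r ^ 3 * (r ^ 2 * aa w y (8 * r))) := by
  obtain ⟨K, hK, hosc⟩ := osc1
  refine ⟨√8 * K, by positivity, fun w hw y r hr => ?_⟩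
  have h1 := hosc w hw y r hr
  have hfs := fr_smooth hw r y
  have hn : Continuous (nsq (fr r w y)) := (nsq_sm hfs).continuous
  -- Cauchy-Schwarz on the unit ball
  have h2 : ∫ z in ball (0 : V) 1, nsq (fr r w y) z ≤ √8 * √(L4 0 4 (fr r w y)) := by
    have h3 := Pool.Agent.W386.MD.cs (μ := volume.restrict (ball (0 : V) 1)) (nsq (fr r w y))
      (fun _ => 1) (Pool.Agent.Y8.ballint (hn.pow 2) _ _) (Pool.Agent.Y8.ballint (continuous_const.pow 2) _ _)
      (Pool.Agent.Y8.ballint (hn.mul continuous_const) _ _)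
    simp only [mul_one, one_pow] at h3
    have e : ∫ _ in ball (0 : V) 1, (1 : ℝ) = 8 := by
      rw [setIntegral_const]
      simp [Measure.real, Real.volume_pi_ball]
      norm_num
    rw [e] at h3
    have h4 : ∫ z in ball (0 : V) 1, nsq (fr r w y) z ^ 2 ≤ L4 0 4 (fr r w y) := by
      unfold L4
      apply setIntegral_mono_set (Pool.Agent.Y8.ballint (hn.pow 2) _ _)
        (Eventually.of_forall fun z => sq_nonneg _)
      exact (ball_subset_ball (by norm_num)).eventuallyLE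
    calc ∫ z in ball (0 : V) 1, nsq (fr r w y) z
        ≤ √(∫ z in ball (0 : V) 1, nsq (fr r w y) z ^ 2) * √8 := (le_abs_self _).trans h3
      _ ≤ √(L4 0 4 (fr r w y)) * √8 := by gcongr
      _ = _ := mul_comm _ _
  have h5 : A2 y r (fun x => w x - mo r w y) = r * ∫ z in ball (0 : V) 1, nsq (fr r w y) z := by
    have e1 : ∫ z in ball (0 : V) 1, nsq (fr r w y) z
        = ∫ z, (ball y r).indicator (fun x => r ^ 2 * nsq (fun x => w x - mo r w y) x)
          (y + r • z) := by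
      rw [← integral_indicator measurableSet_ball]
      congr 1
      funext z
      have hiff : z ∈ ball (0 : V) 1 ↔ y + r • z ∈ ball y r := by
        rw [mem_ball_zero_iff, mem_ball, dist_eq_norm, add_sub_cancel_left, norm_smul,
          Real.norm_eq_abs, abs_of_pos hr]
        constructor
        · intro h; nlinarith
        · intro h; nlinarith
      have e2 : nsq (fr r w y) z = r ^ 2 * nsq (fun x => w x - mo r w y) (y + r • z) := by
        unfold nsq Pool.Agent.Y7.fr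
        rw [Finset.mul_sum]
        refine Finset.sum_congr rfl fun i _ => ?_
        show (r * (w (y + r • z) i - ml r w y i)) ^ 2 = r ^ 2 * (w (y + r • z) i - mo r w y i) ^ 2
        have : ml r w y i = mo r w y i := rfl
        rw [this]
        ring
      by_cases hz : z ∈ ball (0 : V) 1
      · rw [indicator_of_mem hz, indicator_of_mem (hiff.1 hz), e2]
      · rw [indicator_of_notMem hz, indicator_of_notMem (fun h => hz (hiff.2 h))]
    rw [e1, int_aff hr, integral_indicator measurableSet_ball, integral_const_mul]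
    unfold A2
    field_simp
  rw [h5]
  calc r * ∫ z in ball (0 : V) 1, nsq (fr r w y) z
      ≤ r * (√8 * (K * (r ^ 4 * aa w y (8 * r)))) := by
        refine mul_le_mul_of_nonneg_left (h2.trans ?_) hr.le
        exact mul_le_mul_of_nonneg_left h1 (Real.sqrt_nonneg _)
    _ = _ := by ring

end Pool.Agent.K1H52
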