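import Pool.Agent.K1H52.Mom3

/-!
Persistence of the velocity along a path: the displacement in a short time.
-/

set_option autoImplicit false
set_option linter.unusedVariables false

open MeasureTheory Set Metric Filter Topology
open scoped ContDiff ENNReal NNReal

namespace Pool.Agent.K1H52

open H459R3.NS W221.NS Pool.Agent.Y8

lemma sqrt_meas {W : ℝ → ℝ} {s t : ℝ} (hW : IntegrableOn W (Ioo s t)) (h0 : ∀ τ, 0 ≤ W τ) :
    IntegrableOn (fun τ => √(W τ)) (Ioo s t) := by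
  have h1 : IntegrableOn (fun τ => 1 + W τ) (Ioo s t) :=
    (integrableOn_const (by simp)).add hW
  refine Integrable.mono' h1 (Real.continuous_sqrt.comp_aestronglyMeasurable hW.1) ?_
  filter_upwards with τ
  rw [Real.norm_eq_abs, abs_of_nonneg (Real.sqrt_nonneg _), Real.sqrt_le_left (by
    have := h0 τ; positivity)]
  nlinarith [h0 τ]

lemma int_sqrt_le {W : ℝ → ℝ} {s t : ℝ} (hst : s ≤ t) (hW : IntegrableOn W (Ioo s t))
    (h0 : ∀ τ, 0 ≤ W τ) :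
    ∫ τ in Ioo s t, √(W τ) ≤ √((t - s) * ∫ τ in Ioo s t, W τ) := by
  have hi := sqrt_meas hW h0
  have hS : 0 ≤ ∫ τ in Ioo s t, √(W τ) := integral_nonneg fun τ => Real.sqrt_nonneg _
  have hc : IntegrableOn (fun _ : ℝ => (1 : ℝ)) (Ioo s t) := integrableOn_const (by simp)
  have h1 : ∫ _ in Ioo s t, (1 : ℝ) = t - s := by
    rw [setIntegral_const]
    simp [Measure.real, Real.volume_Ioo, ENNReal.toReal_ofReal (sub_nonneg.2 hst)]
  have key : ∀ x : ℝ, 0 ≤ (t - s) * (x * x) + (-(2 * ∫ τ in Ioo s t, √(W τ))) * x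
      + ∫ τ in Ioo s t, W τ := by
    intro x
    have h2 : 0 ≤ ∫ τ in Ioo s t, (x * x * 1 + (-(2 * x)) * √(W τ) + W τ) := by
      refine integral_nonneg fun τ => ?_
      have h3 := Real.sq_sqrt (h0 τ)
      have : x * x * 1 + (-(2 * x)) * √(W τ) + W τ = (x - √(W τ)) ^ 2 := by
        nlinarith
      show 0 ≤ x * x * 1 + (-(2 * x)) * √(W τ) + W τ
      rw [this]
      positivity
    have e1 : IntegrableOn (fun _ : ℝ => x * x * 1) (Ioo s t) := hc.const_mul _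
    have e2 : IntegrableOn (fun τ => (-(2 * x)) * √(W τ)) (Ioo s t) := hi.const_mul _
    have e3 : IntegrableOn (fun τ => x * x * 1 + (-(2 * x)) * √(W τ)) (Ioo s t) := e1.add e2
    rw [integral_add e3 hW, integral_add e1 e2, integral_const_mul, integral_const_mul, h1] at h2
    linarith
  have h2 := discrim_le_zero key
  unfold discrim at h2
  apply Real.le_sqrt_of_sq_le
  nlinarith

section

variable {T E D : ℝ} {G : Set ℝ} {u : ℝ → V → V} {p : ℝ → V → ℝ}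

lemma path_int (h : Turb 1 T E D G u p) {r B C : ℝ} {X Y : ℝ → V}
    (hP : FPath T r B C G u p X Y) {s t : ℝ} (hs : s ∈ Ioo 0 T) (ht : t ∈ Ioo 0 T)
    (hst : s ≤ t) : IntegrableOn Y (Ioo s t) ∧ X t - X s = ∫ τ in Ioo s t, Y τ := by
  have hi := Pool.Agent.Y458.NS.FPath_Y_int h hP
  have hsub : Ioo s t ⊆ Ioo 0 T := Ioo_subset_Ioo hs.1.le ht.2.le
  have h1 : IntegrableOn Y (Ioo s t) := hi.mono_set hsub
  refine ⟨h1, ?_⟩
  rw [← integral_Ioc_eq_integral_Ioo, ← intervalIntegral.integral_of_le hst]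
  refine (intervalIntegral.integral_eq_sub_of_hasDerivAt (fun τ hτ => ?_) ?_).symm
  · rw [uIcc_of_le hst] at hτ
    exact hP.hd τ ⟨hs.1.trans_le hτ.1, hτ.2.trans_lt ht.2⟩
  · rw [intervalIntegrable_iff_integrableOn_Ioo_of_le hst]
    exact h1

/-- The displacement by the mean velocity and the weighted local dissipation. -/
theorem pers : ∃ C δ : ℝ, 0 < C ∧ 0 < δ ∧ ∀ (T E D : ℝ) (G : Set ℝ) (u : ℝ → V → V)
    (p : ℝ → V → ℝ), Turb 1 T E D G u p → ∀ n : ℕ, 2 ≤ n → ∀ (X Y : ℝ → V) (B C' : ℝ),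
    0 ≤ B → B * rr n ^ 2 ≤ δ → FPath T (rr n) B C' G u p X Y → ∀ t₀ : ℝ, 0 < t₀ - rr n ^ 2 →
    t₀ + rr n ^ 2 < T → ∀ d : ℝ, (∀ τ, |τ - t₀| ≤ rr n ^ 2 → ‖X τ - X t₀‖ ≤ d) →
    ∀ θ : ℝ, 0 < θ → θ ≤ rr n ^ 2 → ∀ τ, |τ - t₀| < θ →
      ‖X τ - X t₀‖ ≤ C * (θ / rr n * (d / rr n + (∫ τ in II n t₀, WW n (u τ) (X τ))
        + √(∫ τ in II n t₀, WW n (u τ) (X τ)) + rr n * (1 + E ^ 2))
        + √(θ * ∫ τ in Ioo (t₀ - θ) (t₀ + θ), WW n (u τ) (X τ))) := by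
  obtain ⟨C₀, hC₀, hpath⟩ := MN_path
  obtain ⟨CM, c₀, hc₀, hc₀C, hmc⟩ := mcW
  have hCM : 0 < CM := hc₀.trans_le hc₀C
  obtain ⟨δ, hδ⟩ : ∃ δ : ℝ, δ = c₀ / (4 * C₀) := ⟨_, rfl⟩
  have hδ0 : 0 < δ := by rw [hδ]; positivity
  obtain ⟨A, hA⟩ : ∃ A : ℝ, A = CM + 4 * C₀ + 4 * C₀ * δ * CM / c₀ := ⟨_, rfl⟩
  have hA0 : 0 < A := by rw [hA]; positivity
  refine ⟨(2 * A + CM) / c₀ + CM / c₀, δ, by positivity, hδ0, ?_⟩
  intro T E D G u p h n hn X Y B C' hB hBδ hP t₀ ht1 ht2 d hd θ hθ hθr τ₁ hτ₁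
  have hr := rrp n
  have hr1 := rr_le1 n
  have hT0 : 0 < T := by nlinarith [sq_nonneg (rr n)]
  obtain ⟨M, hMc, hMG, hMm⟩ := hpath T E D G u p h n hn X Y B C' hB hT0 hP
  obtain ⟨κ, hκ1, hκ2, hcmp⟩ := hmc n hn
  have hκ0 : 0 < κ := hc₀.trans_le hκ1
  obtain ⟨r, hrd⟩ : ∃ r, r = rr n := ⟨_, rfl⟩
  obtain ⟨Λ, hΛ⟩ : ∃ Λ, Λ = 1 + E ^ 2 := ⟨_, rfl⟩
  have hΛ0 : 0 < Λ := by rw [hΛ]; positivity
  obtain ⟨W, hWd⟩ : ∃ W : ℝ → ℝ, W = fun τ => WW n (u τ) (X τ) := ⟨_, rfl⟩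
  have hW0 : ∀ τ, 0 ≤ W τ := fun τ => by rw [hWd]; exact WW_nn _ _ _
  have hX := hP.sm.continuousOn
  have hWG : IntegrableOn W G := by rw [hWd]; exact WW_int h hX n
  obtain ⟨a, ha⟩ : ∃ a, a = ∫ τ in II n t₀, W τ := ⟨_, rfl⟩
  have ha0 : 0 ≤ a := by rw [ha]; exact integral_nonneg hW0
  have haW : ∫ τ in II n t₀, WW n (u τ) (X τ) = a := by rw [ha, hWd]
  have hwW : ∫ τ in Ioo (t₀ - θ) (t₀ + θ), WW n (u τ) (X τ)
      = ∫ τ in Ioo (t₀ - θ) (t₀ + θ), W τ := by rw [hWd]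
  rw [haW, hwW, ← hrd, ← hΛ]
  rw [← hrd] at hr hr1 ht1 ht2 hd hθr hBδ
  have hII : II n t₀ = Ioo (t₀ - r ^ 2) (t₀ + r ^ 2) := by unfold II; rw [hrd]
  rw [hII] at ha
  have hr2 : 0 < r ^ 2 := by positivity
  have hsubI : Ioo (t₀ - r ^ 2) (t₀ + r ^ 2) ⊆ Ioo 0 T := Ioo_subset_Ioo ht1.le ht2.le
  have hsubC : Icc (t₀ - r ^ 2) (t₀ + r ^ 2) ⊆ Ioo 0 T := fun τ hτ =>
    ⟨ht1.trans_le hτ.1, hτ.2.trans_lt ht2⟩
  have hIoo : ∀ {s t : ℝ}, s ∈ Icc (t₀ - r ^ 2) (t₀ + r ^ 2) → t ∈ Icc (t₀ - r ^ 2) (t₀ + r ^ 2) →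
      Ioo s t ⊆ Ioo 0 T := fun hs ht => Ioo_subset_Ioo (hsubC hs).1.le (hsubC ht).2.le
  have hWi : ∀ {s t : ℝ}, s ∈ Icc (t₀ - r ^ 2) (t₀ + r ^ 2) → t ∈ Icc (t₀ - r ^ 2) (t₀ + r ^ 2) →
      IntegrableOn W (Ioo s t) := fun hs ht =>
    hWG.mono_set_ae (Pool.Agent.Y458.NS.sub_ae h (hIoo hs ht))
  have hend1 : t₀ - r ^ 2 ∈ Icc (t₀ - r ^ 2) (t₀ + r ^ 2) := ⟨le_rfl, by linarith⟩
  have hend2 : t₀ + r ^ 2 ∈ Icc (t₀ - r ^ 2) (t₀ + r ^ 2) := ⟨by linarith, le_rfl⟩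
  have hmid : t₀ ∈ Icc (t₀ - r ^ 2) (t₀ + r ^ 2) := ⟨by linarith, by linarith⟩
  -- comparison of the means
  have hcm : ∀ τ ∈ G, ‖M τ - κ • Y τ‖ ≤ CM * (√(W τ) + Λ) := by
    intro τ hτ
    have h0 := Real.sqrt_nonneg (W τ)
    rw [pi_norm_le_iff_of_nonneg (by positivity)]
    intro l
    have h1 := hcmp (u τ) (h.spv hτ) (h.divfree τ hτ) (X τ) l
    have h2 := h.energy_le τ hτ
    rw [hMG τ hτ, hP.ev τ hτ]
    refine h1.trans (mul_le_mul_of_nonneg_left ?_ hCM.le)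
    rw [hWd, hΛ]
    linarith
  have hYle : ∀ τ ∈ G, ‖Y τ‖ ≤ (‖M τ‖ + CM * (√(W τ) + Λ)) / c₀ := by
    intro τ hτ
    have h1 := hcm τ hτ
    have h2 : κ * ‖Y τ‖ ≤ ‖M τ‖ + CM * (√(W τ) + Λ) := by
      have e : κ • Y τ = M τ - (M τ - κ • Y τ) := by abel
      have h3 : ‖κ • Y τ‖ = κ * ‖Y τ‖ := by
        rw [norm_smul, Real.norm_eq_abs, abs_of_pos hκ0]
      rw [← h3, e]
      exact (norm_sub_le _ _).trans (by linarith)
    rw [le_div_iff₀ hc₀]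
    have h3 : ‖Y τ‖ * c₀ ≤ κ * ‖Y τ‖ := by
      rw [mul_comm]
      exact mul_le_mul_of_nonneg_right hκ1 (norm_nonneg _)
    linarith
  -- the maximum of the mean velocity
  obtain ⟨τm, hτm, hmax⟩ := (isCompact_Icc (a := t₀ - r ^ 2) (b := t₀ + r ^ 2)).exists_isMaxOn
    ⟨t₀, hmid⟩ (hMc.norm.continuousOn)
  obtain ⟨m, hm⟩ : ∃ m, m = ‖M τm‖ := ⟨_, rfl⟩
  have hm0 : 0 ≤ m := by rw [hm]; exact norm_nonneg _
  have hmle : ∀ τ ∈ Icc (t₀ - r ^ 2) (t₀ + r ^ 2), ‖M τ‖ ≤ m := fun τ hτ => by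
    rw [hm]; exact hmax hτ
  -- integral of the square root
  have hS : ∀ {s t : ℝ}, s ∈ Icc (t₀ - r ^ 2) (t₀ + r ^ 2) → t ∈ Icc (t₀ - r ^ 2) (t₀ + r ^ 2) →
      s ≤ t → ∫ τ in Ioo s t, √(W τ) ≤ √((t - s) * ∫ τ in Ioo s t, W τ) := fun hs ht hst =>
    int_sqrt_le hst (hWi hs ht) hW0
  have hvol : ∀ {s t : ℝ} (b : ℝ), s ≤ t → ∫ _ in Ioo s t, b = b * (t - s) := by
    intro s t b hst
    rw [setIntegral_const, smul_eq_mul]
    simp [Measure.real, Real.volume_Ioo, ENNReal.toReal_ofReal (sub_nonneg.2 hst), mul_comm]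
  -- the integral of the speed
  have hspeed : ∀ {s t : ℝ}, s ∈ Icc (t₀ - r ^ 2) (t₀ + r ^ 2) →
      t ∈ Icc (t₀ - r ^ 2) (t₀ + r ^ 2) → s ≤ t → ∫ τ in Ioo s t, ‖Y τ‖
        ≤ ((m + CM * Λ) * (t - s) + CM * √((t - s) * ∫ τ in Ioo s t, W τ)) / c₀ := by
    intro s t hs ht hst
    have i1 : IntegrableOn (fun _ : ℝ => m + CM * Λ) (Ioo s t) := integrableOn_const (by simp)
    have i2 : IntegrableOn (fun τ => CM * √(W τ)) (Ioo s t) :=
      (sqrt_meas (hWi hs ht) hW0).const_mul _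
    have i3 : IntegrableOn (fun τ => ((m + CM * Λ) + CM * √(W τ)) / c₀) (Ioo s t) :=
      (i1.add i2).div_const _
    have iY := (path_int h hP (hsubC hs) (hsubC ht) hst).1
    calc ∫ τ in Ioo s t, ‖Y τ‖ ≤ ∫ τ in Ioo s t, ((m + CM * Λ) + CM * √(W τ)) / c₀ := by
          refine integral_mono_ae iY.norm i3 ?_
          filter_upwards [aeT h (hsubC hs).1.le (hsubC ht).2.le, ae_restrict_mem measurableSet_Ioo]
            with τ hτ hτI
          refine (hYle τ hτ).trans (div_le_div_of_nonneg_right ?_ hc₀.le)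
          have := hmle τ ⟨hs.1.trans hτI.1.le, hτI.2.le.trans ht.2⟩
          linarith
      _ = ((m + CM * Λ) * (t - s) + CM * ∫ τ in Ioo s t, √(W τ)) / c₀ := by
          rw [integral_div, integral_add i1 i2, integral_const_mul, hvol _ hst]
      _ ≤ _ := by
          have := hS hs ht hst
          gcongr
  -- the oscillation of the mean velocity
  have hfull := hS hend1 hend2 (by linarith)
  have hspf := hspeed hend1 hend2 (by linarith)
  have elen : t₀ + r ^ 2 - (t₀ - r ^ 2) = 2 * r ^ 2 := by ring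
  rw [elen, ← ha] at hfull hspf
  have hsq : √(2 * r ^ 2 * a) ≤ 2 * r * √a := by
    rw [show 2 * r ^ 2 * a = (r ^ 2 * 2) * a by ring, Real.sqrt_mul (by positivity),
      Real.sqrt_mul (by positivity), Real.sqrt_sq hr.le]
    have h2 : √2 ≤ 2 := by
      rw [Real.sqrt_le_left (by norm_num)]
      norm_num
    have := Real.sqrt_nonneg a
    calc r * √2 * √a ≤ r * 2 * √a := by gcongr
      _ = _ := by ring
  have hHf : ∫ τ in Ioo (t₀ - r ^ 2) (t₀ + r ^ 2), Hf n E u X τ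
      ≤ a / r + 2 * √a / r + 2 * r ^ 2 * Λ
        + B * (((m + CM * Λ) * (2 * r ^ 2) + CM * (2 * r * √a)) / c₀) := by
    have hWI := hWi hend1 hend2
    have i1 : IntegrableOn (fun τ => W τ / r) (Ioo (t₀ - r ^ 2) (t₀ + r ^ 2)) := hWI.div_const _
    have i2 : IntegrableOn (fun τ => √(W τ) / r ^ 2) (Ioo (t₀ - r ^ 2) (t₀ + r ^ 2)) :=
      (sqrt_meas hWI hW0).div_const _
    have i3 : IntegrableOn (fun _ : ℝ => Λ) (Ioo (t₀ - r ^ 2) (t₀ + r ^ 2)) :=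
      integrableOn_const (by simp)
    have iY := (path_int h hP (hsubC hend1) (hsubC hend2) (by linarith)).1
    have i4 : IntegrableOn (fun τ => B * ‖Y τ‖) (Ioo (t₀ - r ^ 2) (t₀ + r ^ 2)) :=
      iY.norm.const_mul _
    have i12 : IntegrableOn (fun τ => W τ / r + √(W τ) / r ^ 2)
      (Ioo (t₀ - r ^ 2) (t₀ + r ^ 2)) := i1.add i2
    have i123 : IntegrableOn (fun τ => W τ / r + √(W τ) / r ^ 2 + Λ)
      (Ioo (t₀ - r ^ 2) (t₀ + r ^ 2)) := i12.add i3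
    have iH : IntegrableOn (Hf n E u X) (Ioo (t₀ - r ^ 2) (t₀ + r ^ 2)) :=
      (Hf_int h hP).mono_set_ae (Pool.Agent.Y458.NS.sub_ae h hsubI)
    calc ∫ τ in Ioo (t₀ - r ^ 2) (t₀ + r ^ 2), Hf n E u X τ
        ≤ ∫ τ in Ioo (t₀ - r ^ 2) (t₀ + r ^ 2), (W τ / r + √(W τ) / r ^ 2 + Λ + B * ‖Y τ‖) := by
          refine integral_mono_ae iH (i123.add i4) ?_
          filter_upwards [aeT h ht1.le ht2.le] with τ hτ
          have h1 : ‖mo (rr n) (u τ) (X τ)‖ ^ 2 ≤ B * ‖Y τ‖ := by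
            rw [← hP.ev τ hτ, sq]
            exact mul_le_mul_of_nonneg_right (hP.bd τ (h.subG hτ)) (norm_nonneg _)
          have h2 : Hf n E u X τ = W τ / r + √(W τ) / r ^ 2 + Λ
              + ‖mo (rr n) (u τ) (X τ)‖ ^ 2 := by
            unfold Hf
            rw [hWd, hΛ, hrd]
            ring
          rw [h2]
          linarith
      _ = a / r + (∫ τ in Ioo (t₀ - r ^ 2) (t₀ + r ^ 2), √(W τ)) / r ^ 2 + Λ * (2 * r ^ 2)
          + B * ∫ τ in Ioo (t₀ - r ^ 2) (t₀ + r ^ 2), ‖Y τ‖ := by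
          rw [integral_add i123 i4, integral_add i12 i3, integral_add i1 i2, integral_div,
            integral_div, integral_const_mul, hvol _ (by linarith), elen, ← ha]
      _ ≤ _ := by
          have h1 : (∫ τ in Ioo (t₀ - r ^ 2) (t₀ + r ^ 2), √(W τ)) / r ^ 2 ≤ 2 * √a / r := by
            rw [div_le_div_iff₀ hr2 hr]
            have := hfull.trans hsq
            nlinarith
          have h2 : B * ∫ τ in Ioo (t₀ - r ^ 2) (t₀ + r ^ 2), ‖Y τ‖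
              ≤ B * (((m + CM * Λ) * (2 * r ^ 2) + CM * (2 * r * √a)) / c₀) := by
            refine mul_le_mul_of_nonneg_left (hspf.trans ?_) hB
            gcongr
          linarith
  have hosc : ∀ τ ∈ Icc (t₀ - r ^ 2) (t₀ + r ^ 2), ‖M τm - M τ‖
      ≤ C₀ * ∫ τ in Ioo (t₀ - r ^ 2) (t₀ + r ^ 2), Hf n E u X τ := by
    have iH : IntegrableOn (Hf n E u X) (Ioo (t₀ - r ^ 2) (t₀ + r ^ 2)) :=
      (Hf_int h hP).mono_set_ae (Pool.Agent.Y458.NS.sub_ae h hsubI)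
    have key : ∀ s ∈ Icc (t₀ - r ^ 2) (t₀ + r ^ 2), ∀ t ∈ Icc (t₀ - r ^ 2) (t₀ + r ^ 2), s ≤ t →
        ‖M t - M s‖ ≤ C₀ * ∫ τ in Ioo (t₀ - r ^ 2) (t₀ + r ^ 2), Hf n E u X τ := by
      intro s hs t ht hst
      refine (hMm s (Ioo_subset_Icc_self (hsubC hs)) t (Ioo_subset_Icc_self (hsubC ht)) hst).trans
        (mul_le_mul_of_nonneg_left ?_ hC₀.le)
      exact setIntegral_mono_set iH (ae_of_all _ fun τ => Hf_nn _ _ _ _ _)
        (Ioo_subset_Ioo hs.1 ht.2).eventuallyLE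
    intro τ hτ
    rcases le_total τ τm with hle | hle
    · exact key τ hτ τm hτm hle
    · rw [norm_sub_rev]
      exact key τm hτm τ hτ hle
  -- the bound of the maximum
  obtain ⟨O, hO⟩ : ∃ O, O = C₀ * ∫ τ in Ioo (t₀ - r ^ 2) (t₀ + r ^ 2), Hf n E u X τ := ⟨_, rfl⟩
  rw [← hO] at hosc
  have hmean : 2 * r ^ 2 * m ≤ 2 * r ^ 2 * O + CM * (2 * d) + CM * (2 * r * √a + Λ * (2 * r ^ 2)) := by
    have iM : IntegrableOn M (Ioo (t₀ - r ^ 2) (t₀ + r ^ 2)) :=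
      (hMc.continuousOn.integrableOn_compact isCompact_Icc).mono_set Ioo_subset_Icc_self
    obtain ⟨iY, eY⟩ := path_int h hP (hsubC hend1) (hsubC hend2) (by linarith)
    have iK : IntegrableOn (fun τ => κ • Y τ) (Ioo (t₀ - r ^ 2) (t₀ + r ^ 2)) := iY.smul κ
    have ic : IntegrableOn (fun _ : ℝ => M τm) (Ioo (t₀ - r ^ 2) (t₀ + r ^ 2)) :=
      integrableOn_const (by simp)
    have e1 : (2 * r ^ 2) • M τm = (∫ τ in Ioo (t₀ - r ^ 2) (t₀ + r ^ 2), (M τm - M τ))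
        + (∫ τ in Ioo (t₀ - r ^ 2) (t₀ + r ^ 2), (M τ - κ • Y τ))
        + κ • (X (t₀ + r ^ 2) - X (t₀ - r ^ 2)) := by
      rw [integral_sub ic iM, integral_sub iM iK, integral_smul, ← eY, setIntegral_const]
      have : (volume : Measure ℝ).real (Ioo (t₀ - r ^ 2) (t₀ + r ^ 2)) = 2 * r ^ 2 := by
        simp only [Measure.real, Real.volume_Ioo, elen]
        exact ENNReal.toReal_ofReal (by positivity)
      rw [this]
      abel
    have n1 : ‖∫ τ in Ioo (t₀ - r ^ 2) (t₀ + r ^ 2), (M τm - M τ)‖ ≤ 2 * r ^ 2 * O := by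
      have h1 := norm_setIntegral_le_of_norm_le_const (μ := volume)
        (s := Ioo (t₀ - r ^ 2) (t₀ + r ^ 2)) (f := fun τ => M τm - M τ) (C := O)
        (by simp) (fun τ hτ => hosc τ (Ioo_subset_Icc_self hτ))
      have : (volume : Measure ℝ).real (Ioo (t₀ - r ^ 2) (t₀ + r ^ 2)) = 2 * r ^ 2 := by
        simp only [Measure.real, Real.volume_Ioo, elen]
        exact ENNReal.toReal_ofReal (by positivity)
      rw [this] at h1
      linarith
    have n2 : ‖∫ τ in Ioo (t₀ - r ^ 2) (t₀ + r ^ 2), (M τ - κ • Y τ)‖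
        ≤ CM * (2 * r * √a + Λ * (2 * r ^ 2)) := by
      have i1 : IntegrableOn (fun τ => √(W τ)) (Ioo (t₀ - r ^ 2) (t₀ + r ^ 2)) :=
        sqrt_meas (hWi hend1 hend2) hW0
      have i2 : IntegrableOn (fun _ : ℝ => Λ) (Ioo (t₀ - r ^ 2) (t₀ + r ^ 2)) :=
        integrableOn_const (by simp)
      have i3 : IntegrableOn (fun τ => CM * (√(W τ) + Λ)) (Ioo (t₀ - r ^ 2) (t₀ + r ^ 2)) :=
        (i1.add i2).const_mul _
      refine (norm_integral_le_of_norm_le i3 ?_).trans ?_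
      · filter_upwards [aeT h ht1.le ht2.le] with τ hτ
        exact hcm τ hτ
      · rw [integral_const_mul, integral_add i1 i2, hvol _ (by linarith), elen]
        have := hfull.trans hsq
        gcongr
    have n3 : ‖κ • (X (t₀ + r ^ 2) - X (t₀ - r ^ 2))‖ ≤ CM * (2 * d) := by
      rw [norm_smul, Real.norm_eq_abs, abs_of_pos hκ0]
      have d1 := hd (t₀ + r ^ 2) (by rw [add_sub_cancel_left, abs_of_pos hr2])
      have d2 := hd (t₀ - r ^ 2) (by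
        rw [sub_sub_cancel_left, abs_neg, abs_of_pos hr2])
      have e2 : X (t₀ + r ^ 2) - X (t₀ - r ^ 2) = (X (t₀ + r ^ 2) - X t₀) - (X (t₀ - r ^ 2) - X t₀) := by
        abel
      have h3 : ‖X (t₀ + r ^ 2) - X (t₀ - r ^ 2)‖ ≤ 2 * d := by
        rw [e2]
        exact (norm_sub_le _ _).trans (by linarith)
      exact mul_le_mul hκ2 h3 (norm_nonneg _) hCM.le
    have n0 : ‖(2 * r ^ 2) • M τm‖ = 2 * r ^ 2 * m := by
      rw [norm_smul, Real.norm_eq_abs, abs_of_pos (by positivity), hm]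
    rw [← n0, e1]
    refine (norm_add_le _ _).trans ?_
    have := norm_add_le (∫ τ in Ioo (t₀ - r ^ 2) (t₀ + r ^ 2), (M τm - M τ))
      (∫ τ in Ioo (t₀ - r ^ 2) (t₀ + r ^ 2), (M τ - κ • Y τ))
    linarith
  have hd0 : 0 ≤ d := (norm_nonneg _).trans (hd t₀ (by simp; positivity))
  have hsa := Real.sqrt_nonneg a
  -- absorb
  have hrm : r * m ≤ 2 * A * (d / r + a + √a + r * Λ) := by
    have hO1 : O ≤ C₀ * (a / r + 2 * √a / r + 2 * r ^ 2 * Λ
        + B * (((m + CM * Λ) * (2 * r ^ 2) + CM * (2 * r * √a)) / c₀)) := by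
      rw [hO]
      exact mul_le_mul_of_nonneg_left hHf hC₀.le
    have hm1 : m ≤ O + CM * d / r ^ 2 + CM * (√a / r + Λ) := by
      have h1 : 2 * r ^ 2 * m ≤ 2 * r ^ 2 * (O + CM * d / r ^ 2 + CM * (√a / r + Λ)) := by
        refine hmean.trans (le_of_eq ?_)
        field_simp
      exact le_of_mul_le_mul_left h1 (by positivity)
    have hm2 : r * m ≤ r * O + CM * (d / r) + CM * (√a + r * Λ) := by
      have h1 := mul_le_mul_of_nonneg_left hm1 hr.le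
      refine h1.trans (le_of_eq ?_)
      field_simp
    have hO2 : r * O ≤ C₀ * (a + 2 * √a + 2 * r ^ 3 * Λ
        + B * r ^ 2 * ((2 * (r * m) + CM * (2 * (r * Λ)) + CM * (2 * √a)) / c₀)) := by
      have h1 := mul_le_mul_of_nonneg_left hO1 hr.le
      refine h1.trans (le_of_eq ?_)
      field_simp
    have hrm0 : 0 ≤ r * m := by positivity
    have hrΛ : 0 ≤ r * Λ := by positivity
    have h3 : B * r ^ 2 * ((2 * (r * m) + CM * (2 * (r * Λ)) + CM * (2 * √a)) / c₀)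
        ≤ δ * ((2 * (r * m) + CM * (2 * (r * Λ)) + CM * (2 * √a)) / c₀) := by gcongr
    have h4 : C₀ * (δ * ((2 * (r * m) + CM * (2 * (r * Λ)) + CM * (2 * √a)) / c₀))
        = 1 / 2 * (r * m) + 2 * (C₀ * δ * CM / c₀) * (r * Λ) + 2 * (C₀ * δ * CM / c₀) * √a := by
      have : C₀ * δ / c₀ = 1 / 4 := by
        rw [hδ]
        field_simp
      calc C₀ * (δ * ((2 * (r * m) + CM * (2 * (r * Λ)) + CM * (2 * √a)) / c₀))
          = (C₀ * δ / c₀) * 2 * (r * m) + 2 * (C₀ * δ * CM / c₀) * (r * Λ)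
            + 2 * (C₀ * δ * CM / c₀) * √a := by ring
        _ = _ := by rw [this]; ring
    have h5 : r ^ 3 * Λ ≤ r * Λ := by
      have : r ^ 3 ≤ r := by nlinarith [sq_nonneg r, mul_pos hr hr]
      gcongr
    have hdr : 0 ≤ d / r := by positivity
    have hq : 0 ≤ C₀ * δ * CM / c₀ := by positivity
    have h6 : r * O ≤ C₀ * a + 2 * C₀ * √a + 2 * C₀ * (r * Λ) + (1 / 2 * (r * m)
        + 2 * (C₀ * δ * CM / c₀) * (r * Λ) + 2 * (C₀ * δ * CM / c₀) * √a) := by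
      rw [← h4]
      refine hO2.trans ?_
      have h7 := mul_le_mul_of_nonneg_left h3 hC₀.le
      have h8 := mul_le_mul_of_nonneg_left h5 hC₀.le
      nlinarith
    have h9 : r * m ≤ 2 * (C₀ * a + 2 * C₀ * √a + 2 * C₀ * (r * Λ)
        + 2 * (C₀ * δ * CM / c₀) * (r * Λ) + 2 * (C₀ * δ * CM / c₀) * √a
        + CM * (d / r) + CM * (√a + r * Λ)) := by linarith
    refine h9.trans ?_
    have e4 : A = CM + 4 * C₀ + 4 * (C₀ * δ * CM / c₀) := by rw [hA]; ring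
    obtain ⟨q, hqd⟩ : ∃ q, q = C₀ * δ * CM / c₀ := ⟨_, rfl⟩
    rw [← hqd] at hq e4 ⊢
    rw [e4]
    have g1 : 0 ≤ C₀ * a := by positivity
    have g2 : 0 ≤ C₀ * √a := by positivity
    have g3 : 0 ≤ C₀ * (r * Λ) := by positivity
    have g4 : 0 ≤ q * (r * Λ) := by positivity
    have g5 : 0 ≤ q * √a := by positivity
    have g6 : 0 ≤ CM * a := by positivity
    have g7 : 0 ≤ C₀ * (d / r) := by positivity
    have g8 : 0 ≤ q * (d / r) := by positivity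
    have g9 : 0 ≤ q * a := by positivity
    nlinarith
  -- the short window
  have hfin : ∀ {s t : ℝ}, s ∈ Icc (t₀ - θ) (t₀ + θ) → t ∈ Icc (t₀ - θ) (t₀ + θ) → s ≤ t →
      t - s ≤ θ → ‖X t - X s‖ ≤ ((2 * A + CM) / c₀ + CM / c₀) * (θ / r * (d / r + a + √a + r * Λ)
        + √(θ * ∫ τ in Ioo (t₀ - θ) (t₀ + θ), W τ)) := by
    intro s t hs ht hst hts
    have hs' : s ∈ Icc (t₀ - r ^ 2) (t₀ + r ^ 2) := ⟨by linarith [hs.1], by linarith [hs.2]⟩
    have ht' : t ∈ Icc (t₀ - r ^ 2) (t₀ + r ^ 2) := ⟨by linarith [ht.1], by linarith [ht.2]⟩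
    obtain ⟨iY, eY⟩ := path_int h hP (hsubC hs') (hsubC ht') hst
    rw [eY]
    refine (norm_integral_le_integral_norm _).trans ((hspeed hs' ht' hst).trans ?_)
    have hJ1 : t₀ - θ ∈ Icc (t₀ - r ^ 2) (t₀ + r ^ 2) := ⟨by linarith, by linarith⟩
    have hJ2 : t₀ + θ ∈ Icc (t₀ - r ^ 2) (t₀ + r ^ 2) := ⟨by linarith, by linarith⟩
    have hw : ∫ τ in Ioo s t, W τ ≤ ∫ τ in Ioo (t₀ - θ) (t₀ + θ), W τ :=
      setIntegral_mono_set (hWi hJ1 hJ2) (ae_of_all _ hW0)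
        (Ioo_subset_Ioo hs.1 ht.2).eventuallyLE
    have hw0 : 0 ≤ ∫ τ in Ioo s t, W τ := integral_nonneg hW0
    have h1 : √((t - s) * ∫ τ in Ioo s t, W τ) ≤ √(θ * ∫ τ in Ioo (t₀ - θ) (t₀ + θ), W τ) := by
      apply Real.sqrt_le_sqrt
      gcongr
    obtain ⟨Q, hQ⟩ : ∃ Q, Q = √(θ * ∫ τ in Ioo (t₀ - θ) (t₀ + θ), W τ) := ⟨_, rfl⟩
    have hQ0 : 0 ≤ Q := by rw [hQ]; positivity
    rw [← hQ] at h1 ⊢
    obtain ⟨P, hPd⟩ : ∃ P, P = d / r + a + √a + r * Λ := ⟨_, rfl⟩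
    rw [← hPd] at hrm ⊢
    have hP0 : 0 ≤ P := by rw [hPd]; positivity
    have hP1 : r * Λ ≤ P := by
      rw [hPd]
      have : 0 ≤ d / r := by positivity
      linarith
    have h2 : (m + CM * Λ) * (t - s) ≤ (2 * A + CM) * (θ / r * P) := by
      have h3 : m + CM * Λ ≤ (2 * A + CM) * (P / r) := by
        have h4 : r * (m + CM * Λ) ≤ r * ((2 * A + CM) * (P / r)) := by
          have e5 : r * ((2 * A + CM) * (P / r)) = (2 * A + CM) * P := by field_simp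
          rw [e5]
          nlinarith
        exact le_of_mul_le_mul_left h4 hr
      have h5 : 0 ≤ m + CM * Λ := by positivity
      calc (m + CM * Λ) * (t - s) ≤ (2 * A + CM) * (P / r) * θ :=
            mul_le_mul h3 hts (by linarith) (by positivity)
        _ = _ := by ring
    have h6 : ((m + CM * Λ) * (t - s) + CM * √((t - s) * ∫ τ in Ioo s t, W τ)) / c₀
        ≤ ((2 * A + CM) * (θ / r * P) + CM * Q) / c₀ := by gcongr
    refine h6.trans ?_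
    have h7 : 0 ≤ θ / r * P := by positivity
    have h8 : 0 ≤ CM / c₀ * (θ / r * P) := by positivity
    have h9 : 0 ≤ (2 * A + CM) / c₀ * Q := by positivity
    calc ((2 * A + CM) * (θ / r * P) + CM * Q) / c₀
        = (2 * A + CM) / c₀ * (θ / r * P) + CM / c₀ * Q := by ring
      _ ≤ _ := by
          have e6 : ((2 * A + CM) / c₀ + CM / c₀) * (θ / r * P + Q)
              = (2 * A + CM) / c₀ * (θ / r * P) + CM / c₀ * Q + CM / c₀ * (θ / r * P)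
                + (2 * A + CM) / c₀ * Q := by ring
          rw [e6]
          linarith
  rw [abs_lt] at hτ₁
  rcases le_total τ₁ t₀ with hle | hle
  · rw [norm_sub_rev]
    exact hfin ⟨by linarith, by linarith⟩ ⟨by linarith, by linarith⟩ hle (by linarith)
  · exact hfin ⟨by linarith, by linarith⟩ ⟨by linarith, by linarith⟩ hle (by linarith)

end

end Pool.Agent.K1H52
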