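import Pool.Agent.K1H52.Mc
import Pool.Agent.Y458.NS.AL

/-!
The weighted local dissipation along a path as a function of time.
-/

set_option autoImplicit false
set_option linter.unusedVariables false

open MeasureTheory Set Metric Filter Topology
open scoped ContDiff ENNReal NNReal

namespace Pool.Agent.K1H52

open H459R3.NS W221.NS Pool.Agent.Y8 Pool.Agent.Y7.Sp
open Pool.Agent.Y458.NS (B2_mov_int sub_ae)

lemma gp_ct {v : V → V} (hv : ContDiff ℝ ∞ v) : Continuous fun x => gsq v x ^ (6 / 7 : ℝ) :=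
  (gsq_ct hv).rpow_const fun _ => Or.inr (by norm_num)

lemma aa_real {v : V → V} (hv : ContDiff ℝ ∞ v) (y : V) {ρ : ℝ} (hρ : 0 < ρ) :
    aa v y ρ = ((∫ x in ball y ρ, gsq v x ^ (6 / 7 : ℝ)) / ρ ^ 3) ^ (7 / 6 : ℝ) := by
  have h0 : ∀ x, 0 ≤ gsq v x ^ (6 / 7 : ℝ) := fun x => Real.rpow_nonneg (gsq_nn v x) _
  have h1 : 0 ≤ ∫ x in ball y ρ, gsq v x ^ (6 / 7 : ℝ) := integral_nonneg fun x => h0 x
  have h2 : ∫⁻ x in ball y ρ, gw v x
      = ENNReal.ofReal (∫ x in ball y ρ, gsq v x ^ (6 / 7 : ℝ)) := by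
    rw [ofReal_integral_eq_lintegral_ofReal (ballint (gp_ct hv) y ρ) (ae_of_all _ h0)]
    refine lintegral_congr fun x => ?_
    unfold gw
    rw [ENNReal.ofReal_rpow_of_nonneg (gsq_nn v x) (by norm_num)]
  unfold aa AA
  rw [h2, ← ENNReal.ofReal_div_of_pos (by positivity),
    ENNReal.ofReal_rpow_of_nonneg (by positivity) (by norm_num),
    ENNReal.toReal_ofReal (by positivity)]

lemma aa_le_B2 {v : V → V} (hv : ContDiff ℝ ∞ v) (y : V) {ρ : ℝ} (hρ : 0 < ρ) :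
    aa v y ρ ≤ 2 * ((ρ ^ 3)⁻¹ * B2 y ρ v) := by
  have h0 : ∀ x, 0 ≤ gsq v x ^ (6 / 7 : ℝ) := fun x => Real.rpow_nonneg (gsq_nn v x) _
  have hB : 0 ≤ B2 y ρ v := integral_nonneg fun x => gsq_nn v x
  have hm : AEMeasurable (gw v) (volume.restrict (ball y ρ)) :=
    (Pool.Agent.Y7.gw_meas hv).aemeasurable
  have h1 := Pool.Agent.Y7.Poi.jensen (p := 7 / 6) (by norm_num) hm
  have h2 : ∫⁻ x in ball y ρ, gw v x ^ (7 / 6 : ℝ) = ENNReal.ofReal (B2 y ρ v) := by
    unfold B2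
    rw [ofReal_integral_eq_lintegral_ofReal (ballint (gsq_ct hv) y ρ)
      (ae_of_all _ fun x => gsq_nn v x)]
    refine lintegral_congr fun x => ?_
    unfold gw
    rw [← ENNReal.rpow_mul]
    norm_num
  rw [h2, Measure.restrict_apply_univ] at h1
  have h3 : AA v y ρ ≤ ENNReal.ofReal (2 * ((ρ ^ 3)⁻¹ * B2 y ρ v)) := by
    unfold AA
    rw [ENNReal.div_rpow_of_nonneg _ _ (by norm_num)]
    refine ENNReal.div_le_of_le_mul ?_
    refine h1.trans ?_
    have e1 : volume (ball y ρ) = ENNReal.ofReal ((2 * ρ) ^ 3) := by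
      rw [Real.volume_pi_ball y hρ]
      simp
    rw [e1, ENNReal.ofReal_rpow_of_nonneg (by positivity) (by norm_num),
      ENNReal.ofReal_rpow_of_nonneg (by positivity) (by norm_num),
      ← ENNReal.ofReal_mul (by positivity), ← ENNReal.ofReal_mul (by positivity)]
    apply ENNReal.ofReal_le_ofReal
    have e2 : ((2 * ρ) ^ 3 : ℝ) ^ (7 / 6 - 1 : ℝ) = √2 * (ρ ^ 3) ^ (1 / 6 : ℝ) := by
      rw [mul_pow, Real.mul_rpow (by norm_num) (by positivity)]
      congr 1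
      · rw [Real.sqrt_eq_rpow, ← Real.rpow_natCast, ← Real.rpow_mul (by norm_num)]
        norm_num
      · norm_num
    have e3 : (ρ ^ 3 : ℝ) ^ (7 / 6 : ℝ) = ρ ^ 3 * (ρ ^ 3) ^ (1 / 6 : ℝ) := by
      have : (7 / 6 : ℝ) = 1 + 1 / 6 := by norm_num
      rw [this, Real.rpow_add (by positivity), Real.rpow_one]
    rw [e2, e3]
    have h4 : √2 ≤ 2 := by
      rw [Real.sqrt_le_left (by norm_num)]
      norm_num
    have h5 : 0 ≤ (ρ ^ 3 : ℝ) ^ (1 / 6 : ℝ) := by positivity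
    calc √2 * (ρ ^ 3) ^ (1 / 6 : ℝ) * B2 y ρ v ≤ 2 * (ρ ^ 3) ^ (1 / 6 : ℝ) * B2 y ρ v := by gcongr
      _ = _ := by field_simp
  rw [← AA_eq hv y hρ] at h3
  exact (ENNReal.ofReal_le_ofReal_iff (by positivity)).1 h3

section

variable {T E D : ℝ} {G : Set ℝ} {u : ℝ → V → V} {p : ℝ → V → ℝ}

lemma aa_cont (h : Turb 1 T E D G u p) {X : ℝ → V} (hX : ContinuousOn X G) {ρ : ℝ} (hρ : 0 < ρ) :
    ContinuousOn (fun t => aa (u t) (X t) ρ) G := by
  have h1 : ContinuousOn (fun z : ℝ × V => gsq (u z.1) (X z.1 + z.2)) (G ×ˢ univ) := by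
    have h2 : ContinuousOn (fun z : ℝ × V => ((z.1, X z.1 + z.2) : ℝ × V)) (G ×ˢ univ) := by
      refine continuousOn_fst.prodMk ((hX.comp continuousOn_fst fun z hz => hz.1).add
        continuousOn_snd)
    have h3 := (gsq_joint h.openG h.smooth_u).continuousOn
    exact ContinuousOn.comp (g := fun w : ℝ × V => gsq (u w.1) w.2)
      (f := fun z : ℝ × V => ((z.1, X z.1 + z.2) : ℝ × V)) h3 h2 fun z hz => ⟨hz.1, mem_univ _⟩
  have h1' : ContinuousOn (fun z : ℝ × V => gsq (u z.1) (X z.1 + z.2) ^ (6 / 7 : ℝ))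
      (G ×ˢ univ) := h1.rpow_const fun _ _ => Or.inr (by norm_num)
  have h3 := pint_cont h.openG (F := fun t z => gsq (u t) (X t + z) ^ (6 / 7 : ℝ)) h1' 0 ρ
  have h4 := (h3.div_const (ρ ^ 3)).rpow_const (p := (7 / 6 : ℝ)) fun _ _ => Or.inr (by norm_num)
  refine h4.congr fun t ht => ?_
  show aa (u t) (X t) ρ = _
  rw [aa_real (h.spv ht).1 (X t) hρ]
  congr 2
  exact (Pool.Agent.Y496.NS.int_shift (fun x => gsq (u t) x ^ (6 / 7 : ℝ)) (X t) ρ).symm

lemma aa_int (h : Turb 1 T E D G u p) {X : ℝ → V} (hX : ContinuousOn X G) {ρ : ℝ} (hρ : 0 < ρ) :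
    IntegrableOn (fun t => aa (u t) (X t) ρ) G := by
  refine Integrable.mono' (((B2_mov_int h hX ρ).const_mul (2 * (ρ ^ 3)⁻¹)))
    ((aa_cont h hX hρ).aestronglyMeasurable h.openG.measurableSet) ?_
  filter_upwards [ae_restrict_mem h.openG.measurableSet] with t ht
  rw [Real.norm_eq_abs, abs_of_nonneg (aa_nn _ _ _)]
  have := aa_le_B2 (h.spv ht).1 (X t) hρ
  linarith

lemma WW_cont (h : Turb 1 T E D G u p) {X : ℝ → V} (hX : ContinuousOn X G) (n : ℕ) :
    ContinuousOn (fun t => WW n (u t) (X t)) G := by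
  unfold WW
  refine continuousOn_finsetSum _ fun k _ => ?_
  have hr := rrp n
  exact continuousOn_const.mul (continuousOn_const.mul (aa_cont h hX (by positivity)))

lemma WW_int (h : Turb 1 T E D G u p) {X : ℝ → V} (hX : ContinuousOn X G) (n : ℕ) :
    IntegrableOn (fun t => WW n (u t) (X t)) G := by
  unfold WW
  refine integrable_finsetSum _ fun k _ => ?_
  have hr := rrp n
  exact ((aa_int h hX (by positivity)).const_mul _).const_mul _

lemma mo_cont (h : Turb 1 T E D G u p) {X : ℝ → V} (hX : ContinuousOn X G) (r : ℝ) :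
    ContinuousOn (fun t => mo r (u t) (X t)) G := by
  have h1 : ContinuousOn (fun t : ℝ => ((t, X t) : ℝ × V)) G := continuousOn_id.prodMk hX
  exact ContinuousOn.comp (g := fun z : ℝ × V => mo r (u z.1) z.2) (f := fun t => (t, X t))
    (mol_joint h.openG h.smooth_u r).continuousOn h1 fun t ht => ⟨ht, mem_univ _⟩

end

end Pool.Agent.K1H52
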